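import Pool.Agent.H176RZ.Window
import Pool.Agent.H306R2.SM.Asm1

set_option autoImplicit false

/-!
From Gamma-weighted upper bounds to upper bounds on all intervals `[U, U + H]` of `[0, T]` with
`H ≥ T / (log T)^α`, `α < 1`.
-/

namespace Pool.Agent.L7h20.TM3

open Finset Filter Topology MeasureTheory Pool.Agent.H306R2 Pool.Agent.H306R2.SM
open Pool.Agent.H965R2.SMT1 Pool.Agent.H601R2.SMLoc Pool.Agent.H176RZ

noncomputable section

/-- averaging of the weights over the scale -/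
theorem lint_eq {k : ℕ} (hk : 1 ≤ k) {t a b : ℝ} (ht : 0 < t) (ha : 0 < a) (hab : a ≤ b) :
    ∫⁻ x in Set.Ioc a b, ENNReal.ofReal (om k (k / x) t) =
      ENNReal.ofReal (Ph k (k * t / b) - Ph k (k * t / a)) := by
  have hcont : ContinuousOn (fun x : ℝ => om k (k / x) t) (Set.uIcc a b) := by
    rw [Set.uIcc_of_le hab]
    unfold om
    have h1 : ContinuousOn (fun x : ℝ => (k : ℝ) / x) (Set.Icc a b) :=
      continuousOn_const.div continuousOn_id fun x hx => (ha.trans_le hx.1).ne'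
    exact (((h1.pow _).mul continuousOn_const).mul
      ((h1.mul continuousOn_const).neg.rexp)).div_const _
  have hint : IntervalIntegrable (fun x : ℝ => om k (k / x) t) volume a b :=
    hcont.intervalIntegrable
  have h1 : ∫ x in a..b, om k (k / x) t = Ph k (k * t / b) - Ph k (k * t / a) := by
    apply intervalIntegral.integral_eq_sub_of_hasDerivAt (f := fun y => Ph k (k * t / y)) _ hint
    intro x hx
    rw [Set.uIcc_of_le hab] at hx
    exact W_hasDeriv hk ht (ha.trans_le hx.1)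
  rw [intervalIntegral.integral_of_le hab] at h1
  rw [← ofReal_integral_eq_lintegral_ofReal
    ((intervalIntegrable_iff_integrableOn_Ioc_of_le hab).1 hint), h1]
  filter_upwards [ae_restrict_mem measurableSet_Ioc] with x hx
  have hx0 : 0 < x := ha.trans hx.1
  exact om_nonneg (by positivity) ht.le

/-- main inequality for one interval -/
theorem up_step {f : ℝ → ℝ} (hf : Continuous f) (hf0 : ∀ t, 0 ≤ f t) {k : ℕ} (hk : 1 ≤ k)
    {a b A B c1 ρ : ℝ} (ha : 0 < a) (hab : a ≤ b) (hA : 0 < A) (hAB : A ≤ B) (hc1 : 0 ≤ c1)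
    (hρ : 0 ≤ ρ)
    (hint : ∀ x ∈ Set.Ioc a b, IntegrableOn (fun t => om k (k / x) t * f t) (Set.Ioi 0))
    (hup : ∀ x ∈ Set.Ioc a b, ∫ t in Set.Ioi (0 : ℝ), om k (k / x) t * f t ≤ c1)
    (hmass : ∀ t ∈ Set.Ioc A B, ρ ≤ Ph k (k * t / b) - Ph k (k * t / a)) :
    ρ * ∫ t in A..B, f t ≤ c1 * (b - a) := by
  have hmeas : Measurable (Function.uncurry fun (x t : ℝ) =>
      ENNReal.ofReal (om k (k / x) t * f t)) := by
    unfold om Function.uncurry
    have := hf.measurable
    fun_prop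
  have h1 : ENNReal.ofReal (ρ * ∫ t in A..B, f t) ≤
      ∫⁻ t in Set.Ioc A B, ∫⁻ x in Set.Ioc a b, ENNReal.ofReal (om k (k / x) t * f t) := by
    rw [intervalIntegral.integral_of_le hAB, ← integral_const_mul,
      ofReal_integral_eq_lintegral_ofReal (((hf.intervalIntegrable A B).1).const_mul ρ)
        (Filter.Eventually.of_forall fun t => mul_nonneg hρ (hf0 t))]
    apply setLIntegral_mono' measurableSet_Ioc
    intro t ht
    have ht0 : 0 < t := hA.trans ht.1
    have h1 : ∀ x, ENNReal.ofReal (om k (k / x) t * f t) =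
        ENNReal.ofReal (f t) * ENNReal.ofReal (om k (k / x) t) := by
      intro x
      rw [mul_comm, ENNReal.ofReal_mul (hf0 t)]
    simp_rw [h1]
    rw [lintegral_const_mul' _ _ ENNReal.ofReal_ne_top, lint_eq hk ht0 ha hab,
      ← ENNReal.ofReal_mul (hf0 t)]
    apply ENNReal.ofReal_le_ofReal
    rw [mul_comm]
    exact mul_le_mul_of_nonneg_left (hmass t ht) (hf0 t)
  have h2 : ∫⁻ t in Set.Ioc A B, ∫⁻ x in Set.Ioc a b, ENNReal.ofReal (om k (k / x) t * f t) ≤
      ∫⁻ t in Set.Ioi (0 : ℝ), ∫⁻ x in Set.Ioc a b, ENNReal.ofReal (om k (k / x) t * f t) :=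
    lintegral_mono_set fun t ht => hA.trans ht.1
  have h2' : ∫⁻ t in Set.Ioi (0 : ℝ), ∫⁻ x in Set.Ioc a b, ENNReal.ofReal (om k (k / x) t * f t) =
      ∫⁻ x in Set.Ioc a b, ∫⁻ t in Set.Ioi (0 : ℝ), ENNReal.ofReal (om k (k / x) t * f t) :=
    (lintegral_lintegral_swap hmeas.aemeasurable).symm
  rw [h2'] at h2
  have h3 : ∫⁻ x in Set.Ioc a b, ∫⁻ t in Set.Ioi (0 : ℝ), ENNReal.ofReal (om k (k / x) t * f t) ≤
      ENNReal.ofReal (c1 * (b - a)) := by
    have e : ENNReal.ofReal (c1 * (b - a)) = ∫⁻ _ in Set.Ioc a b, ENNReal.ofReal c1 := by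
      rw [setLIntegral_const, Real.volume_Ioc, ENNReal.ofReal_mul hc1]
    rw [e]
    apply setLIntegral_mono' measurableSet_Ioc
    intro x hx
    have hx0 : 0 < x := ha.trans hx.1
    rw [← ofReal_integral_eq_lintegral_ofReal (hint x hx)]
    · exact ENNReal.ofReal_le_ofReal (hup x hx)
    · filter_upwards [ae_restrict_mem measurableSet_Ioi] with t ht
      exact mul_nonneg (om_nonneg (by positivity) (le_of_lt ht)) (hf0 t)
  have h4 := h1.trans (h2.trans h3)
  rwa [ENNReal.ofReal_le_ofReal_iff (mul_nonneg hc1 (by linarith))] at h4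

/-- the mass of the averaged weight -/
theorem mass_low {k : ℕ} {θ : ℝ} (h0 : 0 < θ) (h1 : θ ≤ 1 / 2) {A B t : ℝ} (hA : 0 < A)
    (h2 : A ≤ t) (h3 : t ≤ B) :
    1 - 2 * Real.exp (-(k * (θ ^ 2 / 18))) ≤
      Ph k (k * t / ((1 + θ) * B)) - Ph k (k * t / ((1 - θ) * A)) := by
  have ht : 0 < t := hA.trans_le h2
  have hB : 0 < B := ht.trans_le h3
  have hk0 : (0 : ℝ) ≤ k := Nat.cast_nonneg k
  have hθ1 : 0 < 1 - θ := by linarith
  have u1 : Ph k (k * t / ((1 - θ) * A)) ≤ Real.exp (-(k * (θ ^ 2 / 18))) := by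
    set v := t / ((1 - θ) * A) with hv
    have hvv : 1 + θ ≤ v := by
      rw [hv, le_div_iff₀ (by positivity)]
      calc (1 + θ) * ((1 - θ) * A) = (1 - θ ^ 2) * A := by ring
        _ ≤ 1 * A := mul_le_mul_of_nonneg_right (by nlinarith [sq_nonneg θ]) hA.le
        _ ≤ t := by linarith
    rw [mul_div_assoc]
    refine (Ph_chernoff k (by linarith)).trans ?_
    have g1 := gam (v0 := 1 + θ) (v := v) (by linarith) hvv
    have g2 := gam_lower (v := 1 + θ) (by linarith) (by linarith)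
    rw [show (1 + θ - 1) = θ by ring] at g2
    have g3 : v * Real.exp (1 - v) ≤ Real.exp (-(θ ^ 2 / 18)) := by
      refine g1.trans (Real.exp_le_exp.2 ?_)
      have h5 : 0 ≤ θ ^ 2 / 18 := by positivity
      have h6 : θ ^ 2 / 18 * 1 ≤ (1 + θ - 1 - Real.log (1 + θ)) / (1 + θ) * v := by
        refine mul_le_mul ?_ (by linarith) (by norm_num) (h5.trans ?_)
        · rw [show (1 + θ - 1) = θ by ring]; exact g2
        · rw [show (1 + θ - 1) = θ by ring]; exact g2
      linarith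
    refine (pow_le_pow_left₀ (by positivity) g3 k).trans (le_of_eq ?_)
    rw [← Real.exp_nat_mul]
    congr 1; ring
  have u2 : 1 - Ph k (k * t / ((1 + θ) * B)) ≤ Real.exp (-(k * (θ ^ 2 / 18))) := by
    set v := t / ((1 + θ) * B) with hv
    set v1 := 1 / (1 + θ) with hv1
    have hv10 : 0 < v1 := by positivity
    have hv11 : v1 ≤ 1 := by rw [hv1, div_le_one (by linarith)]; linarith
    have hv0 : 0 < v := by positivity
    have hvv : v ≤ v1 := by
      rw [hv, hv1, div_le_div_iff₀ (by positivity) (by positivity)]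
      nlinarith
    rw [mul_div_assoc]
    refine (Ph_lower k hv0.le (hvv.trans hv11)).trans ?_
    have g2 := g_lower (θ := θ) h0 (by linarith)
    have g3 : v * Real.exp (1 - v) ≤ Real.exp (-(θ ^ 2 / 18)) := by
      have e1 : v / v1 ≤ Real.exp (v - v1) := by
        have h5 := Real.add_one_le_exp (-((v1 - v) / v1))
        have h6 : -((v1 - v) / v1) + 1 = v / v1 := by field_simp; ring
        rw [h6] at h5
        refine h5.trans (Real.exp_le_exp.2 ?_)
        have h7 : (v1 - v) * 1 ≤ (v1 - v) * (1 / v1) :=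
          mul_le_mul_of_nonneg_left (by rw [le_div_iff₀ hv10]; linarith) (by linarith)
        have h8 : (v1 - v) / v1 = (v1 - v) * (1 / v1) := by ring
        rw [h8]; linarith
      have e2 : v ≤ v1 * Real.exp (v - v1) := by
        rw [div_le_iff₀ hv10] at e1; linarith
      calc v * Real.exp (1 - v) ≤ v1 * Real.exp (v - v1) * Real.exp (1 - v) :=
            mul_le_mul_of_nonneg_right e2 (Real.exp_pos _).le
        _ = v1 * Real.exp (1 - v1) := by
            rw [mul_assoc, ← Real.exp_add]; congr 2; ring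
        _ = Real.exp (Real.log v1 + (1 - v1)) := by rw [Real.exp_add, Real.exp_log hv10]
        _ ≤ _ := by
            apply Real.exp_le_exp.2
            have : θ ^ 2 / 18 ≤ θ ^ 2 / 16 := by
              have := sq_nonneg θ
              linarith
            linarith
    refine (pow_le_pow_left₀ (by positivity) g3 k).trans (le_of_eq ?_)
    rw [← Real.exp_nat_mul]
    congr 1; ring
  linarith

/-- a window away from `0`, general form -/
theorem win1 (f : ℝ → ℝ) (hf : Continuous f) (hf0 : ∀ t, 0 ≤ f t)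
    (hA : ∃ C : ℝ, ∃ A : ℕ, ∀ t : ℝ, 0 ≤ t → f t ≤ C * (1 + t) ^ A) (c : ℝ) (hc : 0 ≤ c)
    (m : ℝ) (hm : 0 ≤ m)
    (h : ∀ᶠ T : ℝ in atTop, ∀ k : ℕ, Real.log T ^ 2 ≤ k → (k : ℝ) ≤ 4 * Real.log T ^ 2 →
      ∫ t in Set.Ioi (0 : ℝ), om k (k / T) t * f t ≤ c * Real.log T ^ m) {ε : ℝ} (hε : 0 < ε)
    (hε1 : ε ≤ 1) :
    ∀ᶠ T : ℝ in atTop, ∀ U X θ : ℝ, T ^ (9 / 10 : ℝ) ≤ U → U ≤ X → X ≤ T → 0 < θ → θ ≤ 1 / 2 →
      2 * Real.exp (-(2 * Real.log T ^ 2 * (θ ^ 2 / 18))) ≤ ε / 2 →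
      (1 - ε) * ∫ t in U..X, f t ≤
        (1 + ε) * c * Real.log T ^ m * ((X - U) + 2 * θ * X) := by
  obtain ⟨T0, hT0⟩ := eventually_atTop.1 h
  have hlog := Real.tendsto_log_atTop
  have hr : Tendsto (fun T : ℝ => (1 + Real.log 2 / Real.log T) ^ m) atTop (𝓝 1) := by
    have h1 : Tendsto (fun T : ℝ => 1 + Real.log 2 / Real.log T) atTop (𝓝 (1 + 0)) :=
      tendsto_const_nhds.add (tendsto_const_nhds.div_atTop hlog)
    rw [add_zero] at h1
    have h2 := h1.rpow_const (p := m) (Or.inl one_ne_zero)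
    rwa [Real.one_rpow] at h2
  have hp : Tendsto (fun T : ℝ => T ^ (9 / 10 : ℝ)) atTop atTop := tendsto_rpow_atTop (by norm_num)
  filter_upwards [hr.eventually_le_const (show (1 : ℝ) < 1 + ε by linarith),
    hlog.eventually_ge_atTop (max 1 (20 * Real.log 2)),
    hp.eventually_ge_atTop (2 * max 1 T0), eventually_gt_atTop 1] with T e1 e2 e3 hT1
    U X θ hU hUX hXT hθ hθ1 hexp
  have hT : 0 < T := by linarith
  set L := Real.log T with hLd
  have hL1 : 1 ≤ L := (le_max_left _ _).trans e2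
  have hL2 : 20 * Real.log 2 ≤ L := (le_max_right _ _).trans e2
  have hl2 := Real.log_pos (show (1 : ℝ) < 2 by norm_num)
  have hL10 : 10 ≤ L := by
    have := Real.log_two_gt_d9
    linarith
  have hL0 : 0 < L := by linarith
  have hU0 : 2 * max 1 T0 ≤ U := e3.trans hU
  have hUpos : 0 < U := by
    have := le_max_left 1 T0
    linarith
  have hXpos : 0 < X := by linarith
  set k : ℕ := ⌈2 * L ^ 2⌉₊ with hk
  have hk1 : 2 * L ^ 2 ≤ k := Nat.le_ceil _
  have hk2 : (k : ℝ) < 2 * L ^ 2 + 1 := Nat.ceil_lt_add_one (by positivity)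
  have hLsq : 1 ≤ L ^ 2 := one_le_pow₀ hL1
  have hk3 : 1 ≤ k := by
    have : (1 : ℝ) ≤ k := by linarith
    exact_mod_cast this
  have hkpos : (0 : ℝ) < k := by exact_mod_cast hk3
  have hmass : ∀ t ∈ Set.Ioc U X, 1 - ε ≤ Ph k (k * t / ((1 + θ) * X)) -
      Ph k (k * t / ((1 - θ) * U)) := by
    intro t ht
    refine le_trans ?_ (mass_low (k := k) hθ hθ1 hUpos ht.1.le ht.2)
    have h5 : Real.exp (-(k * (θ ^ 2 / 18))) ≤ Real.exp (-(2 * L ^ 2 * (θ ^ 2 / 18))) := by
      apply Real.exp_le_exp.2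
      have : 2 * L ^ 2 * (θ ^ 2 / 18) ≤ k * (θ ^ 2 / 18) :=
        mul_le_mul_of_nonneg_right hk1 (by positivity)
      linarith
    linarith
  have ha : 0 < (1 - θ) * U := mul_pos (by linarith) hUpos
  have hab : (1 - θ) * U ≤ (1 + θ) * X := by nlinarith
  have hx1 : ∀ x ∈ Set.Ioc ((1 - θ) * U) ((1 + θ) * X), 0 < x ∧ T0 ≤ x ∧
      17 / 20 * L ≤ Real.log x ∧ Real.log x ≤ L + Real.log 2 := by
    intro x hx
    have hx0 : 0 < x := ha.trans hx.1
    have hxU : U / 2 ≤ x := by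
      have : U / 2 ≤ (1 - θ) * U := by nlinarith
      exact this.trans hx.1.le
    refine ⟨hx0, ?_, ?_, ?_⟩
    · have := le_max_right 1 T0
      linarith
    · have h5 : Real.log (T ^ (9 / 10 : ℝ) / 2) ≤ Real.log x :=
        Real.log_le_log (by positivity) (by linarith)
      rw [Real.log_div (by positivity) (by norm_num), Real.log_rpow hT] at h5
      linarith
    · have h5 : Real.log x ≤ Real.log (T * 2) := by
        refine Real.log_le_log hx0 (hx.2.trans ?_)
        nlinarith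
      rwa [Real.log_mul hT.ne' (by norm_num)] at h5
  have hmain := up_step (f := f) hf hf0 hk3 (a := (1 - θ) * U) (b := (1 + θ) * X) (A := U) (B := X)
    (c1 := c * ((1 + ε) * L ^ m)) (ρ := 1 - ε) ha hab hUpos hUX (by positivity) (by linarith)
    (fun x hx => ?_) (fun x hx => ?_) hmass
  · refine hmain.trans ?_
    have h5 : (1 + θ) * X - (1 - θ) * U ≤ (X - U) + 2 * θ * X := by nlinarith
    calc c * ((1 + ε) * L ^ m) * ((1 + θ) * X - (1 - θ) * U) ≤
        c * ((1 + ε) * L ^ m) * ((X - U) + 2 * θ * X) :=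
          mul_le_mul_of_nonneg_left h5 (by positivity)
      _ = _ := by ring
  · obtain ⟨C, A, hCA⟩ := hA
    have hx0 := (hx1 x hx).1
    refine om_intR k (δ := k / x) (by positivity) hf ⟨C, A, fun t ht => ?_⟩
    rw [abs_of_nonneg (hf0 t)]
    exact hCA t ht
  · obtain ⟨hx0, hxT, hx2, hx3⟩ := hx1 x hx
    have hlx0 : 0 ≤ Real.log x := by linarith
    refine (hT0 x hxT k ?_ ?_).trans (mul_le_mul_of_nonneg_left ?_ hc)
    · have h5 : Real.log x ≤ 21 / 20 * L := by linarith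
      have h6 : Real.log x ^ 2 ≤ (21 / 20 * L) ^ 2 := pow_le_pow_left₀ hlx0 h5 2
      nlinarith
    · have h6 : (17 / 20 * L) ^ 2 ≤ Real.log x ^ 2 := pow_le_pow_left₀ (by positivity) hx2 2
      nlinarith
    · have h5 : Real.log x ≤ (1 + Real.log 2 / L) * L := by
        rw [add_mul, one_mul, div_mul_cancel₀ _ hL0.ne']; exact hx3
      calc Real.log x ^ m ≤ ((1 + Real.log 2 / L) * L) ^ m := Real.rpow_le_rpow hlx0 h5 hm
        _ = (1 + Real.log 2 / L) ^ m * L ^ m :=
            Real.mul_rpow (add_nonneg zero_le_one (div_nonneg hl2.le hL0.le)) hL0.le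
        _ ≤ (1 + ε) * L ^ m := mul_le_mul_of_nonneg_right e1 (by positivity)

/-- crude bound near `0` -/
theorem win0 (f : ℝ → ℝ) (hf : Continuous f) (hf0 : ∀ t, 0 ≤ f t)
    (hA : ∃ C : ℝ, ∃ A : ℕ, ∀ t : ℝ, 0 ≤ t → f t ≤ C * (1 + t) ^ A) (c : ℝ) (hc : 0 ≤ c)
    (m : ℝ) (hm : 0 ≤ m)
    (h : ∀ᶠ T : ℝ in atTop, ∀ k : ℕ, Real.log T ^ 2 ≤ k → (k : ℝ) ≤ 4 * Real.log T ^ 2 →
      ∫ t in Set.Ioi (0 : ℝ), om k (k / T) t * f t ≤ c * Real.log T ^ m) :
    ∃ K : ℝ, 0 ≤ K ∧ ∀ᶠ Y : ℝ in atTop, ∫ t in (0 : ℝ)..Y, f t ≤ K * Y * Real.log Y ^ m := by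
  have h1 := win1 f hf hf0 hA c hc m hm h (ε := 1 / 2) (by norm_num) (by norm_num)
  have hlog := Real.tendsto_log_atTop
  have h2 : ∀ᶠ T : ℝ in atTop, 2 * Real.exp (-(2 * Real.log T ^ 2 * ((1 / 2 : ℝ) ^ 2 / 18))) ≤
      (1 / 2) / 2 := by
    have : Tendsto (fun T : ℝ => 2 * Real.exp (-(2 * Real.log T ^ 2 * ((1 / 2 : ℝ) ^ 2 / 18))))
        atTop (𝓝 (2 * 0)) := by
      refine Tendsto.const_mul 2 (Real.tendsto_exp_neg_atTop_nhds_zero.comp ?_)
      have := (tendsto_pow_atTop (n := 2) (by norm_num)).comp hlog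
      exact (this.const_mul_atTop (by norm_num : (0:ℝ) < 2)).atTop_mul_const (by norm_num)
    rw [mul_zero] at this
    exact this.eventually_le_const (by norm_num)
  have h3 : ∀ᶠ T : ℝ in atTop, T ^ (9 / 10 : ℝ) ≤ T / 2 := by
    filter_upwards [(tendsto_rpow_atTop (show (0 : ℝ) < 1 / 10 by norm_num)).eventually_ge_atTop 2,
      eventually_gt_atTop 0] with T hT hT0
    have e : T = T ^ (9 / 10 : ℝ) * T ^ (1 / 10 : ℝ) := by
      rw [← Real.rpow_add hT0]; norm_num
    have h5 : T ^ (9 / 10 : ℝ) * 2 ≤ T ^ (9 / 10 : ℝ) * T ^ (1 / 10 : ℝ) :=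
      mul_le_mul_of_nonneg_left hT (by positivity)
    linarith
  obtain ⟨Y0, hY0⟩ := eventually_atTop.1 ((h1.and h2).and (h3.and (eventually_ge_atTop (Real.exp 1))))
  have hstep : ∀ Y : ℝ, Y0 ≤ Y → ∫ t in (Y / 2)..Y, f t ≤ 6 * c * Y * Real.log Y ^ m := by
    intro Y hY
    obtain ⟨⟨a1, a2⟩, a3, a4⟩ := hY0 Y hY
    have hYpos : 0 < Y := (Real.exp_pos 1).trans_le a4
    have hl : 0 ≤ Real.log Y := Real.log_nonneg (by
      have := Real.add_one_le_exp 1
      linarith)
    have a5 := a1 (Y / 2) Y (1 / 2) a3 (by linarith) le_rfl (by norm_num) le_rfl a2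
    have e : (1 + 1 / 2) * c * Real.log Y ^ m * (Y - Y / 2 + 2 * (1 / 2) * Y) =
        (1 - 1 / 2) * (9 / 2 * c * Y * Real.log Y ^ m) := by ring
    rw [e] at a5
    have a6 := le_of_mul_le_mul_left a5 (by norm_num)
    refine a6.trans ?_
    have : 0 ≤ c * Y * Real.log Y ^ m := by positivity
    nlinarith
  set Y1 := max Y0 (Real.exp 1) with hY1
  have hY1e : Real.exp 1 ≤ Y1 := le_max_right _ _
  have hY1pos : 0 < Y1 := (Real.exp_pos 1).trans_le hY1e
  set K0 := ∫ t in (0 : ℝ)..(2 * Y1), f t with hK0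
  have hK0n : 0 ≤ K0 := intervalIntegral.integral_nonneg (by linarith) fun t _ => hf0 t
  have hind : ∀ n : ℕ, ∀ Y : ℝ, Y1 ≤ Y → Y ≤ 2 ^ n * Y1 →
      ∫ t in (0 : ℝ)..Y, f t ≤ K0 + 12 * c * Y * Real.log Y ^ m := by
    intro n
    induction n with
    | zero =>
      intro Y h1 h2
      rw [pow_zero, one_mul] at h2
      have hY : Y = Y1 := le_antisymm h2 h1
      have hl : 0 ≤ Real.log Y := Real.log_nonneg (by
        have := Real.add_one_le_exp 1
        linarith)
      have hYp : 0 < Y := by linarith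
      have h3 : ∫ t in (0 : ℝ)..Y, f t ≤ K0 := by
        rw [hK0, ← intervalIntegral.integral_add_adjacent_intervals (hf.intervalIntegrable 0 Y)
          (hf.intervalIntegrable Y (2 * Y1))]
        have := intervalIntegral.integral_nonneg (μ := volume) (show Y ≤ 2 * Y1 by linarith)
          fun t _ => hf0 t
        linarith
      have : 0 ≤ c * Y * Real.log Y ^ m := by positivity
      nlinarith
    | succ n ih =>
      intro Y h1 h2
      have hYp : 0 < Y := by linarith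
      have hl : 0 ≤ Real.log Y := Real.log_nonneg (by
        have := Real.add_one_le_exp 1
        linarith)
      have hpos : 0 ≤ c * Y * Real.log Y ^ m := by positivity
      by_cases hc2 : Y ≤ 2 * Y1
      · have h3 : ∫ t in (0 : ℝ)..Y, f t ≤ K0 := by
          rw [hK0, ← intervalIntegral.integral_add_adjacent_intervals (hf.intervalIntegrable 0 Y)
            (hf.intervalIntegrable Y (2 * Y1))]
          have := intervalIntegral.integral_nonneg (μ := volume) (show Y ≤ 2 * Y1 by linarith)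
            fun t _ => hf0 t
          linarith
        nlinarith
      · push Not at hc2
        have h3 := ih (Y / 2) (by linarith) (by
          rw [pow_succ] at h2
          linarith)
        have h4 := hstep Y ((le_max_left _ _).trans h1)
        have h5 := intervalIntegral.integral_add_adjacent_intervals (μ := volume)
          (hf.intervalIntegrable 0 (Y / 2)) (hf.intervalIntegrable (Y / 2) Y)
        have h6 : Real.log (Y / 2) ^ m ≤ Real.log Y ^ m := by
          refine Real.rpow_le_rpow (Real.log_nonneg ?_) (Real.log_le_log (by positivity) (by linarith)) hm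
          have := Real.add_one_le_exp 1
          linarith
        have h7 : 12 * c * (Y / 2) * Real.log (Y / 2) ^ m ≤ 12 * c * (Y / 2) * Real.log Y ^ m :=
          mul_le_mul_of_nonneg_left h6 (by positivity)
        rw [← h5]
        linarith
  refine ⟨K0 + 12 * c, by positivity, ?_⟩
  filter_upwards [eventually_ge_atTop Y1] with Y hY
  obtain ⟨n, hn⟩ := pow_unbounded_of_one_lt (Y / Y1) (show (1 : ℝ) < 2 by norm_num)
  rw [div_lt_iff₀ hY1pos] at hn
  have h5 := hind n Y hY hn.le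
  have hYp : 0 < Y := by linarith
  have hl : 1 ≤ Real.log Y := by
    rw [Real.le_log_iff_exp_le hYp]; linarith
  have h6 : 1 ≤ Real.log Y ^ m := Real.one_le_rpow hl hm
  have h7 : 1 ≤ Y := by
    have := Real.add_one_le_exp 1
    linarith
  have h8 : 1 ≤ Y * Real.log Y ^ m := by nlinarith
  have h9 : K0 * 1 ≤ K0 * (Y * Real.log Y ^ m) := mul_le_mul_of_nonneg_left h8 hK0n
  calc _ ≤ K0 + 12 * c * Y * Real.log Y ^ m := h5
    _ ≤ K0 * (Y * Real.log Y ^ m) + 12 * c * Y * Real.log Y ^ m := by linarith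
    _ = _ := by ring

/-- upper bounds on all intervals that are not too short -/
theorem upper_window (f : ℝ → ℝ) (hf : Continuous f) (hf0 : ∀ t, 0 ≤ f t)
    (hA : ∃ C : ℝ, ∃ A : ℕ, ∀ t : ℝ, 0 ≤ t → f t ≤ C * (1 + t) ^ A) (c : ℝ) (hc : 0 ≤ c)
    (m : ℝ) (hm : 0 ≤ m)
    (h : ∀ᶠ T : ℝ in atTop, ∀ k : ℕ, Real.log T ^ 2 ≤ k → (k : ℝ) ≤ 4 * Real.log T ^ 2 →
      ∫ t in Set.Ioi (0 : ℝ), om k (k / T) t * f t ≤ c * Real.log T ^ m)
    (α : ℝ) (hα : α < 1) {c' : ℝ} (hc' : c < c') :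
    ∀ᶠ T : ℝ in atTop, ∀ U H : ℝ, 0 ≤ U → U + H ≤ T → T / Real.log T ^ α ≤ H →
      ∫ t in U..(U + H), f t ≤ c' * H * Real.log T ^ m := by
  obtain ⟨K, hK0, hK⟩ := win0 f hf hf0 hA c hc m hm h
  obtain ⟨β0, hβ01, hβ02⟩ := exists_between (show max α 0 < 1 by
    rw [max_lt_iff]; exact ⟨hα, by norm_num⟩)
  have hαβ : α < β0 := (le_max_left _ _).trans_lt hβ01
  have hβ0 : 0 < β0 := (le_max_right _ _).trans_lt hβ01
  -- choice of `ε`
  obtain ⟨ε, hε0, hε1, hε2⟩ : ∃ ε : ℝ, 0 < ε ∧ ε ≤ 1 / 2 ∧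
      (1 + ε) * c * (1 + ε) / (1 - ε) + K * ε < c' := by
    have hcont : ContinuousAt (fun ε : ℝ => (1 + ε) * c * (1 + ε) / (1 - ε) + K * ε) 0 := by
      refine ContinuousAt.add (ContinuousAt.div (by fun_prop) (by fun_prop) (by norm_num)) (by fun_prop)
    have h0 : (fun ε : ℝ => (1 + ε) * c * (1 + ε) / (1 - ε) + K * ε) 0 < c' := by
      simpa using hc'
    have h1 : ∀ᶠ ε in 𝓝[>] (0:ℝ), (1 + ε) * c * (1 + ε) / (1 - ε) + K * ε < c' :=
      (hcont.eventually (gt_mem_nhds h0)).filter_mono nhdsWithin_le_nhds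
    have h2 : ∀ᶠ ε : ℝ in 𝓝[>] (0:ℝ), ε ∈ Set.Ioo (0 : ℝ) (1 / 2) := Ioo_mem_nhdsGT (by norm_num)
    obtain ⟨ε, h3, h4⟩ := (h1.and h2).exists
    exact ⟨ε, h4.1, h4.2.le, h3⟩
  have hw := win1 f hf hf0 hA c hc m hm h (ε := ε) hε0 (by linarith)
  have hlog := Real.tendsto_log_atTop
  -- the size of the relative width
  set g : ℝ := ε / 4 with hg
  have ev1 : ∀ᶠ T : ℝ in atTop,
      2 * Real.exp (-(2 * Real.log T ^ 2 * ((g / Real.log T ^ β0) ^ 2 / 18))) ≤ ε / 2 := by
    have h1 : Tendsto (fun T : ℝ => 2 * Real.exp (-(g ^ 2 / 9 * Real.log T ^ (2 - 2 * β0))))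
        atTop (𝓝 (2 * 0)) := by
      refine Tendsto.const_mul 2 (Real.tendsto_exp_neg_atTop_nhds_zero.comp ?_)
      exact ((tendsto_rpow_atTop (show 0 < 2 - 2 * β0 by linarith)).comp hlog).const_mul_atTop
        (by positivity)
    rw [mul_zero] at h1
    filter_upwards [h1.eventually_le_const (show 0 < ε / 2 by linarith), eventually_gt_atTop 1]
      with T h2 hT
    have hL : 0 < Real.log T := Real.log_pos hT
    have e : 2 * Real.log T ^ 2 * ((g / Real.log T ^ β0) ^ 2 / 18) =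
        g ^ 2 / 9 * Real.log T ^ (2 - 2 * β0) := by
      have e1 : Real.log T ^ (2 - 2 * β0) = Real.log T ^ 2 / (Real.log T ^ β0) ^ 2 := by
        rw [Real.rpow_sub hL, mul_comm 2 β0, Real.rpow_mul hL.le]
        norm_num
      have : 0 < Real.log T ^ β0 := by positivity
      rw [e1]
      field_simp
      ring
    rw [e]
    exact h2
  have ev2 : ∀ᶠ T : ℝ in atTop, 1 ≤ ε / 2 * Real.log T ^ (β0 - α) :=
    (((tendsto_rpow_atTop (show 0 < β0 - α by linarith)).comp hlog).const_mul_atTop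
      (show 0 < ε / 2 by linarith)).eventually_ge_atTop 1
  have ev3 : ∀ᶠ T : ℝ in atTop, T ^ (9 / 10 : ℝ) ≤ ε * (T / Real.log T ^ α) := by
    have h1 := (isLittleO_log_rpow_rpow_atTop (max α 0) (show (0:ℝ) < 1 / 10 by norm_num)).bound hε0
    filter_upwards [h1, eventually_gt_atTop 1, hlog.eventually_ge_atTop 1] with T h1 hT hL1
    have hT0 : 0 < T := by linarith
    have hL : 0 < Real.log T := by linarith
    rw [Real.norm_of_nonneg (by positivity), Real.norm_of_nonneg (by positivity)] at h1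
    have h2 : Real.log T ^ α ≤ ε * T ^ (1 / 10 : ℝ) :=
      (Real.rpow_le_rpow_of_exponent_le hL1 (le_max_left _ _)).trans h1
    rw [← mul_div_assoc, le_div_iff₀ (by positivity)]
    calc T ^ (9 / 10 : ℝ) * Real.log T ^ α ≤ T ^ (9 / 10 : ℝ) * (ε * T ^ (1 / 10 : ℝ)) := by gcongr
      _ = ε * (T ^ (9 / 10 : ℝ) * T ^ (1 / 10 : ℝ)) := by ring
      _ = ε * T := by rw [← Real.rpow_add hT0]; norm_num
  obtain ⟨Y0, hY0⟩ := eventually_atTop.1 hK
  have ev4 : ∀ᶠ T : ℝ in atTop, Y0 ≤ T ^ (9 / 10 : ℝ) :=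
    (tendsto_rpow_atTop (by norm_num)).eventually_ge_atTop _
  filter_upwards [hw, ev1, ev2, ev3, ev4, eventually_gt_atTop 1, hlog.eventually_ge_atTop 1]
    with T hw e1 e2 e3 e4 hT1 hL1 U H hU hUH hH
  have hT0 : 0 < T := by linarith
  set L := Real.log T with hLd
  have hL : 0 < L := by linarith
  have hLα : 0 < L ^ α := by positivity
  have hLβ : 0 < L ^ β0 := by positivity
  have hLm : 0 < L ^ m := by positivity
  have hH0 : 0 < H := lt_of_lt_of_le (by positivity) hH
  have hHT : H ≤ T := by linarith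
  -- the main estimate
  have key : ∀ V X : ℝ, ε * H ≤ V → V ≤ X → X ≤ T → (1 - ε) * H ≤ X - V → X - V ≤ H →
      ∫ t in V..X, f t ≤ (1 + ε) * c * (1 + ε) / (1 - ε) * (H * L ^ m) := by
    intro V X h1 h2 h3 h4 h5
    have hX0 : 0 < X := by nlinarith
    set D := X - V with hD
    have hD0 : 0 < D := lt_of_lt_of_le (by nlinarith) h4
    set θ := ε * D / (2 * X) with hθ
    have hθ0 : 0 < θ := by positivity
    have hDX : D ≤ X := by
      have : 0 < V := lt_of_lt_of_le (by positivity) h1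
      rw [hD]; linarith
    have hθ1 : θ ≤ 1 / 2 := by
      rw [hθ, div_le_iff₀ (by positivity)]
      nlinarith
    have hθ2 : g / L ^ β0 ≤ θ := by
      rw [hθ, hg, div_div, div_le_div_iff₀ (by positivity) (by positivity)]
      have h6 : T / L ^ α ≤ 2 * D := by nlinarith
      rw [div_le_iff₀ hLα] at h6
      have h7 : L ^ α ≤ L ^ β0 := Real.rpow_le_rpow_of_exponent_le hL1 hαβ.le
      have h8 : X ≤ 2 * D * L ^ β0 := by
        calc X ≤ T := h3
          _ ≤ 2 * D * L ^ α := h6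
          _ ≤ 2 * D * L ^ β0 := by gcongr
      nlinarith
    have h9 := hw V X θ (by
      have : ε * (T / L ^ α) ≤ ε * H := mul_le_mul_of_nonneg_left hH hε0.le
      linarith) h2 h3 hθ0 hθ1 (by
      refine le_trans ?_ e1
      refine mul_le_mul_of_nonneg_left (Real.exp_le_exp.2 ?_) (by norm_num)
      have h10 : (g / L ^ β0) ^ 2 ≤ θ ^ 2 := pow_le_pow_left₀ (by positivity) hθ2 2
      have h11 : 2 * L ^ 2 * ((g / L ^ β0) ^ 2 / 18) ≤ 2 * L ^ 2 * (θ ^ 2 / 18) := by gcongr
      linarith)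
    have e5 : X - V + 2 * θ * X = (1 + ε) * D := by
      rw [hθ, ← hD]
      field_simp
    rw [e5] at h9
    have h10 : (1 + ε) * c * L ^ m * ((1 + ε) * D) ≤ (1 + ε) * c * L ^ m * ((1 + ε) * H) := by
      gcongr
    rw [div_mul_eq_mul_div, le_div_iff₀ (by linarith)]
    calc (∫ t in V..X, f t) * (1 - ε) = (1 - ε) * ∫ t in V..X, f t := mul_comm _ _
      _ ≤ (1 + ε) * c * L ^ m * ((1 + ε) * H) := h9.trans h10
      _ = _ := by ring
  have hfin : ((1 + ε) * c * (1 + ε) / (1 - ε) + K * ε) * (H * L ^ m) ≤ c' * H * L ^ m := by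
    rw [mul_assoc c']
    exact mul_le_mul_of_nonneg_right hε2.le (by positivity)
  rw [add_mul] at hfin
  have hKε : 0 ≤ K * ε * (H * L ^ m) := by positivity
  by_cases hc3 : ε * H ≤ U
  · have h1 := key U (U + H) hc3 (by linarith) hUH (by nlinarith) (by linarith)
    linarith
  · push Not at hc3
    have hle : ε * H ≤ U + H := by nlinarith
    have h1 := key (ε * H) (U + H) le_rfl hle hUH (by nlinarith) (by linarith)
    have h2 : ∫ t in (0 : ℝ)..(ε * H), f t ≤ K * ε * (H * L ^ m) := by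
      have h3 : T ^ (9 / 10 : ℝ) ≤ ε * H :=
        e3.trans (mul_le_mul_of_nonneg_left hH hε0.le)
      have h4 := hY0 (ε * H) (e4.trans h3)
      have h5 : 1 ≤ ε * H := (Real.one_le_rpow hT1.le (by norm_num)).trans h3
      have h6 : Real.log (ε * H) ^ m ≤ L ^ m := by
        refine Real.rpow_le_rpow (Real.log_nonneg h5) (Real.log_le_log (by linarith) ?_) hm
        nlinarith
      calc _ ≤ K * (ε * H) * Real.log (ε * H) ^ m := h4
        _ ≤ K * (ε * H) * L ^ m := by gcongr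
        _ = _ := by ring
    have h3 : ∫ t in U..(U + H), f t ≤ (∫ t in (0 : ℝ)..(ε * H), f t) + ∫ t in (ε * H)..(U + H), f t := by
      rw [intervalIntegral.integral_add_adjacent_intervals (hf.intervalIntegrable _ _)
        (hf.intervalIntegrable _ _)]
      have h4 := intervalIntegral.integral_add_adjacent_intervals (μ := volume)
        (hf.intervalIntegrable 0 U) (hf.intervalIntegrable U (U + H))
      have h5 := intervalIntegral.integral_nonneg (μ := volume) hU fun t _ => hf0 t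
      linarith
    linarith

end

end Pool.Agent.L7h20.TM3
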