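import Pool.Agent.L7h20.TM3.Ev
import Pool.Agent.H306R2.SM.Asm6

set_option autoImplicit false

/-! Asymptotic inequalities for the weighted means. -/

namespace Pool.Agent.L7h20.TM3

open Filter Topology MeasureTheory Complex
open Pool.Agent.H306R2 Pool.Agent.H306R2.SM
open Pool.Agent.H262R4.TM (P_TSM2 Rng Ck)
open Pool.Agent.W184

noncomputable section

lemma base_ev : ∀ᶠ T : ℝ in atTop, ∀ k : ℕ, Rng T k → 1 < T ∧ 1 < Real.log T ∧ 1 ≤ k := by
  filter_upwards [eventually_gt_atTop (Real.exp 1)] with T hTe k hk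
  have hT : 1 < T := lt_trans (by
    have := Real.add_one_lt_exp (show (1 : ℝ) ≠ 0 by norm_num)
    linarith) hTe
  have hT0 : 0 < T := by linarith
  have hL1 : 1 < Real.log T := by
    rw [Real.lt_log_iff_exp_lt hT0]; exact hTe
  refine ⟨hT, hL1, ?_⟩
  have : (1 : ℝ) ≤ k := by
    refine le_trans ?_ hk.1
    nlinarith
  exact_mod_cast this

lemma dsmall (δ : ℝ) {c : ℝ} (hc : 0 < c) : ∀ᶠ T : ℝ in atTop, |δ / Real.log T| ≤ c := by
  have h := (delta_tendsto δ).abs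
  rw [abs_zero] at h
  exact h.eventually_le_const hc

theorem m1_ev : ∀ᶠ T : ℝ in atTop, ∀ k : ℕ, Rng T k → m1 k T ≤ T ^ 7 := by
  filter_upwards [om_tail, base_ev, eventually_ge_atTop 1000] with T h1 h2 h3 k hk
  obtain ⟨hT1, hL, hk1⟩ := h2 k hk
  have hT0 : 0 < T := by linarith
  have hk0 : (0 : ℝ) < k := by exact_mod_cast hk1
  have hδ : 0 < (k : ℝ) / T := by positivity
  have hi := om_poly k 5 hδ
  have e1 : m1 k T ≤ 576 * ∫ t in Set.Ioi (0 : ℝ), om k (k / T) t * (1 + t) ^ 5 := by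
    unfold m1
    rw [← integral_const_mul]
    refine setIntegral_mono_on (m1_int hT0 hk1) (hi.const_mul _) measurableSet_Ioi fun t ht => ?_
    have ht0 : (0 : ℝ) ≤ t := le_of_lt ht
    have h5 := zeta_cl_bd ht0
    have h6 := Pool.Agent.H965R2.SMT1.om_nonneg (k := k) hδ.le ht0
    unfold wt
    calc om k (k / T) t * ‖riemannZeta (cl t)‖ ^ 2 * (1 + t) ≤
          om k (k / T) t * (576 * (1 + t) ^ 4) * (1 + t) := by gcongr
      _ = _ := by ring
  have e2 : ∫ t in Set.Ioi (0 : ℝ), om k (k / T) t * (1 + t) ^ 5 ≤ (1 + 3 * T) ^ 5 + 1 := by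
    have h3T : (0 : ℝ) ≤ 3 * T := by positivity
    rw [← Set.Ioc_union_Ioi_eq_Ioi h3T, setIntegral_union (Set.Ioc_disjoint_Ioi le_rfl)
      measurableSet_Ioi (hi.mono_set Set.Ioc_subset_Ioi_self) (hi.mono_set (Set.Ioi_subset_Ioi h3T))]
    refine add_le_add ?_ ?_
    · have hm := om_mass k hδ
      have i0 : IntegrableOn (fun t => om k (k / T) t) (Set.Ioi 0) := by
        have := om_poly k 0 hδ
        simpa using this
      calc ∫ t in Set.Ioc 0 (3 * T), om k (k / T) t * (1 + t) ^ 5 ≤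
            ∫ t in Set.Ioc 0 (3 * T), om k (k / T) t * (1 + 3 * T) ^ 5 := by
            refine setIntegral_mono_on (hi.mono_set Set.Ioc_subset_Ioi_self)
              ((i0.mono_set Set.Ioc_subset_Ioi_self).mul_const _) measurableSet_Ioc fun t ht => ?_
            have h6 := Pool.Agent.H965R2.SMT1.om_nonneg (k := k) hδ.le ht.1.le
            have h7 : (1 + t) ^ 5 ≤ (1 + 3 * T) ^ 5 :=
              pow_le_pow_left₀ (by linarith [ht.1]) (by linarith [ht.2]) 5
            exact mul_le_mul_of_nonneg_left h7 h6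
        _ = (∫ t in Set.Ioc 0 (3 * T), om k (k / T) t) * (1 + 3 * T) ^ 5 := integral_mul_const _ _
        _ ≤ 1 * (1 + 3 * T) ^ 5 := by
            refine mul_le_mul_of_nonneg_right ?_ (by positivity)
            rw [← hm]
            refine setIntegral_mono_set i0 ?_ (Eventually.of_forall fun t ht => ht.1)
            exact (ae_restrict_iff' measurableSet_Ioi).2 (Eventually.of_forall fun t ht =>
              Pool.Agent.H965R2.SMT1.om_nonneg hδ.le (le_of_lt ht))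
        _ = _ := one_mul _
    · refine le_trans ?_ (h1 k hk)
      refine setIntegral_mono_on (hi.mono_set (Set.Ioi_subset_Ioi h3T))
        ((om_poly k 6 hδ).mono_set (Set.Ioi_subset_Ioi h3T)) measurableSet_Ioi fun t ht => ?_
      have ht3 : 3 * T < t := ht
      have ht0 : 0 ≤ t := by linarith
      have h6 := Pool.Agent.H965R2.SMT1.om_nonneg (k := k) hδ.le ht0
      exact mul_le_mul_of_nonneg_left (pow_le_pow_right₀ (by linarith) (by norm_num)) h6
  have e3 : (1 + 3 * T) ^ 5 ≤ (4 * T) ^ 5 := pow_le_pow_left₀ (by positivity) (by linarith) 5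
  have e4 : 1 ≤ T ^ 5 := one_le_pow₀ hT1.le
  have e5 : (1000 : ℝ) * 1000 ≤ T ^ 2 := by nlinarith
  calc m1 k T ≤ 576 * ((4 * T) ^ 5 + T ^ 5) := by linarith
    _ = 590400 * T ^ 5 := by ring
    _ ≤ T ^ 2 * T ^ 5 := mul_le_mul_of_nonneg_right (by linarith) (by positivity)
    _ = T ^ 7 := by ring

lemma Gr_one : Gr (fun _ => (1 : ℝ)) 1 where
  cont := continuous_const
  nn _ := zero_le_one
  bd x := by have := abs_nonneg x; linarith

lemma Gr_zn {σ p : ℝ} (hp : 0 < p) (hp1 : p ≤ 1) (h1 : 3 / 8 ≤ σ) (h2 : σ ≤ 3 / 4) :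
    Gr (fun x => zn σ x ^ p) 12 where
  cont := zp_cont (by linarith) hp
  nn _ := Real.rpow_nonneg (zn_nonneg _ _) _
  bd x := zp_le hp hp1 h1 h2

/-- the second moment -/
theorem EV_one (hTSM : P_TSM2) : ∀ᶠ T : ℝ in atTop, ∀ k : ℕ, Rng T k → ∀ v : ℝ,
    EV k T (fun _ => 1) v ≤ 2 * Real.log T := by
  obtain ⟨η, hη, hT⟩ := hTSM 0 (by norm_num)
  have hsm : ∀ᶠ T : ℝ in atTop, T ^ (-η) ≤ 1 :=
    (tendsto_rpow_neg_atTop hη).eventually_le_const (by norm_num)
  filter_upwards [hT, base_ev, hsm, Real.tendsto_log_atTop.eventually_ge_atTop 7] with T h1 h2 h3 h4 k hk v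
  obtain ⟨hT1, hL, hk1⟩ := h2 k hk
  have hT0 : 0 < T := by linarith
  have h5 := h1 k hk 1 (by simp) (fun _ => 1) (fun _ => by simp)
  simp only [Finset.Icc_self, Finset.sum_singleton, Nat.cast_one, Complex.one_cpow, mul_one, norm_one,
    one_pow, map_one, Nat.lcm_self, Nat.gcd_self, div_one, one_mul] at h5
  have h6 : |Real.log (Yf k T) + Ck k - Real.log T| ≤ 6 := Pool.Agent.H989R2.EM3.bk_bound hk1 hT0
  unfold EV wt
  simp only [mul_one]
  rw [← Complex.ofReal_sub, Complex.norm_real, Real.norm_eq_abs] at h5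
  have h7 := (abs_le.1 h5).2
  have h8 := (abs_le.1 h6).2
  linarith

/-- the functional equation -/
theorem EV_fe {p : ℝ} (hp : 0 < p) (hp1 : p ≤ 1) {δ : ℝ} (hδ : 0 ≤ δ) {η : ℝ} (hη : 0 < η) :
    ∀ᶠ T : ℝ in atTop, ∀ k : ℕ, Rng T k → ∀ v : ℝ, |v| ≤ T →
      EV k T (fun x => zn (1 / 2 - δ / Real.log T) x ^ p) v ≤
        (Real.exp (p * δ) + η) * (EV k T (fun x => zn (1 / 2 + δ / Real.log T) x ^ p) v +
          2000 * EV k T (fun _ => 1) v) + 13824 := by
  have hF : Tendsto (fun T : ℝ => Real.exp (p * δ + p * δ * Real.log 4 / Real.log T)) atTop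
      (𝓝 (Real.exp (p * δ + 0))) :=
    (Real.continuous_exp.tendsto _).comp (tendsto_const_nhds.add
      (tendsto_const_nhds.div_atTop Real.tendsto_log_atTop))
  rw [add_zero] at hF
  filter_upwards [om_tail, base_ev, hF.eventually_le_const (show Real.exp (p * δ) <
    Real.exp (p * δ) + η by linarith),
    dsmall δ (show (0:ℝ) < 1/8 by norm_num)] with T h1 h2 h3 h4 k hk v hv
  obtain ⟨hT1, hL, hk1⟩ := h2 k hk
  have hT0 : 0 < T := by linarith
  have hL0 : 0 < Real.log T := by linarith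
  have hk0 : (0 : ℝ) < k := by exact_mod_cast hk1
  have hδk : 0 < (k : ℝ) / T := by positivity
  set Δ := δ / Real.log T with hΔ
  have hΔ0 : 0 ≤ Δ := by positivity
  have hΔ1 : Δ ≤ 1 / 8 := (abs_le.1 h4).2
  have hc : (4 * T) ^ (p * Δ) ≤ Real.exp (p * δ) + η := by
    refine le_trans (le_of_eq ?_) h3
    rw [Real.rpow_def_of_pos (by positivity), Real.log_mul (by norm_num) hT0.ne']
    congr 1
    rw [hΔ]
    field_simp
    ring
  have hc0 : 0 ≤ (4 * T) ^ (p * Δ) := by positivity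
  have g1 := Gr_zn (σ := 1 / 2 - Δ) hp hp1 (by linarith) (by linarith)
  have g2 := Gr_zn (σ := 1 / 2 + Δ) hp hp1 (by linarith) (by linarith)
  have j1 := wt_int hT0 hk1 g1 v
  have j2 := wt_int hT0 hk1 g2 v
  have j3 := wt_int hT0 hk1 Gr_one v
  have j4 := (om_poly k 6 hδk).const_mul 13824
  have j5 : IntegrableOn ((Set.Ioi (3 * T)).indicator
      (fun t => 13824 * (om k (k / T) t * (1 + t) ^ 6))) (Set.Ioi 0) := j4.indicator measurableSet_Ioi
  have j6 : IntegrableOn (fun t => (4 * T) ^ (p * Δ) * (wt k T t * zn (1 / 2 + Δ) (t + v) ^ p +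
      2000 * (wt k T t * 1))) (Set.Ioi 0) := (j2.add (j3.const_mul 2000)).const_mul _
  have key : EV k T (fun x => zn (1 / 2 - Δ) x ^ p) v ≤ (4 * T) ^ (p * Δ) *
      (EV k T (fun x => zn (1 / 2 + Δ) x ^ p) v + 2000 * EV k T (fun _ => 1) v) +
      13824 * ∫ t in Set.Ioi (3 * T), om k (k / T) t * (1 + t) ^ 6 := by
    have e1 : (4 * T) ^ (p * Δ) *
        (EV k T (fun x => zn (1 / 2 + Δ) x ^ p) v + 2000 * EV k T (fun _ => 1) v) =
        ∫ t in Set.Ioi (0 : ℝ), (4 * T) ^ (p * Δ) * (wt k T t * zn (1 / 2 + Δ) (t + v) ^ p +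
          2000 * (wt k T t * 1)) := by
      rw [integral_const_mul]
      congr 1
      unfold EV
      rw [← integral_const_mul, ← integral_add j2 (j3.const_mul 2000)]
    have e2 : 13824 * ∫ t in Set.Ioi (3 * T), om k (k / T) t * (1 + t) ^ 6 =
        ∫ t in Set.Ioi (0 : ℝ), (Set.Ioi (3 * T)).indicator
          (fun t => 13824 * (om k (k / T) t * (1 + t) ^ 6)) t := by
      rw [setIntegral_indicator measurableSet_Ioi, ← integral_const_mul]
      congr 2
      rw [Set.Ioi_inter_Ioi, max_eq_right (by positivity)]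
    rw [e1, e2, ← integral_add j6 j5]
    unfold EV
    refine setIntegral_mono_on j1 (j6.add j5) measurableSet_Ioi fun t ht => ?_
    have ht0 : (0 : ℝ) ≤ t := le_of_lt ht
    have hw := wt_nn (k := k) hT0 ht0
    have hz := zn_nonneg (1 / 2 + Δ) (t + v)
    have hv' := abs_le.1 hv
    by_cases h3T : 3 * T < t
    · rw [Set.indicator_of_mem (show t ∈ Set.Ioi (3 * T) from h3T)]
      have a1 := g1.bd (t + v)
      have a2 : 1 + |t + v| ≤ 2 * (1 + t) := by
        rw [abs_of_nonneg (by linarith)]; linarith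
      have a3 := zeta_cl_bd ht0
      have a4 := Pool.Agent.H965R2.SMT1.om_nonneg (k := k) hδk.le ht0
      have a5 : (1 + t) ^ 5 ≤ (1 + t) ^ 6 := pow_le_pow_right₀ (by linarith) (by norm_num)
      have a6 : wt k T t * zn (1 / 2 - Δ) (t + v) ^ p ≤ 13824 * (om k (k / T) t * (1 + t) ^ 6) := by
        calc wt k T t * zn (1 / 2 - Δ) (t + v) ^ p ≤
              (om k (k / T) t * (576 * (1 + t) ^ 4)) * (12 * (2 * (1 + t))) := by
              unfold wt
              refine mul_le_mul (mul_le_mul_of_nonneg_left a3 a4)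
                (a1.trans (mul_le_mul_of_nonneg_left a2 (by norm_num))) (g1.nn _) (by positivity)
          _ = 13824 * (om k (k / T) t * (1 + t) ^ 5) := by ring
          _ ≤ _ := by gcongr
      have a7 : 0 ≤ (4 * T) ^ (p * Δ) * (wt k T t * zn (1 / 2 + Δ) (t + v) ^ p +
          2000 * (wt k T t * 1)) := by positivity
      linarith
    · rw [Set.indicator_of_notMem (show t ∉ Set.Ioi (3 * T) from h3T), add_zero]
      push Not at h3T
      have h8 := fe_p (τ := t + v) (X := 4 * T) hp hp1 hΔ0 hΔ1 (by linarith) (by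
        rw [abs_le]; constructor <;> linarith [hv'.1, hv'.2])
      calc wt k T t * zn (1 / 2 - Δ) (t + v) ^ p ≤
            wt k T t * ((4 * T) ^ (p * Δ) * (zn (1 / 2 + Δ) (t + v) ^ p + 2000)) :=
            mul_le_mul_of_nonneg_left h8 hw
        _ = _ := by ring
  refine key.trans ?_
  have k1 : 0 ≤ EV k T (fun x => zn (1 / 2 + Δ) x ^ p) v := EV_nn hT0 g2 v
  have k2 : 0 ≤ EV k T (fun _ => 1) v := EV_nn hT0 Gr_one v
  have k3 := h1 k hk
  have k4 : (4 * T) ^ (p * Δ) *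
      (EV k T (fun x => zn (1 / 2 + Δ) x ^ p) v + 2000 * EV k T (fun _ => 1) v) ≤
      (Real.exp (p * δ) + η) *
      (EV k T (fun x => zn (1 / 2 + Δ) x ^ p) v + 2000 * EV k T (fun _ => 1) v) :=
    mul_le_mul_of_nonneg_right hc (by positivity)
  linarith

/-! ### the Dirichlet polynomials -/

/-- truncation of `ζ^{1/v}` at `T^θ` -/
def Pv (v : ℕ) (θ T : ℝ) (s : ℂ) : ℂ := DS (dv (1 / (v : ℝ))) ⌊T ^ θ⌋₊ s

/-- its `v`-th power -/
def Qv (v : ℕ) (θ T : ℝ) (s : ℂ) : ℂ := Pv v θ T s ^ v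

/-- `|P(σ + it)|^2` -/
def pv (v : ℕ) (θ T σ t : ℝ) : ℝ := ‖Pv v θ T ((σ : ℂ) + t * Complex.I)‖ ^ 2

section
variable {v : ℕ} {θ : ℝ}

lemma Pv_diff (T : ℝ) : Differentiable ℂ (Pv v θ T) := DS_differentiable _ _

lemma Qv_diff (T : ℝ) : Differentiable ℂ (Qv v θ T) := (Pv_diff T).pow v

lemma Pv_le (hv : 2 ≤ v) (T : ℝ) {s : ℂ} (hs : 0 ≤ s.re) : ‖Pv v θ T s‖ ≤ ⌊T ^ θ⌋₊ := by
  obtain ⟨h1, h2, -, -⟩ := kv hv
  exact DS_norm_le (fun n => dv_nonneg h1.le n) (fun n => dv_le_one h1.le h2 n) _ hs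

lemma Qv_pow (hv : 2 ≤ v) (T : ℝ) (s : ℂ) : ‖Qv v θ T s‖ ^ (2 / (v:ℝ)) = ‖Pv v θ T s‖ ^ 2 := by
  have hv0 : (0:ℝ) < v := by exact_mod_cast (by omega : 0 < v)
  unfold Qv
  rw [norm_pow, ← Real.rpow_natCast, ← Real.rpow_mul (norm_nonneg _),
    show (v:ℝ) * (2 / v) = 2 by field_simp]
  exact_mod_cast Real.rpow_natCast _ 2

lemma pv_cont (T σ : ℝ) : Continuous (pv v θ T σ) := by
  unfold pv
  have h1 : Continuous fun t : ℝ => (σ : ℂ) + t * Complex.I := by fun_prop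
  exact (((Pv_diff T).continuous.comp h1).norm).pow 2

lemma tr1 (hv : 2 ≤ v) (T σ t : ℝ) :
    zn σ t ^ (2 / (v:ℝ)) ≤ pv v θ T σ t + qn (Qv v θ T) (2 / (v:ℝ)) σ t := by
  obtain ⟨-, -, h3, h4⟩ := kv hv
  unfold pv qn
  rw [← Qv_pow hv]
  set z : ℂ := (σ : ℂ) + t * Complex.I
  have h5 : zn σ t ≤ ‖Qv v θ T z‖ + ‖riemannZeta z - Qv v θ T z‖ := by
    have := norm_add_le (Qv v θ T z) (riemannZeta z - Qv v θ T z)
    rwa [add_sub_cancel] at this
  exact (Real.rpow_le_rpow (zn_nonneg _ _) h5 h3.le).trans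
    (add_rpow_le' (norm_nonneg _) (norm_nonneg _) h3.le h4)

lemma tr2 (hv : 2 ≤ v) (T σ t : ℝ) :
    qn (Qv v θ T) (2 / (v:ℝ)) σ t ≤ zn σ t ^ (2 / (v:ℝ)) + pv v θ T σ t := by
  obtain ⟨-, -, h3, h4⟩ := kv hv
  unfold pv qn
  rw [← Qv_pow hv]
  set z : ℂ := (σ : ℂ) + t * Complex.I
  have h5 : ‖riemannZeta z - Qv v θ T z‖ ≤ zn σ t + ‖Qv v θ T z‖ := norm_sub_le _ _
  exact (Real.rpow_le_rpow (norm_nonneg _) h5 h3.le).trans
    (add_rpow_le' (zn_nonneg _ _) (norm_nonneg _) h3.le h4)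

lemma Gr_pv (hv : 2 ≤ v) (hθ : θ ≤ 1) {T σ : ℝ} (hT : 1 ≤ T) (hσ : 0 ≤ σ) :
    Gr (pv v θ T σ) (T ^ 2) where
  cont := pv_cont T σ
  nn _ := sq_nonneg _
  bd x := by
    have h1 : ‖Pv v θ T ((σ : ℂ) + x * Complex.I)‖ ≤ T := by
      refine (Pv_le hv T (by simpa using hσ)).trans ?_
      refine (Nat.floor_le (by positivity)).trans ?_
      calc T ^ θ ≤ T ^ (1 : ℝ) := Real.rpow_le_rpow_of_exponent_le hT hθ
        _ = T := Real.rpow_one T
    have h2 : pv v θ T σ x ≤ T ^ 2 := pow_le_pow_left₀ (norm_nonneg _) h1 2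
    have h3 : 0 ≤ T ^ 2 * |x| := by positivity
    linarith

lemma Gr_qv (hv : 2 ≤ v) (hθ : θ ≤ 1) {T σ : ℝ} (hT : 1 ≤ T) (hσ : 3 / 8 ≤ σ) (hσ2 : σ ≤ 3 / 4) :
    Gr (qn (Qv v θ T) (2 / (v:ℝ)) σ) (12 + T ^ 2) where
  cont := qn_cont (Qv_diff T) (kv hv).2.2.1 (by linarith)
  nn := qn_nonneg _ _ _
  bd x := by
    have h1 := tr2 (θ := θ) hv T σ x
    have h2 := (Gr_zn (kv hv).2.2.1 (kv hv).2.2.2 hσ hσ2).bd x
    have h3 := (Gr_pv (v := v) hv hθ hT (show 0 ≤ σ by linarith)).bd x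
    linarith

end

lemma log_floor {θ : ℝ} (hθ : 0 < θ) :
    Tendsto (fun T : ℝ => Real.log (⌊T ^ θ⌋₊ : ℝ) / Real.log T) atTop (𝓝 θ) := by
  have h1 : Tendsto (fun T : ℝ => θ - Real.log 2 / Real.log T) atTop (𝓝 (θ - 0)) :=
    tendsto_const_nhds.sub (tendsto_const_nhds.div_atTop Real.tendsto_log_atTop)
  rw [sub_zero] at h1
  refine tendsto_of_tendsto_of_tendsto_of_le_of_le' h1 tendsto_const_nhds ?_ ?_
  · filter_upwards [eventually_gt_atTop 1, (tendsto_rpow_atTop hθ).eventually_ge_atTop 2] with T hT hT2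
    have hL := Real.log_pos hT
    have hT0 : 0 < T := by linarith
    have h3 := Nat.lt_floor_add_one (T ^ θ)
    have h4 : T ^ θ / 2 ≤ ⌊T ^ θ⌋₊ := by linarith
    have h5 := Real.log_le_log (by positivity) h4
    rw [Real.log_div (by positivity) (by norm_num), Real.log_rpow hT0] at h5
    rw [le_div_iff₀ hL, sub_mul, div_mul_cancel₀ _ hL.ne']
    exact h5
  · filter_upwards [eventually_gt_atTop 1, (tendsto_rpow_atTop hθ).eventually_ge_atTop 2] with T hT hT2
    have hL := Real.log_pos hT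
    have hT0 : 0 < T := by linarith
    have h3 := Nat.lt_floor_add_one (T ^ θ)
    have h4 : (0 : ℝ) < ⌊T ^ θ⌋₊ := by linarith
    have h5 := Real.log_le_log h4 (Nat.floor_le (by positivity))
    rw [Real.log_rpow hT0] at h5
    rw [div_le_iff₀ hL]
    exact h5

end

end Pool.Agent.L7h20.TM3
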