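import Pool.Agent.L7h20.TM3.Sb
import Pool.Agent.Y756.T.IntC
import Pool.Agent.Y756.K.Int3

set_option autoImplicit false

/-! Explicit bounds for the integrals `I3a (1/2) W a`. -/

namespace Pool.Agent.L7h20.TM3

open Finset Filter Topology MeasureTheory Pool.Agent.H306R2
open Pool.Agent.TH535 (posI GdI GdI_nonneg int_able)
open Pool.Agent.Y756.T (m3 GdI3 GdI_meas fubS fub2 ins_meas beta_int Gam_half)
open scoped ENNReal

noncomputable section

lemma m3h_pos : ∀ i, 0 < m3 (1 / 2) i := by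
  intro i; fin_cases i
  · show (0 : ℝ) < 1 / 2; norm_num
  · show (0 : ℝ) < 1 / 2; norm_num
  · show (0 : ℝ) < (1 / 2) ^ 2; norm_num

lemma I3a_able {W : ℝ → ℝ} {θ θ' : ℝ} (hW : WU W θ θ') (hθ' : 0 ≤ θ') (a : ℝ) :
    Integrable (fun u : Fin 3 → ℝ => GdI (m3 (1 / 2)) u * qb W a u) := by
  refine int_able m3h_pos _ (qb_cont hW.cont a) θ' ?_ hθ'
  intro u hu hi
  unfold qb
  rw [qa_zero hW a u hu hi, zero_mul]

lemma GdI3' (u : Fin 3 → ℝ) : GdI (m3 (1 / 2)) u = gd (1 / 2) (u 0) * gd (1 / 2) (u 1) *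
    gd (1 / 4) (u 2) := by
  have h := GdI3 (u 0) (u 1) (u 2)
  have e : (![u 0, u 1, u 2] : Fin 3 → ℝ) = u := by
    funext i; fin_cases i <;> rfl
  rwa [e] at h

lemma gd_zero {m x : ℝ} (h : ¬ 0 < x) : gd m x = 0 := by unfold gd; rw [if_neg h]

/-- the logarithmic factor -/
lemma abs_chord {θ t : ℝ} (hθ : 1 / 2 ≤ θ) (h0 : 0 ≤ t) (h1 : t ≤ 2 * θ) :
    |1 - t| ≤ 1 - (1 - θ) / θ * t := by
  have hθ0 : 0 < θ := by linarith
  have e : (1 - θ) / θ * t = t / θ - t := by field_simp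
  rw [e, abs_le]
  have h2 : t / θ ≤ 2 := by rw [div_le_iff₀ hθ0]; exact h1
  have h3 : t / θ ≤ 2 * t := by
    rw [div_le_iff₀ hθ0]
    nlinarith
  constructor <;> linarith

/-- on the support, the two conditions -/
lemma qb_supp {W : ℝ → ℝ} {θ θ' : ℝ} (hW : WU W θ θ') (hθ' : 1 / 2 ≤ θ') (a x y z : ℝ)
    (hx : 0 < x) (hy : 0 < y) (hz : 0 < z) :
    qb W a ![x, y, z] ≤ ct (θ' - z) x * ct (θ' - z) y * (Real.exp (-(a * (x + z))) *
      Real.exp (-(a * (y + z))) * (1 - (1 - θ') / θ' * (x + y))) := by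
  have hθ0 : 0 < θ' := by linarith
  unfold qb qa
  simp only [Matrix.cons_val_zero, Matrix.cons_val_one, Matrix.cons_val]
  by_cases h1 : x ≤ θ' - z
  · by_cases h2 : y ≤ θ' - z
    · unfold ct
      rw [if_pos h1, if_pos h2, ← Real.exp_add]
      have e : -(a * (x + z)) + -(a * (y + z)) = -(a * (x + y + 2 * z)) := by ring
      rw [e]
      have h3 := abs_chord hθ' (show 0 ≤ x + y by linarith) (by linarith)
      have e2 : (1 : ℝ) - x - y = 1 - (x + y) := by ring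
      rw [e2]
      have w1 := hW.nn (x + z)
      have w2 := hW.nn (y + z)
      have w3 : W (x + z) * W (y + z) ≤ 1 := mul_le_one₀ (hW.le _) w2 (hW.le _)
      have hE := Real.exp_pos (-(a * (x + y + 2 * z)))
      calc W (x + z) * W (y + z) * Real.exp (-(a * (x + y + 2 * z))) * |1 - (x + y)| ≤
            1 * Real.exp (-(a * (x + y + 2 * z))) * (1 - (1 - θ') / θ' * (x + y)) := by
            gcongr
        _ = _ := by ring
    · rw [hW.z (y + z) (by linarith)]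
      unfold ct
      rw [if_neg h2]
      simp
  · rw [hW.z (x + z) (by linarith)]
    unfold ct
    rw [if_neg h1]
    simp

/-- bound for positive shifts -/
theorem I3a_pos {W : ℝ → ℝ} {θ θ' : ℝ} (hW : WU W θ θ') (hθ' : 1 / 2 ≤ θ') (hθ1 : θ' ≤ 1) {δ : ℝ}
    (hδ : 0 < δ) :
    I3a (1 / 2) W δ ≤ (δ + (1 - θ') / θ')⁻¹ * (2 * δ) ^ (-(1 / 4) : ℝ) := by
  have hθ0 : 0 < θ' := by linarith
  set c := (1 - θ') / θ' with hc
  have hc0 : 0 ≤ c := div_nonneg (by linarith) hθ0.le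
  set s : Fin 3 → ℝ := ![δ + c, δ + c, 2 * δ] with hs
  have hs0 : ∀ i, 0 < s i := by
    intro i; fin_cases i
    · show 0 < δ + c; linarith
    · show 0 < δ + c; linarith
    · show 0 < 2 * δ; linarith
  have h1 := Gd_exp_integral m3h_pos hs0
  have h2 := Gd_exp_integrable m3h_pos hs0
  have h3 : ∏ i, (s i) ^ (-(m3 (1 / 2) i)) = (δ + c)⁻¹ * (2 * δ) ^ (-(1 / 4) : ℝ) := by
    rw [Fin.prod_univ_three]
    show (δ + c) ^ (-(1 / 2 : ℝ)) * (δ + c) ^ (-(1 / 2 : ℝ)) * (2 * δ) ^ (-((1 / 2 : ℝ) ^ 2)) = _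
    rw [← Real.rpow_add (by linarith), show -(1 / 2 : ℝ) + -(1 / 2) = -1 by norm_num,
      Real.rpow_neg_one, show -((1 / 2 : ℝ) ^ 2) = -(1 / 4) by norm_num]
  rw [← h3, ← h1]
  unfold I3a
  refine integral_mono (I3a_able hW hθ0.le δ) h2 fun u => ?_
  have hG : GdI (m3 (1 / 2)) u = Gd (m3 (1 / 2)) u := rfl
  simp only
  rw [← hG]
  by_cases hu : 0 < u 0 ∧ 0 < u 1 ∧ 0 < u 2
  · refine mul_le_mul_of_nonneg_left ?_ (GdI_nonneg m3h_pos u)
    obtain ⟨hx, hy, hz⟩ := hu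
    have h4 := qb_supp hW hθ' δ (u 0) (u 1) (u 2) hx hy hz
    have e : (![u 0, u 1, u 2] : Fin 3 → ℝ) = u := by
      funext i; fin_cases i <;> rfl
    rw [e, ← hc] at h4
    refine h4.trans ?_
    have h5 : ct (θ' - u 2) (u 0) * ct (θ' - u 2) (u 1) ≤ 1 := by
      unfold ct
      split_ifs <;> norm_num
    have h5' : 0 ≤ ct (θ' - u 2) (u 0) * ct (θ' - u 2) (u 1) :=
      mul_nonneg (ct_nonneg _ _) (ct_nonneg _ _)
    have h6 : 1 - c * (u 0 + u 1) ≤ Real.exp (-(c * (u 0 + u 1))) := by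
      have := Real.add_one_le_exp (-(c * (u 0 + u 1)))
      linarith
    have h7 : Real.exp (-(δ * (u 0 + u 2))) * Real.exp (-(δ * (u 1 + u 2))) *
        (1 - c * (u 0 + u 1)) ≤ Real.exp (-(δ * (u 0 + u 2))) * Real.exp (-(δ * (u 1 + u 2))) *
        Real.exp (-(c * (u 0 + u 1))) := mul_le_mul_of_nonneg_left h6 (by positivity)
    have h8 : ∏ i, Real.exp (-(s i * u i)) = Real.exp (-(δ * (u 0 + u 2))) *
        Real.exp (-(δ * (u 1 + u 2))) * Real.exp (-(c * (u 0 + u 1))) := by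
      rw [Fin.prod_univ_three]
      show Real.exp (-((δ + c) * u 0)) * Real.exp (-((δ + c) * u 1)) *
        Real.exp (-(2 * δ * u 2)) = _
      rw [← Real.exp_add, ← Real.exp_add, ← Real.exp_add, ← Real.exp_add]
      congr 1; ring
    rw [h8]
    calc _ ≤ ct (θ' - u 2) (u 0) * ct (θ' - u 2) (u 1) *
          (Real.exp (-(δ * (u 0 + u 2))) * Real.exp (-(δ * (u 1 + u 2))) *
            Real.exp (-(c * (u 0 + u 1)))) := mul_le_mul_of_nonneg_left h7 h5'
      _ ≤ 1 * (Real.exp (-(δ * (u 0 + u 2))) * Real.exp (-(δ * (u 1 + u 2))) *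
            Real.exp (-(c * (u 0 + u 1)))) := mul_le_mul_of_nonneg_right h5 (by positivity)
      _ = _ := one_mul _
  · have : GdI (m3 (1 / 2)) u = 0 := by
      rw [GdI3']
      by_cases h0 : 0 < u 0
      · by_cases h1 : 0 < u 1
        · rw [gd_zero (x := u 2) (fun h2 => hu ⟨h0, h1, h2⟩), mul_zero]
        · rw [gd_zero (x := u 1) h1]; ring
      · rw [gd_zero (x := u 0) h0]; ring
    rw [this]; simp

/-- quadratic moments of the sharp cut-off -/
lemma P2_int {r : ℝ} (hr : 0 < r) (α β γ : ℝ) :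
    Integrable (fun x => gd (1 / 2) x * ct r x * (α + β * x + γ * x ^ 2)) ∧
    ∫ x, gd (1 / 2) x * ct r x * (α + β * x + γ * x ^ 2) =
      r ^ (1 / 2 : ℝ) / Real.Gamma (3 / 2) * (α + β * (r / 3) + γ * (r ^ 2 / 5)) := by
  have e : (fun x => gd (1 / 2) x * ct r x * (α + β * x + γ * x ^ 2)) =
      fun x => α * (gd (1 / 2) x * ct r x) + (β * (1 / 2)) * (gd (3 / 2) x * ct r x) +
        (γ * (1 / 2 * (3 / 2))) * (gd (5 / 2) x * ct r x) := by
    funext x
    have h1 := id_gd (m := 1 / 2) (by norm_num) x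
    have h2 := id_gd (m := 3 / 2) (by norm_num) x
    rw [show (1 / 2 + 1 : ℝ) = 3 / 2 by norm_num] at h1
    rw [show (3 / 2 + 1 : ℝ) = 5 / 2 by norm_num] at h2
    have h3 : x ^ 2 * gd (1 / 2) x = 1 / 2 * (3 / 2) * gd (5 / 2) x := by
      calc x ^ 2 * gd (1 / 2) x = x * (x * gd (1 / 2) x) := by ring
        _ = 1 / 2 * (x * gd (3 / 2) x) := by rw [h1]; ring
        _ = _ := by rw [h2]; ring
    calc gd (1 / 2) x * ct r x * (α + β * x + γ * x ^ 2) =
          α * (gd (1 / 2) x * ct r x) + β * (x * gd (1 / 2) x) * ct r x +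
            γ * (x ^ 2 * gd (1 / 2) x) * ct r x := by ring
      _ = _ := by rw [h1, h3]; ring
  have i0 := (gd_ct_integrable (m := 1 / 2) (by norm_num) r).const_mul α
  have i1 := (gd_ct_integrable (m := 3 / 2) (by norm_num) r).const_mul (β * (1 / 2))
  have i2 := (gd_ct_integrable (m := 5 / 2) (by norm_num) r).const_mul (γ * (1 / 2 * (3 / 2)))
  have i01 : Integrable (fun x => α * (gd (1 / 2) x * ct r x) +
      (β * (1 / 2)) * (gd (3 / 2) x * ct r x)) := i0.add i1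
  rw [e]
  refine ⟨i01.add i2, ?_⟩
  rw [integral_add i01 i2, integral_add i0 i1, integral_const_mul, integral_const_mul,
    integral_const_mul, gd_ct_integral (by norm_num), gd_ct_integral (by norm_num),
    gd_ct_integral (by norm_num), max_eq_left hr.le]
  have g1 : Real.Gamma (3 / 2 + 1) = 3 / 2 * Real.Gamma (3 / 2) := Real.Gamma_add_one (by norm_num)
  have g2 : Real.Gamma (5 / 2 + 1) = 5 / 2 * (3 / 2 * Real.Gamma (3 / 2)) := by
    rw [Real.Gamma_add_one (by norm_num), ← g1]; norm_num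
  have r1 : r ^ (3 / 2 : ℝ) = r ^ (1 / 2 : ℝ) * r := by
    rw [← Real.rpow_add_one hr.ne']; norm_num
  have r2 : r ^ (5 / 2 : ℝ) = r ^ (1 / 2 : ℝ) * r ^ 2 := by
    rw [show (5 / 2 : ℝ) = 1 / 2 + (2 : ℕ) by norm_num, Real.rpow_add_natCast hr.ne']
  rw [g1, g2, r1, r2, show (1 / 2 + 1 : ℝ) = 3 / 2 by norm_num]
  have := Real.Gamma_pos_of_pos (show (0 : ℝ) < 3 / 2 by norm_num)
  field_simp

/-- majorant of the integrand for negative shifts -/
def H3 (K c θ' x y g : ℝ) : ℝ := gd (1 / 4) g * (gd (1 / 2) x * ct (θ' - g) x * (1 + K * (x + g))) *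
  (gd (1 / 2) y * ct (θ' - g) y * (1 + K * (y + g)) * (1 - c * (x + y)))

lemma exp_chord {δ θ' s : ℝ} (hθ' : 0 < θ') (h0 : 0 ≤ s) (h1 : s ≤ θ') :
    Real.exp (δ * s) ≤ 1 + (Real.exp (δ * θ') - 1) / θ' * s := by
  have h := convexOn_exp.2 (Set.mem_univ 0) (Set.mem_univ (δ * θ'))
    (show 0 ≤ 1 - s / θ' by
      have : s / θ' ≤ 1 := by rw [div_le_one hθ']; exact h1
      linarith) (show 0 ≤ s / θ' by positivity) (by ring)
  simp only [smul_eq_mul, mul_zero, zero_add, Real.exp_zero, mul_one] at h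
  have e : s / θ' * (δ * θ') = δ * s := by field_simp
  rw [e] at h
  refine h.trans (le_of_eq ?_)
  field_simp
  ring

lemma H3_nonneg {K c θ' : ℝ} (hK : 0 ≤ K) (hc : 0 ≤ c) (hcθ : 2 * (c * θ') ≤ 1) (x y g : ℝ) :
    0 ≤ H3 K c θ' x y g := by
  unfold H3
  by_cases hg : 0 < g
  swap
  · rw [gd_zero hg]; simp
  by_cases hx : 0 < x
  swap
  · rw [gd_zero hx]; simp
  by_cases hy : 0 < y
  swap
  · rw [gd_zero hy]; simp
  have g1 := gd_nonneg (m := 1 / 4) (by norm_num) g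
  have g2 := gd_nonneg (m := 1 / 2) (by norm_num) x
  have g3 := gd_nonneg (m := 1 / 2) (by norm_num) y
  by_cases h1 : x ≤ θ' - g
  swap
  · unfold ct; rw [if_neg h1]; simp
  by_cases h2 : y ≤ θ' - g
  swap
  · unfold ct; rw [if_neg h2]; simp
  have c1 := ct_nonneg (θ' - g) x
  have c2 := ct_nonneg (θ' - g) y
  have h3 : c * (x + y) ≤ 2 * (c * θ') := by nlinarith
  have h4 : 0 ≤ 1 - c * (x + y) := by linarith
  have h5 : 0 ≤ 1 + K * (x + g) := by positivity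
  have h6 : 0 ≤ 1 + K * (y + g) := by positivity
  positivity

lemma H3_maj {W : ℝ → ℝ} {θ θ' : ℝ} (hW : WU W θ θ') (hθ' : 1 / 2 ≤ θ') (δ x y g : ℝ) :
    GdI (m3 (1 / 2)) ![x, y, g] * qb W (-δ) ![x, y, g] ≤
      H3 ((Real.exp (δ * θ') - 1) / θ') ((1 - θ') / θ') θ' x y g := by
  have hθ0 : 0 < θ' := by linarith
  unfold H3
  rw [GdI3]
  by_cases hg : 0 < g
  swap
  · rw [gd_zero hg]; simp
  by_cases hx : 0 < x
  swap
  · rw [gd_zero hx]; simp
  by_cases hy : 0 < y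
  swap
  · rw [gd_zero hy]; simp
  have g1 := gd_nonneg (m := 1 / 4) (by norm_num) g
  have g2 := gd_nonneg (m := 1 / 2) (by norm_num) x
  have g3 := gd_nonneg (m := 1 / 2) (by norm_num) y
  have h4 := qb_supp hW hθ' (-δ) x y g hx hy hg
  have h5 := mul_le_mul_of_nonneg_left h4 (mul_nonneg (mul_nonneg g2 g3) g1)
  refine h5.trans ?_
  by_cases h1 : x ≤ θ' - g
  swap
  · unfold ct; rw [if_neg h1]; simp
  by_cases h2 : y ≤ θ' - g
  swap
  · unfold ct; rw [if_neg h2]; simp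
  have c1 := ct_nonneg (θ' - g) x
  have c2 := ct_nonneg (θ' - g) y
  have h6 := exp_chord (δ := δ) hθ0 (show 0 ≤ x + g by linarith) (show x + g ≤ θ' by linarith)
  have h7 := exp_chord (δ := δ) hθ0 (show 0 ≤ y + g by linarith) (show y + g ≤ θ' by linarith)
  set K := (Real.exp (δ * θ') - 1) / θ' with hK
  have e1 : -(-δ * (x + g)) = δ * (x + g) := by ring
  have e2 : -(-δ * (y + g)) = δ * (y + g) := by ring
  rw [e1, e2]
  have h8 : 0 ≤ 1 - (1 - θ') / θ' * (x + y) := by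
    have := abs_chord hθ' (show 0 ≤ x + y by linarith) (show x + y ≤ 2 * θ' by linarith)
    exact (abs_nonneg _).trans this
  have h9 : 0 ≤ 1 + K * (x + g) := (Real.exp_pos _).le.trans h6
  calc gd (1 / 2) x * gd (1 / 2) y * gd (1 / 4) g * (ct (θ' - g) x * ct (θ' - g) y *
        (Real.exp (δ * (x + g)) * Real.exp (δ * (y + g)) * (1 - (1 - θ') / θ' * (x + y)))) ≤
      gd (1 / 2) x * gd (1 / 2) y * gd (1 / 4) g * (ct (θ' - g) x * ct (θ' - g) y *
        ((1 + K * (x + g)) * (1 + K * (y + g)) * (1 - (1 - θ') / θ' * (x + y)))) := by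
        gcongr
    _ = _ := by ring

/-- the integral over the first two variables -/
lemma lev3u {K c θ' : ℝ} (hK : 0 ≤ K) (hc : 0 ≤ c) (hcθ : 2 * (c * θ') ≤ 1) (g : ℝ) :
    ∫⁻ x, ∫⁻ y, ENNReal.ofReal (H3 K c θ' x y g) ≤
    ENNReal.ofReal (4 / Real.pi * (gd (1 / 4) g * ((max (θ' - g) 0) *
      (((1 + K * g) + K * (max (θ' - g) 0) / 3) *
        (((1 + K * g) + K * (max (θ' - g) 0) / 3) - 2 * c * ((1 + K * g) * (max (θ' - g) 0) / 3 +
          K * (max (θ' - g) 0) ^ 2 / 5)))))) := by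
  by_cases g0 : 0 < g
  swap
  · have : ∀ x y, H3 K c θ' x y g = 0 := by
      intro x y
      unfold H3
      rw [gd_zero g0]; ring
    simp only [this]
    simp
  by_cases g1 : g < θ'
  swap
  · have : ∀ x y, H3 K c θ' x y g = 0 := by
      intro x y
      unfold H3
      by_cases hx : 0 < x
      · have : ct (θ' - g) x = 0 := by
          unfold ct; rw [if_neg]; push Not at g1 ⊢; linarith
        rw [this]; ring
      · rw [gd_zero hx]; ring
    simp only [this]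
    simp
  have hr : 0 < θ' - g := by linarith
  set r := θ' - g with hrd
  set G := 1 + K * g with hG
  set M := r ^ (1 / 2 : ℝ) / Real.Gamma (3 / 2) with hM
  have hg := gd_nonneg (m := 1 / 4) (by norm_num) g
  have hin : ∀ x, ∫⁻ y, ENNReal.ofReal (H3 K c θ' x y g) =
      ENNReal.ofReal ((gd (1 / 4) g * M) * (gd (1 / 2) x * ct r x *
        (G * ((G + K * r / 3) - c * (G * r / 3 + K * r ^ 2 / 5)) +
          (K * ((G + K * r / 3) - c * (G * r / 3 + K * r ^ 2 / 5)) - c * (G + K * r / 3) * G) * x +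
          (-(c * K * (G + K * r / 3))) * x ^ 2))) := by
    intro x
    obtain ⟨hi, hv⟩ := P2_int hr (G * (1 - c * x)) (K * (1 - c * x) - c * G) (-(c * K))
    have e : ∀ y, H3 K c θ' x y g = (gd (1 / 4) g * (gd (1 / 2) x * ct r x * (1 + K * (x + g)))) *
        (gd (1 / 2) y * ct r y * (G * (1 - c * x) + (K * (1 - c * x) - c * G) * y +
          -(c * K) * y ^ 2)) := by
      intro y
      unfold H3
      rw [hG]
      ring
    have hI := ofReal_integral_eq_lintegral_ofReal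
      (hi.const_mul (gd (1 / 4) g * (gd (1 / 2) x * ct r x * (1 + K * (x + g)))))
      (Eventually.of_forall fun y => by
        have := H3_nonneg hK hc hcθ x y g
        rw [e y] at this
        exact this)
    rw [integral_const_mul, hv] at hI
    simp only [e]
    rw [← hI]
    congr 1
    rw [← hM, hG]
    ring
  simp only [hin]
  obtain ⟨hi, hv⟩ := P2_int hr (G * ((G + K * r / 3) - c * (G * r / 3 + K * r ^ 2 / 5)))
    (K * ((G + K * r / 3) - c * (G * r / 3 + K * r ^ 2 / 5)) - c * (G + K * r / 3) * G)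
    (-(c * K * (G + K * r / 3)))
  have hM0 : 0 < M := div_pos (Real.rpow_pos_of_pos hr _) (Real.Gamma_pos_of_pos (by norm_num))
  have hG0 : 0 < G := by rw [hG]; positivity
  have hI := ofReal_integral_eq_lintegral_ofReal
    (hi.const_mul (gd (1 / 4) g * M))
    (Eventually.of_forall fun x => by
      show 0 ≤ gd (1 / 4) g * M * (gd (1 / 2) x * ct r x *
        (G * ((G + K * r / 3) - c * (G * r / 3 + K * r ^ 2 / 5)) +
          (K * ((G + K * r / 3) - c * (G * r / 3 + K * r ^ 2 / 5)) - c * (G + K * r / 3) * G) * x +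
          (-(c * K * (G + K * r / 3))) * x ^ 2))
      by_cases hx : 0 < x
      swap
      · rw [gd_zero hx]; simp
      have hgx := gd_nonneg (m := 1 / 2) (by norm_num) x
      by_cases cx : x ≤ r
      swap
      · unfold ct; rw [if_neg cx]; simp
      have c1 := ct_nonneg r x
      have e : (G * ((G + K * r / 3) - c * (G * r / 3 + K * r ^ 2 / 5)) +
          (K * ((G + K * r / 3) - c * (G * r / 3 + K * r ^ 2 / 5)) - c * (G + K * r / 3) * G) * x +
          (-(c * K * (G + K * r / 3))) * x ^ 2) =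
          (G + K * x) * ((1 - c * x) * (G + K * r / 3) - c * (G * r / 3 + K * r ^ 2 / 5)) := by ring
      rw [e]
      have h1 : c * x ≤ 1 / 2 := by
        have : c * x ≤ c * θ' := mul_le_mul_of_nonneg_left (by linarith) hc
        linarith
      have h2 : c * r ≤ 1 / 2 := by
        have : c * r ≤ c * θ' := mul_le_mul_of_nonneg_left (by linarith) hc
        linarith
      have h3 : c * (G * r / 3 + K * r ^ 2 / 5) ≤ 1 / 2 * (G + K * r / 3) := by
        have e2 : c * (G * r / 3 + K * r ^ 2 / 5) = (c * r) * (G / 3 + K * r / 5) := by ring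
        rw [e2]
        have h4 : 0 ≤ G / 3 + K * r / 5 := by positivity
        have h5 : 0 ≤ K * r := by positivity
        calc (c * r) * (G / 3 + K * r / 5) ≤ 1 / 2 * (G / 3 + K * r / 5) :=
              mul_le_mul_of_nonneg_right h2 h4
          _ ≤ 1 / 2 * (G + K * r / 3) := by
            have : 0 < G := hG0
            linarith
      have h6 : 1 / 2 * (G + K * r / 3) ≤ (1 - c * x) * (G + K * r / 3) :=
        mul_le_mul_of_nonneg_right (by linarith) (by positivity)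
      have h7 : 0 ≤ (1 - c * x) * (G + K * r / 3) - c * (G * r / 3 + K * r ^ 2 / 5) := by linarith
      positivity)
  rw [integral_const_mul, hv] at hI
  rw [← hI]
  refine ENNReal.ofReal_le_ofReal (le_of_eq ?_)
  rw [max_eq_left hr.le, ← hM]
  have e1 : M * M = 4 / Real.pi * r := by
    rw [hM, Gam_half.1]
    have h1 : r ^ (1 / 2 : ℝ) * r ^ (1 / 2 : ℝ) = r := by
      rw [← Real.rpow_add hr]; norm_num
    have h2 : Real.sqrt Real.pi * Real.sqrt Real.pi = Real.pi := Real.mul_self_sqrt Real.pi_pos.le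
    have h3 : 0 < Real.sqrt Real.pi := Real.sqrt_pos.2 Real.pi_pos
    calc r ^ (1 / 2 : ℝ) / (Real.sqrt Real.pi / 2) * (r ^ (1 / 2 : ℝ) / (Real.sqrt Real.pi / 2)) =
          4 * (r ^ (1 / 2 : ℝ) * r ^ (1 / 2 : ℝ)) / (Real.sqrt Real.pi * Real.sqrt Real.pi) := by
            field_simp; ring
      _ = _ := by rw [h1, h2]; ring
  have e2 : 4 / Real.pi * (gd (1 / 4) g * (r * ((G + K * r / 3) *
      ((G + K * r / 3) - 2 * c * (G * r / 3 + K * r ^ 2 / 5))))) =
      (4 / Real.pi * r) * gd (1 / 4) g * ((G + K * r / 3) *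
      ((G + K * r / 3) - 2 * c * (G * r / 3 + K * r ^ 2 / 5))) := by ring
  rw [e2, ← e1]
  ring

/-- the polynomial of the final bound -/
def Q3 (E θ : ℝ) : ℝ := 9 / 4 * E ^ 2 + 2 * (-(4 / 3) * (E - 1) * E - 2 / 3 * (1 - θ) * E ^ 2) +
  24 / 13 * (4 / 9 * (E - 1) ^ 2 + 32 / 45 * (1 - θ) * (E - 1) * E) +
  384 / 221 * (-(8 / 45) * (1 - θ) * (E - 1) ^ 2)

lemma outer_int {θ' b0 b1 b2 b3 : ℝ} (hθ : 0 < θ') :
    Integrable (fun g => gd (1 / 4) g * (b0 * max (θ' - g) 0 + b1 * max (θ' - g) 0 ^ 2 +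
      b2 * max (θ' - g) 0 ^ 3 + b3 * max (θ' - g) 0 ^ 4)) ∧
    ∫ g, gd (1 / 4) g * (b0 * max (θ' - g) 0 + b1 * max (θ' - g) 0 ^ 2 +
      b2 * max (θ' - g) 0 ^ 3 + b3 * max (θ' - g) 0 ^ 4) =
      θ' ^ (5 / 4 : ℝ) / Real.Gamma (13 / 4) * (9 / 4 * b0 + 2 * (b1 * θ') + 24 / 13 * (b2 * θ' ^ 2) +
        384 / 221 * (b3 * θ' ^ 3)) := by
  obtain ⟨i1, v1⟩ := beta_int (a := 1 / 4) (b := 1) (by norm_num) (by norm_num) hθ
  obtain ⟨i2, v2⟩ := beta_int (a := 1 / 4) (b := 2) (by norm_num) (by norm_num) hθ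
  obtain ⟨i3, v3⟩ := beta_int (a := 1 / 4) (b := 3) (by norm_num) (by norm_num) hθ
  obtain ⟨i4, v4⟩ := beta_int (a := 1 / 4) (b := 4) (by norm_num) (by norm_num) hθ
  have e : (fun g => gd (1 / 4) g * (b0 * max (θ' - g) 0 + b1 * max (θ' - g) 0 ^ 2 +
      b2 * max (θ' - g) 0 ^ 3 + b3 * max (θ' - g) 0 ^ 4)) =
      fun g => b0 * (gd (1 / 4) g * (max (θ' - g) 0) ^ (1 : ℝ)) +
        b1 * (gd (1 / 4) g * (max (θ' - g) 0) ^ (2 : ℝ)) +
        b2 * (gd (1 / 4) g * (max (θ' - g) 0) ^ (3 : ℝ)) +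
        b3 * (gd (1 / 4) g * (max (θ' - g) 0) ^ (4 : ℝ)) := by
    funext g
    have p2 : (max (θ' - g) 0) ^ (2 : ℝ) = (max (θ' - g) 0) ^ 2 := by exact_mod_cast Real.rpow_natCast _ 2
    have p3 : (max (θ' - g) 0) ^ (3 : ℝ) = (max (θ' - g) 0) ^ 3 := by exact_mod_cast Real.rpow_natCast _ 3
    have p4 : (max (θ' - g) 0) ^ (4 : ℝ) = (max (θ' - g) 0) ^ 4 := by exact_mod_cast Real.rpow_natCast _ 4
    rw [Real.rpow_one, p2, p3, p4]
    ring
  have j1 := i1.const_mul b0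
  have j2 := i2.const_mul b1
  have j3 := i3.const_mul b2
  have j4 := i4.const_mul b3
  have j12 : Integrable (fun g => b0 * (gd (1 / 4) g * (max (θ' - g) 0) ^ (1 : ℝ)) +
        b1 * (gd (1 / 4) g * (max (θ' - g) 0) ^ (2 : ℝ))) := j1.add j2
  have j123 : Integrable (fun g => b0 * (gd (1 / 4) g * (max (θ' - g) 0) ^ (1 : ℝ)) +
        b1 * (gd (1 / 4) g * (max (θ' - g) 0) ^ (2 : ℝ)) +
        b2 * (gd (1 / 4) g * (max (θ' - g) 0) ^ (3 : ℝ))) := j12.add j3
  rw [e]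
  refine ⟨j123.add j4, ?_⟩
  rw [integral_add j123 j4, integral_add j12 j3, integral_add j1 j2, integral_const_mul,
    integral_const_mul, integral_const_mul, integral_const_mul, v1, v2, v3, v4]
  have g3 : Real.Gamma (1 / 4 + 2 + 1) = Real.Gamma (13 / 4) := by norm_num
  have g2 : Real.Gamma (13 / 4) = 9 / 4 * Real.Gamma (1 / 4 + 1 + 1) := by
    rw [show (13 / 4 : ℝ) = 9 / 4 + 1 by norm_num, Real.Gamma_add_one (by norm_num)]; norm_num
  have g4 : Real.Gamma (1 / 4 + 3 + 1) = 13 / 4 * Real.Gamma (13 / 4) := by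
    rw [show (1 / 4 + 3 + 1 : ℝ) = 13 / 4 + 1 by norm_num, Real.Gamma_add_one (by norm_num)]
  have g5 : Real.Gamma (1 / 4 + 4 + 1) = 17 / 4 * (13 / 4 * Real.Gamma (13 / 4)) := by
    rw [show (1 / 4 + 4 + 1 : ℝ) = 17 / 4 + 1 by norm_num, Real.Gamma_add_one (by norm_num), ← g4]
    norm_num
  have f2 : Real.Gamma (1 + 1) = 1 := by
    rw [Real.Gamma_add_one (by norm_num), Real.Gamma_one]; norm_num
  have f3 : Real.Gamma (2 + 1) = 2 := by
    rw [Real.Gamma_add_one (by norm_num), show (2 : ℝ) = 1 + 1 by norm_num, f2]; norm_num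
  have f4 : Real.Gamma (3 + 1) = 6 := by
    rw [Real.Gamma_add_one (by norm_num), show (3 : ℝ) = 2 + 1 by norm_num, f3]; norm_num
  have f5 : Real.Gamma (4 + 1) = 24 := by
    rw [Real.Gamma_add_one (by norm_num), show (4 : ℝ) = 3 + 1 by norm_num, f4]; norm_num
  have t1 : θ' ^ (1 / 4 + 1 : ℝ) = θ' ^ (5 / 4 : ℝ) := by norm_num
  have t2 : θ' ^ (1 / 4 + 2 : ℝ) = θ' ^ (5 / 4 : ℝ) * θ' := by
    rw [← Real.rpow_add_one hθ.ne']; norm_num
  have t3 : θ' ^ (1 / 4 + 3 : ℝ) = θ' ^ (5 / 4 : ℝ) * θ' ^ 2 := by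
    rw [show (1 / 4 + 3 : ℝ) = 5 / 4 + (2 : ℕ) by norm_num, Real.rpow_add_natCast hθ.ne']
  have t4 : θ' ^ (1 / 4 + 4 : ℝ) = θ' ^ (5 / 4 : ℝ) * θ' ^ 3 := by
    rw [show (1 / 4 + 4 : ℝ) = 5 / 4 + (3 : ℕ) by norm_num, Real.rpow_add_natCast hθ.ne']
  have hGp := Real.Gamma_pos_of_pos (show (0 : ℝ) < 13 / 4 by norm_num)
  have g2' : Real.Gamma (1 / 4 + 1 + 1) = Real.Gamma (13 / 4) / (9 / 4) := by
    rw [g2]; ring
  rw [g3, g4, g5, f2, f3, f4, f5, t1, t2, t3, t4, g2']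
  field_simp
  ring

/-- bound for nonpositive shifts -/
theorem I3a_neg {W : ℝ → ℝ} {θ θ' : ℝ} (hW : WU W θ θ') (hθ' : 1 / 2 ≤ θ') (hθ1 : θ' ≤ 1) {δ : ℝ}
    (hδ : 0 ≤ δ) :
    I3a (1 / 2) W (-δ) ≤ 4 / Real.pi * (θ' ^ (5 / 4 : ℝ) / Real.Gamma (13 / 4) *
      Q3 (Real.exp (δ * θ')) θ') := by
  have hθ0 : 0 < θ' := by linarith
  set E := Real.exp (δ * θ') with hE
  set K := (E - 1) / θ' with hK
  set c := (1 - θ') / θ' with hc
  have hE1 : 1 ≤ E := Real.one_le_exp (by positivity)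
  have hK0 : 0 ≤ K := div_nonneg (by linarith) hθ0.le
  have hc0 : 0 ≤ c := div_nonneg (by linarith) hθ0.le
  have hcθ : c * θ' = 1 - θ' := by rw [hc]; field_simp
  have hKθ : K * θ' = E - 1 := by rw [hK]; field_simp
  have hcθ2 : 2 * (c * θ') ≤ 1 := by rw [hcθ]; linarith
  have hpi := Real.pi_pos
  -- nonnegativity
  have hnnq : ∀ u : Fin 3 → ℝ, 0 ≤ GdI (m3 (1 / 2)) u * qb W (-δ) u := fun u =>
    mul_nonneg (GdI_nonneg m3h_pos u) (mul_nonneg (qa_nn hW _ u) (abs_nonneg _))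
  have hint := I3a_able hW hθ0.le (-δ)
  have h1 := ofReal_integral_eq_lintegral_ofReal hint (Eventually.of_forall hnnq)
  change ENNReal.ofReal (I3a (1 / 2) W (-δ)) = _ at h1
  have hmeas : Measurable (fun u : Fin 3 → ℝ => ENNReal.ofReal
      (GdI (m3 (1 / 2)) u * qb W (-δ) u)) :=
    ((GdI_meas _).mul (qb_cont hW.cont (-δ)).measurable).ennreal_ofReal
  rw [fubS 2 _ hmeas] at h1
  have h2 : ∀ g : ℝ, ∫⁻ y : Fin 2 → ℝ, ENNReal.ofReal
      (GdI (m3 (1 / 2)) ((2 : Fin 3).insertNth g y) * qb W (-δ) ((2 : Fin 3).insertNth g y)) ≤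
      ∫⁻ x, ∫⁻ y, ENNReal.ofReal (H3 K c θ' x y g) := by
    intro g
    rw [fub2 (fun y => ENNReal.ofReal
      (GdI (m3 (1 / 2)) ((2 : Fin 3).insertNth g y) * qb W (-δ) ((2 : Fin 3).insertNth g y)))
      (hmeas.comp (ins_meas 2 g))]
    refine lintegral_mono fun x => lintegral_mono fun y => ?_
    have e : ((2 : Fin 3).insertNth g ![x, y] : Fin 3 → ℝ) = ![x, y, g] := by
      funext i; fin_cases i <;> rfl
    simp only [e]
    exact ENNReal.ofReal_le_ofReal (H3_maj hW hθ' δ x y g)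
  set b0 := E ^ 2 with hb0
  set b1 := -(4 / 3) * K * E - 2 / 3 * c * E ^ 2 with hb1
  set b2 := 4 / 9 * K ^ 2 + 32 / 45 * c * K * E with hb2
  set b3 := -(8 / 45) * c * K ^ 2 with hb3
  have hpoly : ∀ g : ℝ, gd (1 / 4) g * ((max (θ' - g) 0) *
      (((1 + K * g) + K * (max (θ' - g) 0) / 3) *
        (((1 + K * g) + K * (max (θ' - g) 0) / 3) - 2 * c * ((1 + K * g) * (max (θ' - g) 0) / 3 +
          K * (max (θ' - g) 0) ^ 2 / 5)))) =
      gd (1 / 4) g * (b0 * max (θ' - g) 0 + b1 * max (θ' - g) 0 ^ 2 +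
      b2 * max (θ' - g) 0 ^ 3 + b3 * max (θ' - g) 0 ^ 4) := by
    intro g
    by_cases h : g ≤ θ'
    · rw [max_eq_left (by linarith)]
      congr 1
      have eE : E = 1 + K * θ' := by rw [hKθ]; ring
      rw [hb0, hb1, hb2, hb3, eE]
      ring
    · rw [max_eq_right (by push Not at h; linarith)]
      ring
  obtain ⟨hoi, hov⟩ := outer_int (b0 := b0) (b1 := b1) (b2 := b2) (b3 := b3) hθ0
  have h3 : ENNReal.ofReal (I3a (1 / 2) W (-δ)) ≤ ENNReal.ofReal (4 / Real.pi *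
      (θ' ^ (5 / 4 : ℝ) / Real.Gamma (13 / 4) * (9 / 4 * b0 + 2 * (b1 * θ') + 24 / 13 * (b2 * θ' ^ 2) +
        384 / 221 * (b3 * θ' ^ 3)))) := by
    rw [h1]
    refine (lintegral_mono h2).trans ((lintegral_mono (lev3u hK0 hc0 hcθ2)).trans ?_)
    simp only [hpoly]
    rw [← hov, ← integral_const_mul]
    refine le_of_eq (ofReal_integral_eq_lintegral_ofReal (hoi.const_mul _)
      (Eventually.of_forall fun g => ?_)).symm
    show 0 ≤ 4 / Real.pi * (gd (1 / 4) g * (b0 * max (θ' - g) 0 + b1 * max (θ' - g) 0 ^ 2 +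
      b2 * max (θ' - g) 0 ^ 3 + b3 * max (θ' - g) 0 ^ 4))
    rw [← hpoly g]
    by_cases hg0 : 0 < g
    swap
    · rw [gd_zero hg0]; simp
    have hg := gd_nonneg (m := 1 / 4) (by norm_num) g
    have hr : 0 ≤ max (θ' - g) 0 := le_max_right _ _
    have hrθ : max (θ' - g) 0 ≤ θ' := max_le (by linarith) hθ0.le
    set r := max (θ' - g) 0 with hrd
    have h2 : c * r ≤ 1 / 2 := by
      have : c * r ≤ c * θ' := mul_le_mul_of_nonneg_left hrθ hc0
      linarith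
    have hG : 0 < 1 + K * g := by positivity
    have hKr : 0 ≤ K * r := by positivity
    have h5 : 2 * c * ((1 + K * g) * r / 3 + K * r ^ 2 / 5) ≤ (1 + K * g) + K * r / 3 := by
      have e2 : 2 * c * ((1 + K * g) * r / 3 + K * r ^ 2 / 5) =
          2 * (c * r) * ((1 + K * g) / 3 + K * r / 5) := by ring
      rw [e2]
      calc 2 * (c * r) * ((1 + K * g) / 3 + K * r / 5) ≤ 1 * ((1 + K * g) / 3 + K * r / 5) :=
            mul_le_mul_of_nonneg_right (by linarith) (by positivity)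
        _ ≤ _ := by linarith
    have h6 : 0 ≤ ((1 + K * g) + K * r / 3) - 2 * c * ((1 + K * g) * r / 3 + K * r ^ 2 / 5) := by
      linarith
    have h7 : 0 ≤ (1 + K * g) + K * r / 3 := by positivity
    positivity
  have hQ : 9 / 4 * b0 + 2 * (b1 * θ') + 24 / 13 * (b2 * θ' ^ 2) + 384 / 221 * (b3 * θ' ^ 3) =
      Q3 E θ' := by
    have e1 : b1 * θ' = -(4 / 3) * (K * θ') * E - 2 / 3 * (c * θ') * E ^ 2 := by rw [hb1]; ring
    have e2 : b2 * θ' ^ 2 = 4 / 9 * (K * θ') ^ 2 + 32 / 45 * (c * θ') * (K * θ') * E := by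
      rw [hb2]; ring
    have e3 : b3 * θ' ^ 3 = -(8 / 45) * (c * θ') * (K * θ') ^ 2 := by rw [hb3]; ring
    rw [e1, e2, e3, hKθ, hcθ]
    unfold Q3
    rw [hb0]
  rw [hQ] at h3
  have hpos : 0 ≤ 4 / Real.pi * (θ' ^ (5 / 4 : ℝ) / Real.Gamma (13 / 4) * Q3 E θ') := by
    have hQ0 : 0 ≤ Q3 E θ' := by
      unfold Q3
      have t1 : 0 ≤ (1 - θ') * (E - 1) ^ 2 := mul_nonneg (by linarith) (sq_nonneg _)
      have t2 : 0 ≤ (1 - θ') * (E - 1) * E := by
        have : 0 ≤ (1 - θ') * (E - 1) := mul_nonneg (by linarith) (by linarith)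
        positivity
      have t3 : (1 - θ') * E ^ 2 ≤ 1 / 2 * E ^ 2 := mul_le_mul_of_nonneg_right (by linarith) (sq_nonneg _)
      have t4 : (1 - θ') * (E - 1) ^ 2 ≤ 1 / 2 * (E - 1) ^ 2 :=
        mul_le_mul_of_nonneg_right (by linarith) (sq_nonneg _)
      nlinarith [sq_nonneg (E - 1), sq_nonneg E, mul_nonneg (show 0 ≤ E - 1 by linarith)
        (show 0 ≤ E by linarith)]
    have := Real.Gamma_pos_of_pos (show (0 : ℝ) < 13 / 4 by norm_num)
    positivity
  exact (ENNReal.ofReal_le_ofReal_iff hpos).1 h3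

end

end Pool.Agent.L7h20.TM3
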