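import Pool.Agent.L7h20.TM3.Sb
import Pool.Agent.L7h20.TM3.Hp
import Pool.Agent.H176RZ.Window
import Pool.Agent.H262R4.TM.TW
import Pool.Agent.W184.Close

set_option autoImplicit false

/-! Integrals against the weight `om * |zeta|^2`. -/

namespace Pool.Agent.L7h20.TM3

open Filter Topology MeasureTheory Complex
open Pool.Agent.H306R2 Pool.Agent.H306R2.SM
open Pool.Agent.H262R4.TM (P_TSM2 Rng Ck)
open Pool.Agent.W184

noncomputable section

/-- continuous nonnegative functions of at most linear growth -/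
structure Gr (f : ℝ → ℝ) (B : ℝ) : Prop where
  cont : Continuous f
  nn : ∀ x, 0 ≤ f x
  bd : ∀ x, f x ≤ B * (1 + |x|)

lemma Gr.B0 {f : ℝ → ℝ} {B : ℝ} (h : Gr f B) : 0 ≤ B := by
  have := (h.nn 0).trans (h.bd 0)
  simpa using this

/-- weighted mean of the shifted function -/
def EV (k : ℕ) (T : ℝ) (f : ℝ → ℝ) (v : ℝ) : ℝ := ∫ t in Set.Ioi (0 : ℝ), wt k T t * f (t + v)

/-- first moment of the weight -/
def m1 (k : ℕ) (T : ℝ) : ℝ := ∫ t in Set.Ioi (0 : ℝ), wt k T t * (1 + t)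

lemma wt_nn {k : ℕ} {T t : ℝ} (hT : 0 < T) (ht : 0 ≤ t) : 0 ≤ wt k T t :=
  mul_nonneg (Pool.Agent.H965R2.SMT1.om_nonneg (by positivity) ht) (sq_nonneg _)

lemma zeta_cl_cont : Continuous (fun t : ℝ => riemannZeta (cl t)) := Pool.Agent.H262R4.TM.TTW.zeta_cont

lemma zeta_cl_bd {t : ℝ} (ht : 0 ≤ t) : ‖riemannZeta (cl t)‖ ^ 2 ≤ 576 * (1 + t) ^ 4 :=
  Pool.Agent.H262R4.TM.TTW.z2_bound ht

lemma wt_cont (k : ℕ) (T : ℝ) : Continuous (wt k T) := by
  unfold wt om
  have := zeta_cl_cont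
  fun_prop

lemma wt_intg {k : ℕ} {T : ℝ} (hT : 0 < T) (hk : 1 ≤ k) {g : ℝ → ℝ} (hg : Continuous g)
    (hb : ∃ C : ℝ, ∃ A : ℕ, ∀ t : ℝ, 0 ≤ t → |g t| ≤ C * (1 + t) ^ A) :
    IntegrableOn (fun t => wt k T t * g t) (Set.Ioi 0) := by
  obtain ⟨C, A, h⟩ := hb
  have hk0 : (0 : ℝ) < k := by exact_mod_cast hk
  have h1 := om_intR k (δ := k / T) (by positivity)
    (f := fun t => ‖riemannZeta (cl t)‖ ^ 2 * g t) ((zeta_cl_cont.norm.pow 2).mul hg)
    ⟨576 * C, 4 + A, fun t ht => by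
      rw [abs_mul, abs_of_nonneg (sq_nonneg _)]
      have h2 := zeta_cl_bd ht
      have h3 := h t ht
      calc ‖riemannZeta (cl t)‖ ^ 2 * |g t| ≤ (576 * (1 + t) ^ 4) * (C * (1 + t) ^ A) :=
            mul_le_mul h2 h3 (abs_nonneg _) (by positivity)
        _ = _ := by rw [pow_add]; ring⟩
  refine h1.congr_fun (fun t _ => ?_) measurableSet_Ioi
  simp only [wt]
  ring

lemma one_add_abs {t v : ℝ} (ht : 0 ≤ t) : 1 + |t + v| ≤ (1 + |v|) * (1 + t) := by
  have h1 := abs_add_le t v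
  rw [abs_of_nonneg ht] at h1
  nlinarith [mul_nonneg (abs_nonneg v) ht]

lemma wt_int {k : ℕ} {T : ℝ} (hT : 0 < T) (hk : 1 ≤ k) {f : ℝ → ℝ} {B : ℝ} (hf : Gr f B) (v : ℝ) :
    IntegrableOn (fun t => wt k T t * f (t + v)) (Set.Ioi 0) := by
  refine wt_intg hT hk (g := fun t => f (t + v)) (hf.cont.comp (by fun_prop))
    ⟨B * (1 + |v|), 1, fun t ht => ?_⟩
  rw [abs_of_nonneg (hf.nn _), pow_one]
  refine (hf.bd _).trans ?_
  rw [mul_assoc]
  exact mul_le_mul_of_nonneg_left (one_add_abs ht) hf.B0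

lemma m1_int {k : ℕ} {T : ℝ} (hT : 0 < T) (hk : 1 ≤ k) :
    IntegrableOn (fun t => wt k T t * (1 + t)) (Set.Ioi 0) := by
  refine wt_intg hT hk (by fun_prop) ⟨1, 1, fun t ht => ?_⟩
  rw [abs_of_nonneg (by linarith)]
  linarith

lemma m1_nn {k : ℕ} {T : ℝ} (hT : 0 < T) : 0 ≤ m1 k T := by
  refine setIntegral_nonneg measurableSet_Ioi fun t ht => ?_
  have ht0 : (0 : ℝ) ≤ t := le_of_lt ht
  exact mul_nonneg (wt_nn hT ht0) (by linarith)

lemma EV_nn {k : ℕ} {T : ℝ} (hT : 0 < T) {f : ℝ → ℝ} {B : ℝ} (hf : Gr f B) (v : ℝ) :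
    0 ≤ EV k T f v :=
  setIntegral_nonneg measurableSet_Ioi fun _ ht => mul_nonneg (wt_nn hT (le_of_lt ht)) (hf.nn _)

lemma EV_le {k : ℕ} {T : ℝ} (hT : 0 < T) (hk : 1 ≤ k) {f : ℝ → ℝ} {B : ℝ} (hf : Gr f B) (v : ℝ) :
    EV k T f v ≤ B * (1 + |v|) * m1 k T := by
  unfold EV m1
  rw [← integral_const_mul]
  refine setIntegral_mono_on (wt_int hT hk hf v) ((m1_int hT hk).const_mul _) measurableSet_Ioi
    fun t ht => ?_
  have ht0 : (0 : ℝ) ≤ t := le_of_lt ht
  calc wt k T t * f (t + v) ≤ wt k T t * (B * ((1 + |v|) * (1 + t))) := by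
        refine mul_le_mul_of_nonneg_left ?_ (wt_nn hT ht0)
        exact (hf.bd _).trans (mul_le_mul_of_nonneg_left (one_add_abs ht0) hf.B0)
    _ = _ := by ring

lemma EV_add {k : ℕ} {T : ℝ} (hT : 0 < T) (hk : 1 ≤ k) {f g h : ℝ → ℝ} {B C D : ℝ} (hf : Gr f B)
    (hg : Gr g C) (hh : Gr h D) (H : ∀ x, f x ≤ g x + h x) (v : ℝ) :
    EV k T f v ≤ EV k T g v + EV k T h v := by
  unfold EV
  rw [← integral_add (wt_int hT hk hg v) (wt_int hT hk hh v)]
  refine setIntegral_mono_on (wt_int hT hk hf v) ((wt_int hT hk hg v).add (wt_int hT hk hh v))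
    measurableSet_Ioi fun t ht => ?_
  rw [← mul_add]
  exact mul_le_mul_of_nonneg_left (H _) (wt_nn hT (le_of_lt ht))

/-- convolution with a kernel -/
theorem EV_conv {k : ℕ} {T : ℝ} (hT : 0 < T) (hk : 1 ≤ k) {K G f : ℝ → ℝ} {A B D U M v : ℝ}
    (hA : 0 ≤ A) (hU : 1 ≤ U) (hM : 0 ≤ M) (hKc : Continuous K) (hK0 : ∀ w, 0 ≤ K w)
    (hKb : ∀ w, K w ≤ A * (1 + w ^ 2) ^ (-(16:ℝ))) (hKm : ∫ w, K w ≤ 1)
    (hG : Gr G B) (hf : Gr f D) (hfG : ∀ t, f t ≤ ∫ w, K w * G (t + w))
    (hsup : ∀ v', |v' - v| ≤ U → EV k T G v' ≤ M) :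
    EV k T f v ≤ M + B * (1 + |v|) * m1 k T * (2 * Real.pi * A * U ^ (-(29:ℝ))) := by
  obtain ⟨i1, i2, i3⟩ := tail_int (A := A) (U := U) hA hU hKc hK0 hKb
  have hB := hG.B0
  have hm1 := m1_nn (k := k) hT
  have hconv : ∀ t, Integrable (fun w => K w * G (t + w)) := fun t =>
    conv_int hB hKc hK0 i2 hG.cont hG.nn hG.bd t
  have hmeasS : MeasurableSet {w : ℝ | U < |w|} := measurableSet_lt measurable_const measurable_abs
  set R : ℝ → ℝ := fun w => K w * M + (B * (1 + |v|) * m1 k T) *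
    ({w : ℝ | U < |w|}.indicator (fun w => K w * (1 + |w|)) w) with hR
  have hR2i : Integrable ({w : ℝ | U < |w|}.indicator (fun w => K w * (1 + |w|))) :=
    i2.indicator hmeasS
  have hRi : Integrable R := (i1.mul_const M).add (hR2i.const_mul _)
  have hind0 : ∀ w, 0 ≤ ({w : ℝ | U < |w|}.indicator (fun w => K w * (1 + |w|)) w) := fun w =>
    Set.indicator_nonneg (fun w _ => mul_nonneg (hK0 w) (by positivity)) w
  have hR0 : ∀ w, 0 ≤ R w := fun w => by
    have h1 := hK0 w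
    have h2 := hind0 w
    simp only [hR]
    positivity
  have hRint : ∫ w, R w ≤ M + B * (1 + |v|) * m1 k T * (2 * Real.pi * A * U ^ (-(29:ℝ))) := by
    simp only [hR]
    rw [integral_add (i1.mul_const M) (hR2i.const_mul _), integral_mul_const, integral_const_mul,
      integral_indicator hmeasS]
    have h1 : (∫ w, K w) * M ≤ 1 * M := mul_le_mul_of_nonneg_right hKm hM
    have h2 : B * (1 + |v|) * m1 k T * ∫ w in {w : ℝ | U < |w|}, K w * (1 + |w|) ≤
        B * (1 + |v|) * m1 k T * (2 * Real.pi * A * U ^ (-(29:ℝ))) :=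
      mul_le_mul_of_nonneg_left i3 (by positivity)
    linarith
  refine le_trans ?_ hRint
  have hR00 : 0 ≤ ∫ w, R w := integral_nonneg hR0
  rw [← ENNReal.ofReal_le_ofReal_iff hR00, ofReal_integral_eq_lintegral_ofReal hRi
    (Eventually.of_forall hR0)]
  unfold EV
  rw [ofReal_integral_eq_lintegral_ofReal (wt_int hT hk hf v) ((ae_restrict_iff'
    measurableSet_Ioi).2 (Eventually.of_forall fun t ht =>
      mul_nonneg (wt_nn hT (le_of_lt ht)) (hf.nn _)))]
  have hstep1 : ∫⁻ t in Set.Ioi (0 : ℝ), ENNReal.ofReal (wt k T t * f (t + v)) ≤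
      ∫⁻ t in Set.Ioi (0 : ℝ), ∫⁻ w, ENNReal.ofReal (wt k T t * (K w * G (t + v + w))) := by
    apply setLIntegral_mono' measurableSet_Ioi
    intro t ht
    have hw := wt_nn (k := k) hT (le_of_lt ht)
    have h1 : wt k T t * f (t + v) ≤ ∫ w, wt k T t * (K w * G (t + v + w)) := by
      rw [integral_const_mul]
      exact mul_le_mul_of_nonneg_left (hfG _) hw
    refine (ENNReal.ofReal_le_ofReal h1).trans (le_of_eq ?_)
    exact ofReal_integral_eq_lintegral_ofReal ((hconv (t + v)).const_mul _)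
      (Eventually.of_forall fun w => mul_nonneg hw (mul_nonneg (hK0 w) (hG.nn _)))
  have hmeas : Measurable (Function.uncurry fun (t w : ℝ) =>
      ENNReal.ofReal (wt k T t * (K w * G (t + v + w)))) := by
    have h1 := (wt_cont k T).measurable
    have h2 := hKc.measurable
    have h3 := hG.cont.measurable
    unfold Function.uncurry
    fun_prop
  rw [lintegral_lintegral_swap hmeas.aemeasurable] at hstep1
  refine hstep1.trans (lintegral_mono fun w => ?_)
  have hshift : IntegrableOn (fun t => wt k T t * G (t + (v + w))) (Set.Ioi 0) :=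
    wt_int hT hk hG (v + w)
  have h1 : ∫⁻ t in Set.Ioi (0 : ℝ), ENNReal.ofReal (wt k T t * (K w * G (t + v + w))) =
      ENNReal.ofReal (K w * EV k T G (v + w)) := by
    have h2 : ∀ t : ℝ, wt k T t * (K w * G (t + v + w)) = K w * (wt k T t * G (t + (v + w))) := by
      intro t
      rw [add_assoc]; ring
    simp only [h2]
    rw [← ofReal_integral_eq_lintegral_ofReal (hshift.const_mul (K w)) ((ae_restrict_iff'
      measurableSet_Ioi).2 (Eventually.of_forall fun t ht => mul_nonneg (hK0 w)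
        (mul_nonneg (wt_nn hT (le_of_lt ht)) (hG.nn _)))), integral_const_mul]
    rfl
  simp only
  rw [h1]
  apply ENNReal.ofReal_le_ofReal
  simp only [hR]
  by_cases hw : U < |w|
  · rw [Set.indicator_of_mem (show w ∈ {w : ℝ | U < |w|} from hw)]
    have h3 := EV_le hT hk hG (v + w)
    have h4 : 1 + |v + w| ≤ (1 + |v|) * (1 + |w|) := by
      have := abs_add_le v w
      nlinarith [mul_nonneg (abs_nonneg v) (abs_nonneg w)]
    have h5 : EV k T G (v + w) ≤ B * ((1 + |v|) * (1 + |w|)) * m1 k T := by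
      refine h3.trans ?_
      gcongr
    have h6 := mul_le_mul_of_nonneg_left h5 (hK0 w)
    have h7 : 0 ≤ K w * M := mul_nonneg (hK0 w) hM
    calc K w * EV k T G (v + w) ≤ K w * (B * ((1 + |v|) * (1 + |w|)) * m1 k T) := h6
      _ ≤ K w * M + K w * (B * ((1 + |v|) * (1 + |w|)) * m1 k T) := by linarith
      _ = _ := by ring
  · rw [Set.indicator_of_notMem (show w ∉ {w : ℝ | U < |w|} from hw), mul_zero, add_zero]
    refine mul_le_mul_of_nonneg_left (hsup _ ?_) (hK0 w)
    rw [add_sub_cancel_left]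
    exact not_lt.1 hw

/-- tail of the Gamma weight -/
theorem om_tail : ∀ᶠ T : ℝ in atTop, ∀ k : ℕ, Rng T k →
    ∫ t in Set.Ioi (3 * T), om k (k / T) t * (1 + t) ^ 6 ≤ 1 := by
  filter_upwards [Real.tendsto_log_atTop.eventually_ge_atTop 400, eventually_ge_atTop 1]
    with T hL hT1 k hk
  have hT0 : 0 < T := by linarith
  set L := Real.log T with hLd
  have hL0 : 0 < L := by linarith
  have hexpL : Real.exp L = T := Real.exp_log hT0
  have hk1 : 1 ≤ k := by
    have : (1 : ℝ) ≤ k := by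
      refine le_trans ?_ hk.1
      nlinarith
    exact_mod_cast this
  have hk0 : (0 : ℝ) < k := by exact_mod_cast hk1
  have hδ : 0 < (k : ℝ) / T := by positivity
  have hpt : ∀ t ∈ Set.Ioi (3 * T), om k (k / T) t * (1 + t) ^ 6 ≤ t ^ (-2 : ℝ) := by
    intro t ht
    have ht3 : 3 * T < t := ht
    have ht0 : 0 < t := by linarith
    set x := t / T with hx
    have htx : t = T * x := by rw [hx]; field_simp
    have hx3 : 3 ≤ x := by rw [hx, le_div_iff₀ hT0]; linarith
    have hx0 : 0 < x := by linarith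
    -- bound for the weight
    have h1 : om k (k / T) t ≤ (k / T) * Real.exp (-(k * x / 18)) := by
      have e1 : om k (k / T) t = (k / T) * (x ^ k * ((k : ℝ) ^ k / (k.factorial : ℝ)) *
          Real.exp (-(k * x))) := by
        unfold om
        have e2 : (k : ℝ) / T * t = k * x := by rw [hx]; ring
        rw [e2, pow_succ, mul_comm ((k / T : ℝ) ^ k), mul_assoc (k / T : ℝ), ← mul_pow, e2, mul_pow]
        ring
      have e3 : (k : ℝ) ^ k / (k.factorial : ℝ) ≤ Real.exp k := Real.pow_div_factorial_le_exp _ hk0.le k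
      have e4 : x ^ k * Real.exp k * Real.exp (-(k * x)) = (x * Real.exp (1 - x)) ^ k := by
        rw [mul_pow, ← Real.exp_nat_mul, mul_assoc, ← Real.exp_add]
        congr 2; ring
      have e5 : x * Real.exp (1 - x) ≤ Real.exp (-(1 / 18 * x)) := by
        have g1 := Pool.Agent.H965R2.SMT1.gam (v0 := 2) (v := x) (by norm_num) (by linarith)
        have g2 := Pool.Agent.H176RZ.gam_lower (v := 2) (by norm_num) (by norm_num)
        refine g1.trans (Real.exp_le_exp.2 ?_)
        have g3 : (1 : ℝ) / 18 ≤ (2 - 1 - Real.log 2) / 2 := by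
          refine le_trans ?_ g2
          norm_num
        have := mul_le_mul_of_nonneg_right g3 hx0.le
        linarith
      rw [e1]
      refine mul_le_mul_of_nonneg_left ?_ hδ.le
      calc x ^ k * ((k : ℝ) ^ k / (k.factorial : ℝ)) * Real.exp (-(k * x)) ≤
            x ^ k * Real.exp k * Real.exp (-(k * x)) := by gcongr
        _ = (x * Real.exp (1 - x)) ^ k := e4
        _ ≤ (Real.exp (-(1 / 18 * x))) ^ k := pow_le_pow_left₀ (by positivity) e5 k
        _ = _ := by rw [← Real.exp_nat_mul]; congr 1; ring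
    have h2 : (1 + t) ^ 6 ≤ (2 * t) ^ 6 := pow_le_pow_left₀ (by linarith) (by linarith) 6
    have h3 : (k : ℝ) / T * Real.exp (-(k * x / 18)) ≤ (4 * L ^ 2) * Real.exp (-(L ^ 2 * x / 18)) := by
      have a1 : (k : ℝ) / T ≤ 4 * L ^ 2 := by
        rw [div_le_iff₀ hT0]
        have := hk.2
        have h0 : 0 ≤ 4 * L ^ 2 := by positivity
        nlinarith
      have a2 : Real.exp (-(k * x / 18)) ≤ Real.exp (-(L ^ 2 * x / 18)) := by
        apply Real.exp_le_exp.2
        have := mul_le_mul_of_nonneg_right hk.1 hx0.le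
        linarith
      exact mul_le_mul a1 a2 (Real.exp_pos _).le (by positivity)
    -- everything is small
    have q0 : 1 ≤ L * x := by nlinarith
    have q1 : (256 : ℝ) ≤ Real.exp (L * x) := by
      have b1 : (1200 : ℝ) ≤ L * x := by nlinarith
      have := Real.add_one_le_exp (L * x)
      linarith
    have q2 : L ^ 2 ≤ Real.exp (L * x) ^ 2 := by
      refine pow_le_pow_left₀ hL0.le ?_ 2
      have := Real.add_one_le_exp (L * x)
      nlinarith
    have q3 : T ≤ Real.exp (L * x) := by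
      conv_lhs => rw [← hexpL]
      apply Real.exp_le_exp.2
      nlinarith
    have q4 : x ≤ Real.exp (L * x) := by
      have := Real.add_one_le_exp (L * x)
      nlinarith
    have hE := Real.exp_pos (L * x)
    have q5 : Real.exp (-(L ^ 2 * x / 18)) ≤ (Real.exp (L * x) ^ 19)⁻¹ := by
      rw [← Real.exp_nat_mul, ← Real.exp_neg]
      apply Real.exp_le_exp.2
      push_cast
      have : 19 * (L * x) ≤ L ^ 2 * x / 18 := by
        have : 342 * (L * x) ≤ L * (L * x) := mul_le_mul_of_nonneg_right (by linarith) (by positivity)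
        nlinarith
      linarith
    set E := Real.exp (L * x) with hEd
    have h4 : t ^ (-2 : ℝ) = (t ^ 2)⁻¹ := by
      rw [Real.rpow_neg ht0.le]
      norm_num
    rw [h4, ← one_div, le_div_iff₀ (by positivity)]
    calc om k (k / T) t * (1 + t) ^ 6 * t ^ 2 ≤
          ((4 * L ^ 2) * (E ^ 19)⁻¹) * (2 * t) ^ 6 * t ^ 2 := by
          refine mul_le_mul_of_nonneg_right ?_ (by positivity)
          refine mul_le_mul (h1.trans (h3.trans (mul_le_mul_of_nonneg_left q5 (by positivity)))) h2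
            (by positivity) (by positivity)
      _ = 256 * L ^ 2 * (T ^ 8 * x ^ 8) * (E ^ 19)⁻¹ := by rw [htx]; ring
      _ ≤ E * E ^ 2 * (E ^ 8 * E ^ 8) * (E ^ 19)⁻¹ := by gcongr
      _ = 1 := by field_simp
  have hi1 : IntegrableOn (fun t : ℝ => om k (k / T) t * (1 + t) ^ 6) (Set.Ioi (3 * T)) :=
    (om_poly k 6 hδ).mono_set (Set.Ioi_subset_Ioi (by positivity))
  have hi2 : IntegrableOn (fun t : ℝ => t ^ (-2 : ℝ)) (Set.Ioi (3 * T)) :=
    integrableOn_Ioi_rpow_of_lt (by norm_num) (by positivity)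
  refine (setIntegral_mono_on hi1 hi2 measurableSet_Ioi hpt).trans ?_
  rw [integral_Ioi_rpow_of_lt (by norm_num) (by positivity)]
  norm_num
  rw [Real.rpow_neg_one]
  have : (1 : ℝ) ≤ 3 * T := by linarith
  exact inv_le_one_of_one_le₀ this

end

end Pool.Agent.L7h20.TM3
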