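import Pool.Agent.L7h20.TM3.Ev2

set_option autoImplicit false

/-! The half-plane step, the iteration, and the bound for the weighted moment. -/

namespace Pool.Agent.L7h20.TM3

open Filter Topology MeasureTheory Complex
open Pool.Agent.H306R2 Pool.Agent.H306R2.SM
open Pool.Agent.H262R4.TM (P_TSM2 Rng Ck)
open Pool.Agent.W184

noncomputable section

section
variable {v : ℕ} {θ : ℝ}

theorem EV_half (hv : 2 ≤ v) (hθ : 0 < θ) (hθ1 : θ ≤ 1) {δ ε : ℝ} (hδ : 0 ≤ δ) (hε : 0 ≤ ε)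
    (hs : 0 < δ + ε) {η : ℝ} (hη : 0 < η) :
    ∀ᶠ T : ℝ in atTop, ∀ k : ℕ, Rng T k → ∀ u M : ℝ, 0 ≤ M → |u| ≤ T →
      (∀ u', |u' - u| ≤ T ^ ((1 : ℝ) / 2) →
        EV k T (qn (Qv v θ T) (2 / (v:ℝ)) (1 / 2 - ε / Real.log T)) u' ≤ M) →
      EV k T (qn (Qv v θ T) (2 / (v:ℝ)) (1 / 2 + δ / Real.log T)) u ≤
        (Real.exp (-(2 / (v:ℝ) * (θ * (δ + ε)))) + η) * (M + 1) := by
  obtain ⟨-, -, hp, hp1⟩ := kv hv
  have hv0 : (0:ℝ) < v := by exact_mod_cast (by omega : 0 < v)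
  set p : ℝ := 2 / (v:ℝ) with hpd
  set Q0 := Real.exp (-(p * (θ * (δ + ε)))) with hQ0
  have hQ00 : 0 < Q0 := Real.exp_pos _
  have hlf := log_floor hθ
  have hfl0 : ∀ᶠ T : ℝ in atTop, (0:ℝ) < (⌊T ^ θ⌋₊ : ℝ) := by
    filter_upwards [(tendsto_rpow_atTop hθ).eventually_ge_atTop 2] with T hT
    have := Nat.lt_floor_add_one (T ^ θ)
    linarith
  -- the factor
  have hF : Tendsto (fun T : ℝ => ((1 - 8 * (δ / Real.log T)) *
      (⌊T ^ θ⌋₊ : ℝ) ^ ((δ + ε) / Real.log T) / (1 + (δ + ε) / Real.log T) ^ (2 * (8 * v))) ^ p *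
      ((1 / 2 - ε / Real.log T) / (1 - (1 / 2 - ε / Real.log T))) ^ p) atTop
      (𝓝 (Real.exp (p * ((δ + ε) * θ)))) := by
    have h1 : Tendsto (fun T : ℝ => 1 - 8 * (δ / Real.log T)) atTop (𝓝 (1 - 8 * 0)) :=
      ((delta_tendsto δ).const_mul 8).const_sub 1
    have h2 : Tendsto (fun T : ℝ => (1 + (δ + ε) / Real.log T) ^ (2 * (8 * v))) atTop
        (𝓝 ((1 + 0) ^ (2 * (8 * v)))) := ((delta_tendsto (δ + ε)).const_add 1).pow _
    have h3 : Tendsto (fun T : ℝ => (⌊T ^ θ⌋₊ : ℝ) ^ ((δ + ε) / Real.log T)) atTop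
        (𝓝 (Real.exp ((δ + ε) * θ))) := by
      have h4 := (Real.continuous_exp.tendsto _).comp (hlf.const_mul (δ + ε))
      refine h4.congr' ?_
      filter_upwards [hfl0] with T hT
      simp only [Function.comp]
      rw [Real.rpow_def_of_pos hT]
      congr 1
      ring
    have h5 := ((h1.mul h3).div h2 (by norm_num)).rpow_const (p := p) (Or.inr hp.le)
    have h6 : Tendsto (fun T : ℝ => (1 / 2 - ε / Real.log T)) atTop (𝓝 (1 / 2 - 0)) :=
      (delta_tendsto ε).const_sub (1 / 2)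
    have h7 := (h6.div (h6.const_sub 1) (by norm_num)).rpow_const (p := p) (Or.inr hp.le)
    refine (h5.mul h7).trans (le_of_eq ?_)
    congr 1
    rw [mul_zero, sub_zero, one_mul, add_zero, one_pow, div_one, ← Real.exp_mul]
    have e1 : ((1:ℝ) / 2 - 0) / (1 - (1 / 2 - 0)) = 1 := by norm_num
    rw [e1, Real.one_rpow, mul_one]
    congr 1; ring
  have hFi := (hF.inv₀ (Real.exp_pos _).ne').eventually_le_const
    (show (Real.exp (p * ((δ + ε) * θ)))⁻¹ < Q0 + η by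
      rw [← Real.exp_neg, hQ0, show -(p * ((δ + ε) * θ)) = -(p * (θ * (δ + ε))) by ring]
      linarith)
  have hFp := hF.eventually_const_lt (Real.exp_pos (p * ((δ + ε) * θ)))
  -- the tail
  have hsm := small_pow (-(9 / 2)) 1 (26 * (2 * Real.pi * (1 / (δ + ε)))) (by norm_num)
  filter_upwards [hFi, hFp, hsm, m1_ev, base_ev, hfl0, dsmall δ (show (0:ℝ) < 1/8 by norm_num),
    dsmall ε (show (0:ℝ) < 1/8 by norm_num), eventually_ge_atTop 12]
    with T h1 h2 h3 h4 h5 h6 h7 h8 h9 k hk u M hM hu hsup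
  obtain ⟨hT1, hL, hk1⟩ := h5 k hk
  have hT0 : 0 < T := by linarith
  set L := Real.log T with hLd
  have hL0 : 0 < L := by linarith
  have h7' := abs_le.1 h7
  have h8' := abs_le.1 h8
  have hδL : 0 ≤ δ / L := by positivity
  have hεL : 0 ≤ ε / L := by positivity
  have hΔ : 0 < (δ + ε) / L := by positivity
  have hN1 : (1:ℝ) ≤ (⌊T ^ θ⌋₊ : ℝ) := by
    have : 0 < ⌊T ^ θ⌋₊ := by exact_mod_cast h6
    exact_mod_cast this
  have hN1' : 1 ≤ ⌊T ^ θ⌋₊ := by exact_mod_cast hN1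
  set b : ℝ := 1 / 2 - ε / L with hb
  have ebD : b + (δ + ε) / L = 1 / 2 + δ / L := by rw [hb]; ring
  have hb0 : 3 / 8 ≤ b := by rw [hb]; linarith
  have hb1 : b ≤ 1 / 2 := by rw [hb]; linarith
  have hMp : (((8 * v : ℕ)) : ℝ) * p = 16 := by rw [hpd]; push_cast; field_simp; norm_num
  have hQ1 : ∀ z : ℂ, b ≤ z.re → z.re ≤ 2 → ‖Qv v θ T z‖ ≤ (⌊T ^ θ⌋₊ : ℝ) ^ v := by
    intro z hz _
    unfold Qv
    rw [norm_pow]
    exact pow_le_pow_left₀ (norm_nonneg _) (Pv_le hv T (by linarith)) v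
  have hQ2 : ∀ z : ℂ, 2 ≤ z.re → ‖riemannZeta z - Qv v θ T z‖ * (⌊T ^ θ⌋₊ : ℝ) ^ z.re ≤
      (⌊T ^ θ⌋₊ : ℝ) ^ 2 * ∑' n : ℕ, 1 / (n : ℝ) ^ 2 := fun z hz =>
    zeta_sub_pow_le (by omega) hN1' hz
  have hpt := fun t => half_p (t := t) (Q := Qv v θ T) (N := (⌊T ^ θ⌋₊ : ℝ)) (b := b)
    (Δ := (δ + ε) / L) (p := p) (M := 8 * v) hp hp1 (by omega) hMp hb0 hb1 hN1 (Qv_diff T) hQ1 hQ2 hΔ
    (by rw [ebD]; linarith) (by rw [ebD]; linarith)
  rw [ebD] at hpt
  have e8 : 1 / 2 + δ / L - 1 / 2 = δ / L := by ring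
  simp only [e8] at hpt
  set Fc : ℝ := ((1 - 8 * (δ / L)) * (⌊T ^ θ⌋₊ : ℝ) ^ ((δ + ε) / L) /
    (1 + (δ + ε) / L) ^ (2 * (8 * v))) ^ p with hFc
  have hρ : 0 < (1 - b) / b := div_pos (by linarith) (by linarith)
  have hρp : 0 < ((1 - b) / b) ^ p := by positivity
  have hinv : (b / (1 - b)) ^ p * ((1 - b) / b) ^ p = 1 := by
    rw [← Real.mul_rpow (by apply div_nonneg <;> linarith) hρ.le]
    have : b / (1 - b) * ((1 - b) / b) = 1 := by
      have u1 : b ≠ 0 := by linarith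
      have u2 : 1 - b ≠ 0 := by linarith
      field_simp
    rw [this, Real.one_rpow]
  have hbp : 0 ≤ (b / (1 - b)) ^ p := by
    have : 0 ≤ b / (1 - b) := div_nonneg (by linarith) (by linarith)
    positivity
  set FF : ℝ := Fc * (b / (1 - b)) ^ p with hFF
  have hFF0 : 0 < FF := h2
  obtain ⟨k1, k2, k3, k4⟩ := Pool.Agent.R313.FM.K16 hΔ
  have hGq := Gr_qv (v := v) (θ := θ) hv hθ1 hT1.le hb0 (by linarith)
  have hGf := Gr_qv (v := v) (θ := θ) (σ := 1 / 2 + δ / L) hv hθ1 hT1.le (by linarith) (by linarith)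
  have hGf' : Gr (fun t => FF * qn (Qv v θ T) p (1 / 2 + δ / L) t) (FF * (12 + T ^ 2)) := by
    refine ⟨continuous_const.mul hGf.cont, fun x => mul_nonneg hFF0.le (hGf.nn x), fun x => ?_⟩
    exact (mul_le_mul_of_nonneg_left (hGf.bd x) hFF0.le).trans (le_of_eq (by ring))
  have hU1 : 1 ≤ T ^ ((1 : ℝ) / 2) := Real.one_le_rpow hT1.le (by norm_num)
  have hmain := EV_conv hT0 hk1 (v := u) (A := 1 / ((δ + ε) / L)) (M := M) (U := T ^ ((1 : ℝ) / 2))
    (by positivity) hU1 hM k1 k2 k3 k4 hGq hGf' (fun t => by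
      have h := hpt t
      have h' := mul_le_mul_of_nonneg_left h hbp
      rw [← mul_assoc ((b / (1 - b)) ^ p) (((1 - b) / b) ^ p), hinv, one_mul] at h'
      refine le_trans (le_of_eq ?_) h'
      rw [hFF]; ring) hsup
  have hEF : EV k T (fun t => FF * qn (Qv v θ T) p (1 / 2 + δ / L) t) u =
      FF * EV k T (qn (Qv v θ T) p (1 / 2 + δ / L)) u := by
    unfold EV
    rw [← integral_const_mul]
    refine integral_congr_ae (Eventually.of_forall fun t => ?_)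
    simp only
    ring
  rw [hEF] at hmain
  have htail : (12 + T ^ 2) * (1 + |u|) * m1 k T *
      (2 * Real.pi * (1 / ((δ + ε) / L)) * (T ^ ((1 : ℝ) / 2)) ^ (-(29:ℝ))) ≤ 1 := by
    have b2 : (T ^ ((1:ℝ)/2)) ^ (-(29:ℝ)) = T ^ (-(29/2:ℝ)) := by
      rw [← Real.rpow_mul hT0.le]; norm_num
    have b3 : (12 + T ^ 2) * (1 + |u|) * m1 k T ≤ 26 * T ^ (10 : ℝ) := by
      have e10 : T ^ (10:ℝ) = T ^ 10 := by exact_mod_cast Real.rpow_natCast T 10
      rw [e10]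
      have c1 : 1 + |u| ≤ 2 * T := by linarith
      have c2 : 12 + T ^ 2 ≤ 13 * T ^ 2 := by nlinarith
      have c3 := h4 k hk
      have c4 := m1_nn (k := k) hT0
      calc (12 + T ^ 2) * (1 + |u|) * m1 k T ≤ (13 * T ^ 2) * (2 * T) * T ^ 7 := by gcongr
        _ = 26 * T ^ 10 := by ring
    have b4 : T ^ (10:ℝ) * T ^ (-(29/2:ℝ)) = T ^ (-(9 / 2) : ℝ) := by
      rw [← Real.rpow_add hT0]; norm_num
    rw [b2]
    have hpi := Real.pi_pos
    calc (12 + T ^ 2) * (1 + |u|) * m1 k T *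
          (2 * Real.pi * (1 / ((δ + ε) / L)) * T ^ (-(29/2:ℝ))) ≤
        (26 * T ^ (10:ℝ)) * (2 * Real.pi * (1 / ((δ + ε) / L)) * T ^ (-(29/2:ℝ))) := by
          gcongr
      _ = 26 * (2 * Real.pi * (1 / (δ + ε))) * (T ^ (-(9 / 2) : ℝ) * L ^ (1:ℝ)) := by
          rw [← b4, Real.rpow_one]
          field_simp
      _ ≤ 1 := h3
  have h10 : FF * EV k T (qn (Qv v θ T) p (1 / 2 + δ / L)) u ≤ M + 1 := by linarith
  have h11 : EV k T (qn (Qv v θ T) p (1 / 2 + δ / L)) u ≤ FF⁻¹ * (M + 1) := by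
    rw [← div_eq_inv_mul, le_div_iff₀ hFF0]
    linarith
  exact h11.trans (mul_le_mul_of_nonneg_right h1 (by linarith))

/-- the crude bound -/
lemma crude_ev (hv : 2 ≤ v) (hθ1 : θ ≤ 1) (δ : ℝ) :
    ∀ᶠ T : ℝ in atTop, ∀ k : ℕ, Rng T k → ∀ u : ℝ, |u| ≤ T →
      EV k T (qn (Qv v θ T) (2 / (v:ℝ)) (1 / 2 - δ / Real.log T)) u ≤ T ^ 11 := by
  filter_upwards [m1_ev, base_ev, dsmall δ (show (0:ℝ) < 1/8 by norm_num), eventually_ge_atTop 26]
    with T h4 h5 h8 h9 k hk u hu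
  obtain ⟨hT1, hL, hk1⟩ := h5 k hk
  have hT0 : 0 < T := by linarith
  have h8' := abs_le.1 h8
  have hG := Gr_qv (v := v) (θ := θ) (σ := 1 / 2 - δ / Real.log T) hv hθ1 hT1.le (by linarith) (by linarith)
  refine (EV_le hT0 hk1 hG u).trans ?_
  have c1 : 1 + |u| ≤ 2 * T := by linarith
  have c2 : 12 + T ^ 2 ≤ 13 * T ^ 2 := by nlinarith
  have c3 := h4 k hk
  have c4 := m1_nn (k := k) hT0
  calc (12 + T ^ 2) * (1 + |u|) * m1 k T ≤ (13 * T ^ 2) * (2 * T) * T ^ 7 := by gcongr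
    _ = 26 * T ^ 10 := by ring
    _ ≤ T * T ^ 10 := mul_le_mul_of_nonneg_right h9 (by positivity)
    _ = T ^ 11 := by ring

lemma exists_small2 {Φ : ℝ → ℝ} {c : ℝ} (hΦ : ContinuousAt Φ 0) (h0 : Φ 0 < c) (P : ℝ → Prop)
    (hP : ∀ᶠ η in 𝓝[>] (0:ℝ), P η) : ∃ η : ℝ, 0 < η ∧ Φ η < c ∧ P η := by
  have h1 : ∀ᶠ η in 𝓝[>] (0:ℝ), Φ η < c :=
    (hΦ.eventually (gt_mem_nhds h0)).filter_mono nhdsWithin_le_nhds
  obtain ⟨η, h2, h3, h4⟩ := (h1.and (hP.and self_mem_nhdsWithin)).exists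
  exact ⟨η, h4, h2, h3⟩

/-- the bound on the line `1/2 - δ / log T` -/
theorem D_ev (hTSM : P_TSM2) (hv : 2 ≤ v) (hθ : 0 < θ) (hθ1 : θ ≤ 1) {δ : ℝ} (hδ : 0 < δ)
    (hθ2 : 1 / 2 < θ) {e : ℝ} (he : 1 < e) {s1 s2 : ℝ} (hs1 : 0 ≤ s1) (hs2 : 0 ≤ s2)
    (H1 : ∀ᶠ T : ℝ in atTop, ∀ k : ℕ, Rng T k → ∀ u : ℝ,
      EV k T (pv v θ T (1 / 2 + δ / Real.log T)) u ≤ s1 * Real.log T ^ e)
    (H2 : ∀ᶠ T : ℝ in atTop, ∀ k : ℕ, Rng T k → ∀ u : ℝ,
      EV k T (pv v θ T (1 / 2 - δ / Real.log T)) u ≤ s2 * Real.log T ^ e)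
    {X : ℝ} (hX : (Real.exp (2 / (v:ℝ) * δ) * s1 + s2) /
      (1 - Real.exp (-(2 / (v:ℝ) * ((2 * θ - 1) * δ)))) < X) :
    ∀ᶠ T : ℝ in atTop, ∀ k : ℕ, Rng T k → ∀ u : ℝ, |u| ≤ T ^ ((1 : ℝ) / 2) →
      EV k T (qn (Qv v θ T) (2 / (v:ℝ)) (1 / 2 - δ / Real.log T)) u ≤ X * Real.log T ^ e := by
  obtain ⟨-, -, hp, hp1⟩ := kv hv
  set p : ℝ := 2 / (v:ℝ) with hpd
  set E := Real.exp (p * δ) with hE
  set Q := Real.exp (-(p * (θ * (δ + δ)))) with hQ
  have hE0 : 0 < E := Real.exp_pos _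
  have hQ0 : 0 < Q := Real.exp_pos _
  have hEQ : E * Q = Real.exp (-(p * ((2 * θ - 1) * δ))) := by
    rw [hE, hQ, ← Real.exp_add]; congr 1; ring
  have hEQ1 : E * Q < 1 := by
    rw [hEQ, Real.exp_lt_one_iff]
    have : 0 < p * ((2 * θ - 1) * δ) := by
      have : 0 < 2 * θ - 1 := by linarith
      positivity
    linarith
  set Af : ℝ → ℝ := fun η => (E + η) * (s1 + (Q + η) * η + η) + η + s2 with hAf
  set Φ : ℝ → ℝ := fun η => Af η / (1 - (E + η) * (Q + η)) + η with hΦ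
  have hΦ0 : Φ 0 < X := by
    refine lt_of_eq_of_lt ?_ hX
    simp only [hΦ, hAf]
    rw [← hEQ]
    ring
  have hcont : ContinuousAt Φ 0 := by
    simp only [hΦ, hAf]
    refine ContinuousAt.add (ContinuousAt.div (by fun_prop) (by fun_prop) ?_) (by fun_prop)
    simp only [add_zero]
    linarith
  have hcont2 : ContinuousAt (fun η : ℝ => (E + η) * (Q + η)) 0 := by fun_prop
  obtain ⟨η, hη, h1, h2⟩ := exists_small2 hcont hΦ0 (fun η => (E + η) * (Q + η) < 1)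
    ((hcont2.eventually (gt_mem_nhds (by simpa using hEQ1))).filter_mono nhdsWithin_le_nhds)
  set q := (E + η) * (Q + η) with hq
  have hq0 : 0 < q := by positivity
  have h1q : 0 < 1 - q := by linarith
  set A := Af η with hA
  have hA0 : 0 ≤ A := by
    rw [hA]; simp only [hAf]; positivity
  -- the number of steps
  set lq := -Real.log q with hlq
  have hlq0 : 0 < lq := by
    rw [hlq]
    have := Real.log_neg hq0 h2
    linarith
  have hlogT := Real.tendsto_log_atTop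
  have ev1 : ∀ᶠ T : ℝ in atTop, 11 / lq * Real.log T + 3 ≤ T ^ ((1 : ℝ) / 2) := by
    have h3 := (isLittleO_log_rpow_atTop (show (0:ℝ) < 1 / 2 by norm_num)).bound
      (show 0 < lq / 22 by positivity)
    filter_upwards [h3, eventually_gt_atTop 1,
      (tendsto_rpow_atTop (show (0:ℝ) < 1 / 2 by norm_num)).eventually_ge_atTop 6] with T h3 hT h6
    have hL := Real.log_pos hT
    rw [Real.norm_of_nonneg hL.le, Real.norm_of_nonneg (by positivity)] at h3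
    have h4 : 11 / lq * Real.log T ≤ 11 / lq * (lq / 22 * T ^ ((1 : ℝ) / 2)) :=
      mul_le_mul_of_nonneg_left h3 (by positivity)
    have h5 : 11 / lq * (lq / 22 * T ^ ((1 : ℝ) / 2)) = T ^ ((1 : ℝ) / 2) / 2 := by
      field_simp
      norm_num
    linarith
  have hM1 : Tendsto (fun T : ℝ => Real.log T ^ (e - 1)) atTop atTop :=
    (tendsto_rpow_atTop (by linarith)).comp hlogT
  have ev2 : ∀ᶠ T : ℝ in atTop, 13824 / η + 4000 / η ≤ Real.log T ^ (e - 1) := hM1.eventually_ge_atTop _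
  have ev3 : ∀ᶠ T : ℝ in atTop, 1 / η ≤ Real.log T ^ (e - 1) := hM1.eventually_ge_atTop _
  filter_upwards [H1, H2, EV_fe (p := p) hp hp1 hδ.le hη, EV_one hTSM,
    EV_half (v := v) (θ := θ) hv hθ hθ1 hδ.le hδ.le (by linarith) hη, crude_ev (v := v) (θ := θ) hv hθ1 δ,
    base_ev, dsmall δ (show (0:ℝ) < 1/8 by norm_num), ev1, ev2, ev3]
    with T H1 H2 hfe hone hhalf hcr hbase hds e1 e2 e3 k hk
  obtain ⟨hT1, hL, hk1⟩ := hbase k hk
  have hT0 : 0 < T := by linarith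
  set L := Real.log T with hLd
  have hL0 : 0 < L := by linarith
  have hds' := abs_le.1 hds
  set M := L ^ e with hMd
  have hM0 : 0 < M := by positivity
  have hML : M = L ^ (e - 1) * L := by
    rw [hMd, ← Real.rpow_add_one hL0.ne']; congr 1; ring
  have hηM1 : 1 ≤ η * M := by
    have : 1 ≤ η * L ^ (e - 1) := by
      rw [div_le_iff₀ hη] at e3; linarith
    rw [hML]
    nlinarith
  have hηM2 : 13824 + 4000 * L ≤ η * M := by
    have h5 : 13824 + 4000 ≤ η * L ^ (e - 1) := by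
      rw [← add_div, div_le_iff₀ hη] at e2; linarith
    rw [hML]
    nlinarith
  set U := T ^ ((1 : ℝ) / 2) with hU
  have hUU : U * U = T := by
    rw [hU, ← Real.rpow_add hT0]; norm_num
  have hU1 : 1 ≤ U := Real.one_le_rpow hT1.le (by norm_num)
  set D := EV k T (qn (Qv v θ T) p (1 / 2 - δ / L)) with hD
  have gz := Gr_zn (σ := 1 / 2 - δ / L) (p := p) hp hp1 (by linarith) (by linarith)
  have gz' := Gr_zn (σ := 1 / 2 + δ / L) (p := p) hp hp1 (by linarith) (by linarith)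
  have gq := Gr_qv (v := v) (θ := θ) (σ := 1 / 2 - δ / L) hv hθ1 hT1.le (by linarith) (by linarith)
  have gq' := Gr_qv (v := v) (θ := θ) (σ := 1 / 2 + δ / L) hv hθ1 hT1.le (by linarith) (by linarith)
  have gp := Gr_pv (v := v) (θ := θ) (σ := 1 / 2 - δ / L) hv hθ1 hT1.le (by linarith)
  have gp' := Gr_pv (v := v) (θ := θ) (σ := 1 / 2 + δ / L) hv hθ1 hT1.le (by linarith)
  -- one step
  have step : ∀ u Mj : ℝ, 0 ≤ Mj → |u| ≤ T → (∀ u', |u' - u| ≤ U → D u' ≤ Mj) →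
      D u ≤ A * M + q * Mj := by
    intro u Mj hMj hu hsup
    have t1 : D u ≤ EV k T (fun x => zn (1 / 2 - δ / L) x ^ p) u +
        EV k T (pv v θ T (1 / 2 - δ / L)) u :=
      EV_add hT0 hk1 gq gz gp (tr2 (θ := θ) hv T (1 / 2 - δ / L)) u
    have t2 : EV k T (fun x => zn (1 / 2 + δ / L) x ^ p) u ≤
        EV k T (pv v θ T (1 / 2 + δ / L)) u + EV k T (qn (Qv v θ T) p (1 / 2 + δ / L)) u :=
      EV_add hT0 hk1 gz' gp' gq' (tr1 (θ := θ) hv T (1 / 2 + δ / L)) u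
    have t3 := hfe k hk u hu
    have t4 := hone k hk u
    have t5 := H1 k hk u
    have t6 := H2 k hk u
    have t7 := hhalf k hk u Mj hMj hu hsup
    have t8 : EV k T (fun x => zn (1 / 2 - δ / L) x ^ p) u ≤
        (E + η) * (s1 * M + (Q + η) * (Mj + 1) + 2000 * (2 * L)) + 13824 := by
      refine t3.trans (add_le_add_left (mul_le_mul_of_nonneg_left ?_ (by positivity)) _)
      linarith
    have t9 : (E + η) * (s1 * M + (Q + η) * (Mj + 1) + 2000 * (2 * L)) + 13824 + s2 * M ≤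
        A * M + q * Mj := by
      rw [hA]
      simp only [hAf]
      have u1 : (Q + η) * 1 ≤ (Q + η) * (η * M) := mul_le_mul_of_nonneg_left hηM1 (by positivity)
      have u2 : (E + η) * (s1 * M + (Q + η) * (Mj + 1) + 2000 * (2 * L)) ≤
          (E + η) * (s1 * M + (Q + η) * (Mj + η * M) + η * M) := by
        refine mul_le_mul_of_nonneg_left ?_ (by positivity)
        have : (Q + η) * (Mj + 1) ≤ (Q + η) * (Mj + η * M) :=
          mul_le_mul_of_nonneg_left (by linarith) (by positivity)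
        linarith
      have u3 : (13824 : ℝ) ≤ η * M := by linarith
      calc _ ≤ (E + η) * (s1 * M + (Q + η) * (Mj + η * M) + η * M) + η * M + s2 * M := by linarith
        _ = _ := by rw [hq]; ring
    linarith
  -- iteration
  have iter : ∀ j : ℕ, ∀ u : ℝ, |u| ≤ T - j * U → D u ≤ A * M / (1 - q) + q ^ j * T ^ 11 := by
    intro j
    induction j with
    | zero =>
      intro u hu
      rw [Nat.cast_zero, zero_mul, sub_zero] at hu
      have h3 := hcr k hk u hu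
      rw [pow_zero, one_mul]
      have h4 : 0 ≤ A * M / (1 - q) := by positivity
      exact h3.trans (by linarith)
    | succ j ih =>
      intro u hu
      push_cast at hu
      have hj0 : 0 ≤ (j : ℝ) * U := by positivity
      refine (step u (A * M / (1 - q) + q ^ j * T ^ 11) (by positivity) (by linarith)
        (fun u' hu' => ih u' ?_)).trans (le_of_eq ?_)
      · have h3 := abs_add_le u (u' - u)
        rw [add_sub_cancel] at h3
        linarith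
      · rw [pow_succ]
        field_simp
        ring
  intro u hu
  set j : ℕ := ⌈11 / lq * L⌉₊ with hj
  have hj1 : 11 / lq * L ≤ j := Nat.le_ceil _
  have hj2 : (j : ℝ) < 11 / lq * L + 1 := Nat.ceil_lt_add_one (by positivity)
  have hjU : ((j : ℝ) + 1) * U ≤ T := by
    rw [← hUU]
    exact mul_le_mul_of_nonneg_right (by linarith) (by positivity)
  have h3 := iter j u (by linarith)
  have h4 : q ^ j * T ^ 11 ≤ 1 := by
    have e4 : q ^ j = Real.exp (-(j * lq)) := by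
      rw [← Real.exp_log (pow_pos hq0 j), Real.log_pow]
      congr 1
      rw [hlq]; ring
    have e5 : T ^ 11 = Real.exp (11 * L) := by
      rw [← Real.exp_log (pow_pos hT0 11), Real.log_pow]
      norm_num [hLd]
    rw [e4, e5, ← Real.exp_add]
    apply Real.exp_le_one_iff.2
    have h6 : 11 * L ≤ j * lq := by
      have := mul_le_mul_of_nonneg_right hj1 hlq0.le
      have e6 : 11 / lq * L * lq = 11 * L := by field_simp
      linarith
    linarith
  calc D u ≤ A * M / (1 - q) + q ^ j * T ^ 11 := h3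
    _ ≤ A * M / (1 - q) + η * M := by linarith
    _ = Φ η * M := by
        simp only [hΦ]
        rw [← hA, ← hq]
        ring
    _ ≤ X * M := mul_le_mul_of_nonneg_right h1.le hM0.le

/-- the weighted moment of order `2 + 2 / v` -/
theorem M_ev (hTSM : P_TSM2) (hv : 2 ≤ v) (hθ : 0 < θ) (hθ1 : θ ≤ 1) {δ : ℝ} (hδ : 0 < δ)
    (hθ2 : 1 / 2 < θ) {e : ℝ} (he : 1 < e) {s0 s1 s2 : ℝ} (hs1 : 0 ≤ s1) (hs2 : 0 ≤ s2)
    (H0 : ∀ᶠ T : ℝ in atTop, ∀ k : ℕ, Rng T k → ∀ u : ℝ,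
      EV k T (pv v θ T (1 / 2)) u ≤ s0 * Real.log T ^ e)
    (H1 : ∀ᶠ T : ℝ in atTop, ∀ k : ℕ, Rng T k → ∀ u : ℝ,
      EV k T (pv v θ T (1 / 2 + δ / Real.log T)) u ≤ s1 * Real.log T ^ e)
    (H2 : ∀ᶠ T : ℝ in atTop, ∀ k : ℕ, Rng T k → ∀ u : ℝ,
      EV k T (pv v θ T (1 / 2 - δ / Real.log T)) u ≤ s2 * Real.log T ^ e)
    {C : ℝ} (hC : s0 + Real.exp (-(2 / (v:ℝ) * (θ * δ))) * ((Real.exp (2 / (v:ℝ) * δ) * s1 + s2) /
      (1 - Real.exp (-(2 / (v:ℝ) * ((2 * θ - 1) * δ))))) < C) :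
    ∀ᶠ T : ℝ in atTop, ∀ k : ℕ, Rng T k →
      EV k T (fun x => zn (1 / 2) x ^ (2 / (v:ℝ))) 0 ≤ C * Real.log T ^ e := by
  obtain ⟨-, -, hp, hp1⟩ := kv hv
  set p : ℝ := 2 / (v:ℝ) with hpd
  set X0 := (Real.exp (p * δ) * s1 + s2) / (1 - Real.exp (-(p * ((2 * θ - 1) * δ)))) with hX0
  set Q := Real.exp (-(p * (θ * δ))) with hQ
  have hQ0 : 0 < Q := Real.exp_pos _
  have hX00 : 0 ≤ X0 := by
    rw [hX0]
    refine div_nonneg (by positivity) ?_
    have : Real.exp (-(p * ((2 * θ - 1) * δ))) ≤ 1 := by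
      apply Real.exp_le_one_iff.2
      have : 0 < p * ((2 * θ - 1) * δ) := by
        have : 0 < 2 * θ - 1 := by linarith
        positivity
      linarith
    linarith
  set Φ : ℝ → ℝ := fun η => s0 + (Q + η) * (X0 + η + η) with hΦ
  have hΦ0 : Φ 0 < C := by
    simp only [hΦ, add_zero]
    exact hC
  have hcont : ContinuousAt Φ 0 := by
    simp only [hΦ]
    fun_prop
  obtain ⟨η, hη, h1, -⟩ := exists_small2 hcont hΦ0 (fun _ => True) (Eventually.of_forall fun _ => trivial)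
  have hM1 : Tendsto (fun T : ℝ => Real.log T ^ e) atTop atTop :=
    (tendsto_rpow_atTop (by linarith)).comp Real.tendsto_log_atTop
  filter_upwards [H0, D_ev hTSM hv hθ hθ1 hδ hθ2 he hs1 hs2 H1 H2 (show X0 < X0 + η by linarith),
    EV_half (v := v) (θ := θ) hv hθ hθ1 (le_refl 0) hδ.le (by linarith) hη, base_ev,
    hM1.eventually_ge_atTop (1 / η)] with T H0 hD hhalf hbase e3 k hk
  obtain ⟨hT1, hL, hk1⟩ := hbase k hk
  have hT0 : 0 < T := by linarith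
  set L := Real.log T with hLd
  set M := L ^ e with hMd
  have hM0 : 0 < M := by positivity
  have hηM1 : 1 ≤ η * M := by
    rw [div_le_iff₀ hη] at e3; linarith
  have gz := Gr_zn (σ := 1 / 2) (p := p) hp hp1 (by norm_num) (by norm_num)
  have gq := Gr_qv (v := v) (θ := θ) (σ := 1 / 2) hv hθ1 hT1.le (by norm_num) (by norm_num)
  have gp := Gr_pv (v := v) (θ := θ) (σ := 1 / 2) hv hθ1 hT1.le (by norm_num)
  have t1 : EV k T (fun x => zn (1 / 2) x ^ p) 0 ≤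
      EV k T (pv v θ T (1 / 2)) 0 + EV k T (qn (Qv v θ T) p (1 / 2)) 0 :=
    EV_add hT0 hk1 gz gp gq (tr1 (θ := θ) hv T (1 / 2)) 0
  have t2 := hhalf k hk 0 ((X0 + η) * M) (by positivity) (by simp [hT0.le]) (fun u' hu' => by
    rw [sub_zero] at hu'
    exact hD k hk u' hu')
  rw [zero_div, add_zero, zero_add] at t2
  have t3 := H0 k hk 0
  have t4 : (Q + η) * ((X0 + η) * M + 1) ≤ (Q + η) * ((X0 + η) * M + η * M) :=
    mul_le_mul_of_nonneg_left (by linarith) (by positivity)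
  calc EV k T (fun x => zn (1 / 2) x ^ p) 0 ≤ s0 * M + (Q + η) * ((X0 + η) * M + η * M) := by
        linarith
    _ = Φ η * M := by simp only [hΦ]; ring
    _ ≤ C * M := mul_le_mul_of_nonneg_right h1.le hM0.le

end

end

end Pool.Agent.L7h20.TM3
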