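import Pool.Agent.L7h20.TM3.Iter
import Pool.Agent.L7h20.TM3.SInt
import Pool.Agent.L7h20.TM3.Win
import Pool.Agent.H262R4.TM.All2
import Pool.Agent.W184.Const

set_option autoImplicit false

/-! Upper bound for the third moment. -/

namespace Pool.Agent.L7h20.TM3

open Filter Topology MeasureTheory Complex
open Pool.Agent.H306R2 Pool.Agent.H306R2.SM
open Pool.Agent.H262R4.TM (P_TSM2 Rng Ck f_TSM2)
open Pool.Agent.W184

noncomputable section

/-- the mean of the square of the polynomial -/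
theorem S_ev {v : ℕ} (hv : 2 ≤ v) {W : ℝ → ℝ} {θ θ' : ℝ}
    (hW : WU W θ θ') (hθ : 0 < θ) (hθθ : θ < θ') (hθ' : θ' < 14 / 27)
    (a : ℝ) {J : ℝ} (hJ : aF (1 / (v:ℝ) + 1) * I3a (1 / (v:ℝ)) W a < J) :
    ∀ᶠ T : ℝ in atTop, ∀ k : ℕ, Rng T k → ∀ u : ℝ,
      EV k T (pv v θ T (1 / 2 + a / Real.log T)) u ≤ J * Real.log T ^ ((1 / (v:ℝ) + 1) ^ 2) := by
  obtain ⟨h1, h2, -, -⟩ := kv hv
  exact S_bd f_TSM2 h1 h2 hW hθ hθθ hθ' a hJ

/-- all ingredients together -/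
theorem M_all {v : ℕ} (hv : 2 ≤ v) {W : ℝ → ℝ} {θ θ' : ℝ}
    (hW : WU W θ θ') (hθ : 1 / 2 < θ) (hθθ : θ < θ') (hθ' : θ' < 14 / 27) {δ : ℝ} (hδ : 0 < δ)
    {i0 i1 i2 : ℝ} (h0 : I3a (1 / (v:ℝ)) W 0 < i0) (h1 : I3a (1 / (v:ℝ)) W δ < i1)
    (h2 : I3a (1 / (v:ℝ)) W (-δ) < i2) (hi1 : 0 ≤ i1) (hi2 : 0 ≤ i2)
    {C : ℝ} (hC : i0 + Real.exp (-(2 / (v:ℝ) * (θ * δ))) * ((Real.exp (2 / (v:ℝ) * δ) * i1 + i2) /
      (1 - Real.exp (-(2 / (v:ℝ) * ((2 * θ - 1) * δ))))) < C) :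
    ∀ᶠ T : ℝ in atTop, ∀ k : ℕ, Rng T k →
      EV k T (fun x => zn (1 / 2) x ^ (2 / (v:ℝ))) 0 ≤
        (aF (1 / (v:ℝ) + 1) * C) * Real.log T ^ ((1 / (v:ℝ) + 1) ^ 2) := by
  obtain ⟨hk1, hk2, -, -⟩ := kv hv
  have hA : 0 < aF (1 / (v:ℝ) + 1) := aF_pos (by positivity)
  set A := aF (1 / (v:ℝ) + 1) with hAd
  have hθ0 : 0 < θ := by linarith
  have S0 := S_ev hv hW hθ0 hθθ hθ' 0 (mul_lt_mul_of_pos_left h0 hA)
  have S1 := S_ev hv hW hθ0 hθθ hθ' δ (mul_lt_mul_of_pos_left h1 hA)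
  have S2 := S_ev hv hW hθ0 hθθ hθ' (-δ) (mul_lt_mul_of_pos_left h2 hA)
  refine M_ev f_TSM2 hv hθ0 (by linarith) hδ hθ (by nlinarith) (s0 := A * i0) (s1 := A * i1)
    (s2 := A * i2) (by positivity) (by positivity) ?_ S1 ?_ ?_
  · filter_upwards [S0] with T hT k hk u
    have := hT k hk u
    rwa [zero_div, add_zero] at this
  · filter_upwards [S2] with T hT k hk u
    have := hT k hk u
    rwa [neg_div, ← sub_eq_add_neg] at this
  · have e : A * i0 + Real.exp (-(2 / (v:ℝ) * (θ * δ))) *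
        ((Real.exp (2 / (v:ℝ) * δ) * (A * i1) + A * i2) /
          (1 - Real.exp (-(2 / (v:ℝ) * ((2 * θ - 1) * δ))))) =
        A * (i0 + Real.exp (-(2 / (v:ℝ) * (θ * δ))) * ((Real.exp (2 / (v:ℝ) * δ) * i1 + i2) /
      (1 - Real.exp (-(2 / (v:ℝ) * ((2 * θ - 1) * δ)))))) := by ring
    rw [e]
    exact mul_lt_mul_of_pos_left hC hA

/-! ### numbers for the third moment -/

lemma Gam_up : Real.Gamma (13 / 4) ≤ 2.5984 := by
  have h := Real.Gamma_mul_add_mul_le_rpow_Gamma_mul_rpow_Gamma (s := 5) (t := 6) (a := 3 / 4)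
    (b := 1 / 4) (by norm_num) (by norm_num) (by norm_num) (by norm_num) (by norm_num)
  have e1 : (3 / 4 * 5 + 1 / 4 * 6 : ℝ) = 21 / 4 := by norm_num
  have e2 : Real.Gamma 5 = 24 := by
    have h := Real.Gamma_nat_eq_factorial 4
    have e : (((4 : ℕ) : ℝ) + 1) = 5 := by norm_num
    rw [e] at h
    rw [h]
    norm_num [Nat.factorial]
  have e3 : Real.Gamma 6 = 120 := by
    have h := Real.Gamma_nat_eq_factorial 5
    have e : (((5 : ℕ) : ℝ) + 1) = 6 := by norm_num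
    rw [e] at h
    rw [h]
    norm_num [Nat.factorial]
  rw [e1, e2, e3] at h
  have e4 : Real.Gamma (21 / 4) = 17 / 4 * (13 / 4 * Real.Gamma (13 / 4)) := by
    rw [show (21 / 4 : ℝ) = 17 / 4 + 1 by norm_num, Real.Gamma_add_one (by norm_num),
      show (17 / 4 : ℝ) = 13 / 4 + 1 by norm_num, Real.Gamma_add_one (by norm_num)]
  have h5 : (24 : ℝ) ^ (3 / 4 : ℝ) * 120 ^ (1 / 4 : ℝ) ≤ 35.89 := by
    have e6 : (24 : ℝ) ^ (3 / 4 : ℝ) * 120 ^ (1 / 4 : ℝ) = (24 ^ 3 * 120 : ℝ) ^ (1 / 4 : ℝ) := by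
      rw [Real.mul_rpow (by norm_num) (by norm_num), ← Real.rpow_natCast (24 : ℝ) 3,
        ← Real.rpow_mul (by norm_num)]
      norm_num
    rw [e6]
    calc ((24 ^ 3 * 120 : ℝ)) ^ (1 / 4 : ℝ) ≤ ((35.89 : ℝ) ^ 4) ^ (1 / 4 : ℝ) :=
          Real.rpow_le_rpow (by norm_num) (by norm_num) (by norm_num)
      _ = 35.89 := by
          rw [← Real.rpow_natCast (35.89 : ℝ) 4, ← Real.rpow_mul (by norm_num)]
          norm_num
  rw [e4] at h
  linarith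

lemma ex1 : Real.exp (-(1.91808)) ≤ 0.14690 := by
  have h := Pool.Agent.W184.exp_up (u := 1.91808) (by norm_num) 14 (by decide)
  simp only [Finset.sum_range_succ, Finset.sum_range_zero, Nat.factorial] at h
  refine h.trans ?_
  norm_num

lemma ex2 : Real.exp (-(0.13616)) ≤ 0.87271 := by
  have h := Pool.Agent.W184.exp_up (u := 0.13616) (by norm_num) 6 (by decide)
  simp only [Finset.sum_range_succ, Finset.sum_range_zero, Nat.factorial] at h
  refine h.trans ?_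
  norm_num

lemma ex3 : Real.exp 3.7 ≤ 40.45 := by
  have h := Pool.Agent.W184.exp_lo (u := 3.7) (by norm_num) 21 (by decide)
  simp only [Finset.sum_range_succ, Finset.sum_range_zero, Nat.factorial] at h
  have e : Real.exp 3.7 = (Real.exp (-3.7))⁻¹ := by rw [Real.exp_neg, inv_inv]
  rw [e]
  rw [inv_le_comm₀ (Real.exp_pos _) (by norm_num)]
  refine le_trans ?_ h
  norm_num

lemma ex4 : Real.exp (3.7 * 0.5185) ≤ 6.811 := by
  have h := Pool.Agent.W184.exp_lo (u := 3.7 * 0.5185) (by norm_num) 15 (by decide)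
  simp only [Finset.sum_range_succ, Finset.sum_range_zero, Nat.factorial] at h
  have e : Real.exp (3.7 * 0.5185) = (Real.exp (-(3.7 * 0.5185)))⁻¹ := by rw [Real.exp_neg, inv_inv]
  rw [e]
  rw [inv_le_comm₀ (Real.exp_pos _) (by norm_num)]
  refine le_trans ?_ h
  norm_num

lemma th54 : (0.5185 : ℝ) ^ (5 / 4 : ℝ) ≤ 0.4401 := by
  have e : (0.5185 : ℝ) ^ (5 / 4 : ℝ) = ((0.5185 : ℝ) ^ 5) ^ (1 / 4 : ℝ) := by
    rw [← Real.rpow_natCast (0.5185 : ℝ) 5, ← Real.rpow_mul (by norm_num)]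
    norm_num
  rw [e]
  calc ((0.5185 : ℝ) ^ 5) ^ (1 / 4 : ℝ) ≤ ((0.4401 : ℝ) ^ 4) ^ (1 / 4 : ℝ) :=
        Real.rpow_le_rpow (by norm_num) (by norm_num) (by norm_num)
    _ = 0.4401 := by
        rw [← Real.rpow_natCast (0.4401 : ℝ) 4, ← Real.rpow_mul (by norm_num)]
        norm_num

lemma pi4 : 4 / Real.pi ≤ 1.27325 := by
  have := Real.pi_gt_d6
  rw [div_le_iff₀ Real.pi_pos]
  nlinarith

lemma Q3_mono {E F : ℝ} (h1 : 1 ≤ E) (h2 : E ≤ F) : Q3 E 0.5185 ≤ Q3 F 0.5185 := by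
  unfold Q3
  nlinarith [mul_nonneg (show 0 ≤ F - E by linarith) (show 0 ≤ E - 1 by linarith),
    mul_nonneg (show 0 ≤ F - E by linarith) (show 0 ≤ F - 1 by linarith)]

lemma num0 {W : ℝ → ℝ} (hW : WU W 0.5184 0.5185) :
    I3a (1 / 2) W 0 < 0.902 / Real.Gamma (13 / 4) := by
  have h := I3a_neg hW (by norm_num) (by norm_num) (le_refl (0:ℝ))
  rw [neg_zero, zero_mul, Real.exp_zero] at h
  refine lt_of_le_of_lt h ?_
  have hG := Real.Gamma_pos_of_pos (show (0 : ℝ) < 13 / 4 by norm_num)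
  have e : 4 / Real.pi * ((0.5185 : ℝ) ^ (5 / 4 : ℝ) / Real.Gamma (13 / 4) * Q3 1 0.5185) =
      (4 / Real.pi * (0.5185 : ℝ) ^ (5 / 4 : ℝ) * Q3 1 0.5185) / Real.Gamma (13 / 4) := by ring
  rw [e]
  refine div_lt_div_of_pos_right ?_ hG
  have hQ : Q3 1 0.5185 = 1.608 := by unfold Q3; norm_num
  rw [hQ]
  have h1 := pi4
  have h2 := th54
  have h3 : 0 < 4 / Real.pi := by positivity
  have h4 : (0 : ℝ) < (0.5185 : ℝ) ^ (5 / 4 : ℝ) := by positivity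
  calc 4 / Real.pi * (0.5185 : ℝ) ^ (5 / 4 : ℝ) * 1.608 ≤ 1.27325 * 0.4401 * 1.608 := by gcongr
    _ < 0.902 := by norm_num

lemma num2 {W : ℝ → ℝ} (hW : WU W 0.5184 0.5185) :
    I3a (1 / 2) W (-3.7) < 9.4 / Real.Gamma (13 / 4) := by
  have h := I3a_neg hW (by norm_num) (by norm_num) (show (0:ℝ) ≤ 3.7 by norm_num)
  refine lt_of_le_of_lt h ?_
  have hG := Real.Gamma_pos_of_pos (show (0 : ℝ) < 13 / 4 by norm_num)
  have e : 4 / Real.pi * ((0.5185 : ℝ) ^ (5 / 4 : ℝ) / Real.Gamma (13 / 4) *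
      Q3 (Real.exp (3.7 * 0.5185)) 0.5185) =
      (4 / Real.pi * (0.5185 : ℝ) ^ (5 / 4 : ℝ) * Q3 (Real.exp (3.7 * 0.5185)) 0.5185) /
        Real.Gamma (13 / 4) := by ring
  rw [e]
  refine div_lt_div_of_pos_right ?_ hG
  have hQ : Q3 (Real.exp (3.7 * 0.5185)) 0.5185 ≤ 16.76 := by
    refine (Q3_mono (Real.one_le_exp (by norm_num)) ex4).trans ?_
    unfold Q3; norm_num
  have h1 := pi4
  have h2 := th54
  have h3 : 0 < 4 / Real.pi := by positivity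
  have h4 : (0 : ℝ) < (0.5185 : ℝ) ^ (5 / 4 : ℝ) := by positivity
  calc 4 / Real.pi * (0.5185 : ℝ) ^ (5 / 4 : ℝ) * Q3 (Real.exp (3.7 * 0.5185)) 0.5185 ≤
        4 / Real.pi * (0.5185 : ℝ) ^ (5 / 4 : ℝ) * 16.76 := by gcongr
    _ ≤ 1.27325 * 0.4401 * 16.76 := by gcongr
    _ < 9.4 := by norm_num

lemma num1 {W : ℝ → ℝ} (hW : WU W 0.5184 0.5185) :
    I3a (1 / 2) W 3.7 < 0.3407 / Real.Gamma (13 / 4) := by
  have h := I3a_pos hW (by norm_num) (by norm_num) (show (0:ℝ) < 3.7 by norm_num)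
  refine lt_of_le_of_lt h ?_
  have hG := Real.Gamma_pos_of_pos (show (0 : ℝ) < 13 / 4 by norm_num)
  have hG2 := Gam_up
  rw [lt_div_iff₀ hG]
  have h1 : ((2 : ℝ) * 3.7) ^ (-(1 / 4) : ℝ) ≤ 0.6064 := by
    rw [Real.rpow_neg (by norm_num), inv_le_comm₀ (by positivity) (by norm_num)]
    have h2 : ((0.6064 : ℝ)⁻¹ ^ 4) ^ (1 / 4 : ℝ) ≤ ((2 : ℝ) * 3.7) ^ (1 / 4 : ℝ) :=
      Real.rpow_le_rpow (by positivity) (by norm_num) (by norm_num)
    refine le_trans (le_of_eq ?_) h2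
    rw [← Real.rpow_natCast ((0.6064 : ℝ)⁻¹) 4, ← Real.rpow_mul (by positivity)]
    norm_num
  have h3 : ((3.7 : ℝ) + (1 - 0.5185) / 0.5185)⁻¹ ≤ 0.21605 := by
    rw [inv_le_comm₀ (by norm_num) (by norm_num)]
    norm_num
  calc ((3.7 : ℝ) + (1 - 0.5185) / 0.5185)⁻¹ * ((2 : ℝ) * 3.7) ^ (-(1 / 4) : ℝ) * Real.Gamma (13 / 4) ≤
        0.21605 * 0.6064 * 2.5984 := by gcongr
    _ < 0.3407 := by norm_num

/-- the third moment with the Gamma weight -/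
theorem third_gamma : ∀ᶠ T : ℝ in atTop, ∀ k : ℕ, Real.log T ^ 2 ≤ k → (k : ℝ) ≤ 4 * Real.log T ^ 2 →
    ∫ t in Set.Ioi (0 : ℝ), om k (k / T) t * ‖riemannZeta (cl t)‖ ^ 3 ≤
      (27.7 / Real.Gamma (13 / 4) * aF (3 / 2)) * Real.log T ^ (9 / 4 : ℝ) := by
  have hG := Real.Gamma_pos_of_pos (show (0 : ℝ) < 13 / 4 by norm_num)
  set G := Real.Gamma (13 / 4) with hGd
  have hW := Wl_WU (show (0.5184 : ℝ) < 0.5185 by norm_num)
  have ek : (1 / ((2:ℕ):ℝ)) = 1 / 2 := by norm_num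
  have ep : (2 / ((2:ℕ):ℝ)) = 1 := by norm_num
  have h := M_all (v := 2) le_rfl hW (by norm_num) (by norm_num) (by norm_num)
    (δ := 3.7) (by norm_num) (i0 := 0.902 / G) (i1 := 0.3407 / G) (i2 := 9.4 / G) (C := 27.7 / G)
    (by rw [ek]; exact num0 hW) (by rw [ek]; exact num1 hW) (by rw [ek]; exact num2 hW)
    (by positivity) (by positivity) (by
      rw [ep]
      have e1 : (-(1 * ((0.5184 : ℝ) * 3.7))) = -(1.91808) := by norm_num
      have e2 : (-(1 * ((2 * 0.5184 - 1 : ℝ) * 3.7))) = -(0.13616) := by norm_num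
      rw [e1, e2, one_mul]
      have a1 := ex1
      have a2 := ex2
      have a3 := ex3
      have b1 := Real.exp_pos (-(1.91808 : ℝ))
      have b3 := Real.exp_pos (3.7 : ℝ)
      have key : 0.902 + Real.exp (-(1.91808)) * ((Real.exp 3.7 * 0.3407 + 9.4) /
          (1 - Real.exp (-(0.13616)))) < 27.7 := by
        have c1 : (Real.exp 3.7 * 0.3407 + 9.4) / (1 - Real.exp (-(0.13616))) ≤
            (40.45 * 0.3407 + 9.4) / (1 - 0.87271) := by
          gcongr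
        have c2 : Real.exp (-(1.91808)) * ((Real.exp 3.7 * 0.3407 + 9.4) /
          (1 - Real.exp (-(0.13616)))) ≤ 0.14690 * ((40.45 * 0.3407 + 9.4) / (1 - 0.87271)) := by
          refine mul_le_mul a1 c1 ?_ (by norm_num)
          refine div_nonneg (by positivity) (by linarith)
        refine lt_of_le_of_lt (add_le_add_right c2 _) ?_
        norm_num
      have e3 : 0.902 / G + Real.exp (-(1.91808)) * ((Real.exp 3.7 * (0.3407 / G) + 9.4 / G) /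
          (1 - Real.exp (-(0.13616)))) = (0.902 + Real.exp (-(1.91808)) *
          ((Real.exp 3.7 * 0.3407 + 9.4) / (1 - Real.exp (-(0.13616))))) / G := by ring
      rw [e3]
      exact div_lt_div_of_pos_right key hG)
  filter_upwards [h] with T hT k hk1 hk2
  have h1 := hT k ⟨hk1, hk2⟩
  rw [ek, ep] at h1
  have e5 : ((1 / 2 : ℝ) + 1) = 3 / 2 := by norm_num
  have e6 : ((3 / 2 : ℝ)) ^ 2 = 9 / 4 := by norm_num
  rw [e5, e6] at h1
  refine le_trans (le_of_eq ?_) (h1.trans (le_of_eq ?_))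
  · unfold EV wt
    refine integral_congr_ae (Eventually.of_forall fun t => ?_)
    simp only [add_zero, Real.rpow_one]
    have e7 : zn (1 / 2) t = ‖riemannZeta (cl t)‖ := by
      unfold zn cl
      congr 2
      push_cast
      rfl
    rw [e7]
    ring
  · ring

/-- the third moment on all intervals that are not too short -/
theorem third_upper (α : ℝ) (hα : α < 1) :
    ∀ᶠ T : ℝ in atTop, ∀ U H : ℝ, 0 ≤ U → U + H ≤ T → T / Real.log T ^ α ≤ H →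
      ∫ t in U..(U + H), ‖riemannZeta (cl t)‖ ^ 3 ≤
        28 / Real.Gamma (13 / 4) * aF (3 / 2) * H * Real.log T ^ (9 / 4 : ℝ) := by
  have hG := Real.Gamma_pos_of_pos (show (0 : ℝ) < 13 / 4 by norm_num)
  have hA := aF_pos (κ := 3 / 2) (by norm_num)
  refine upper_window (fun t => ‖riemannZeta (cl t)‖ ^ 3) (zeta_cl_cont.norm.pow 3)
    (fun t => by positivity) ⟨576 * 24, 6, fun t ht => ?_⟩ _ (by positivity) (9 / 4) (by norm_num)
    third_gamma α hα ?_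
  · have h2 := zeta_cl_bd ht
    have h3 : ‖riemannZeta (cl t)‖ ≤ 24 * (1 + t) ^ 2 := by
      refine (abs_le_of_sq_le_sq' ?_ (by positivity)).2
      calc ‖riemannZeta (cl t)‖ ^ 2 ≤ 576 * (1 + t) ^ 4 := h2
        _ = (24 * (1 + t) ^ 2) ^ 2 := by ring
    calc ‖riemannZeta (cl t)‖ ^ 3 = ‖riemannZeta (cl t)‖ ^ 2 * ‖riemannZeta (cl t)‖ := by ring
      _ ≤ (576 * (1 + t) ^ 4) * (24 * (1 + t) ^ 2) :=
          mul_le_mul h2 h3 (norm_nonneg _) (by positivity)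
      _ = 576 * 24 * (1 + t) ^ 6 := by ring
  · refine mul_lt_mul_of_pos_right ?_ hA
    exact div_lt_div_of_pos_right (by norm_num) hG

end

end Pool.Agent.L7h20.TM3
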