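import Pool.Agent.Y756.K.Num3
import Pool.Agent.H262R4.TM.Defs2
import Pool.Agent.W184.Coef

set_option autoImplicit false

/-!
Upper bound for the second moment of zeta twisted by the square of a Dirichlet polynomial of length
`T^θ`, `θ < 14/27`, evaluated on lines near the critical line and shifted vertically, uniformly in
the shift.
-/

namespace Pool.Agent.L7h20.TM3

open Finset Filter Topology MeasureTheory Complex
open Pool.Agent.H306R2 Pool.Agent.H306R2.SM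
open Pool.Agent.Y756.T (lam3 m3 lam3_LW lam3_const mw_lam3 S3 S3_prop sum_gcd)
open Pool.Agent.TH535 (posI GdI kar mw_nonneg')
open Pool.Agent.TH535.MA (mw LW)
open Pool.Agent.H262R4.TM (P_TSM2 Rng Ck)
open Pool.Agent.W184 (DS dv_le_one)

noncomputable section

/-- continuous majorants of the indicator function of `[0, θ]`, supported in `[0, θ']` -/
structure WU (W : ℝ → ℝ) (θ θ' : ℝ) : Prop where
  cont : Continuous W
  nn : ∀ u, 0 ≤ W u
  le : ∀ u, W u ≤ 1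
  one : ∀ u, u ≤ θ → W u = 1
  z : ∀ u, θ' ≤ u → W u = 0

/-- a piecewise linear example -/
def Wl (θ θ' u : ℝ) : ℝ := max 0 (min 1 ((θ' - u) / (θ' - θ)))

lemma Wl_WU {θ θ' : ℝ} (h : θ < θ') : WU (Wl θ θ') θ θ' where
  cont := by unfold Wl; fun_prop
  nn u := le_max_left _ _
  le u := max_le zero_le_one (min_le_left _ _)
  one u hu := by
    unfold Wl
    have h1 : 1 ≤ (θ' - u) / (θ' - θ) := by
      rw [le_div_iff₀ (by linarith)]; linarith
    rw [min_eq_left h1]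
    norm_num
  z u hu := by
    unfold Wl
    have h1 : (θ' - u) / (θ' - θ) ≤ 0 := div_nonpos_of_nonpos_of_nonneg (by linarith) (by linarith)
    rw [min_eq_right (by linarith), max_eq_left h1]

/-- weight without the logarithm -/
def qa (W : ℝ → ℝ) (a : ℝ) (u : Fin 3 → ℝ) : ℝ :=
  W (u 0 + u 2) * W (u 1 + u 2) * Real.exp (-(a * (u 0 + u 1 + 2 * u 2)))

/-- weight with the logarithm -/
def qb (W : ℝ → ℝ) (a : ℝ) (u : Fin 3 → ℝ) : ℝ := qa W a u * |1 - u 0 - u 1|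

lemma qa_nn {W : ℝ → ℝ} {θ θ' : ℝ} (hW : WU W θ θ') (a : ℝ) (u : Fin 3 → ℝ) : 0 ≤ qa W a u := by
  have h1 := hW.nn (u 0 + u 2)
  have h2 := hW.nn (u 1 + u 2)
  unfold qa
  positivity

lemma qa_cont {W : ℝ → ℝ} (hW : Continuous W) (a : ℝ) : Continuous (qa W a) := by
  unfold qa
  fun_prop

lemma qb_cont {W : ℝ → ℝ} (hW : Continuous W) (a : ℝ) : Continuous (qb W a) := by
  unfold qb
  have := qa_cont hW a
  fun_prop

lemma qa_zero {W : ℝ → ℝ} {θ θ' : ℝ} (hW : WU W θ θ') (a : ℝ) (u : Fin 3 → ℝ) (hu : ∀ i, 0 ≤ u i)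
    (hi : ∃ i, θ' ≤ u i) : qa W a u = 0 := by
  obtain ⟨i, hi⟩ := hi
  have h0 := hu 0
  have h1 := hu 1
  have h2 := hu 2
  unfold qa
  fin_cases i
  · have : θ' ≤ u 0 := hi
    rw [hW.z _ (by linarith)]; ring
  · have : θ' ≤ u 1 := hi
    rw [hW.z (u 1 + u 2) (by linarith)]; ring
  · have : θ' ≤ u 2 := hi
    rw [hW.z _ (by linarith)]; ring

/-- the limit integral -/
def I3a (κ : ℝ) (W : ℝ → ℝ) (a : ℝ) : ℝ := ∫ u : Fin 3 → ℝ, GdI (m3 κ) u * qb W a u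

/-- weighted coefficients -/
def pw (κ : ℝ) (W : ℝ → ℝ) (a T : ℝ) (n : ℕ) : ℝ :=
  dv κ n * (W (Real.log n / Real.log T) * Real.exp (-(a * (Real.log n / Real.log T))))

/-- the terms of the double sum -/
def F3 (κ : ℝ) (W : ℝ → ℝ) (a T Y C : ℝ) (m n : ℕ) : ℝ :=
  pw κ W a T m * pw κ W a T n * (1 / (Nat.lcm m n : ℝ) *
    |Real.log (Y * (Nat.gcd m n : ℝ) ^ 2 / ((m : ℝ) * n)) + C|)

/-- the terms of the triple sum -/
def G3 (κ : ℝ) (W : ℝ → ℝ) (a T Y C : ℝ) (b : Fin 3 → ℕ) : ℝ :=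
  mw (lam3 κ) b * (qa W a (posI (Real.log T) b) * |Real.log Y + C - Real.log (b 0) - Real.log (b 1)|)

lemma F3_eq (κ : ℝ) (W : ℝ → ℝ) (a T : ℝ) {Y : ℝ} (hY : 0 < Y) (C : ℝ) {h l g : ℕ} (hh : 1 ≤ h)
    (hl : 1 ≤ l) (hg : 1 ≤ g) (hc : Nat.Coprime h l) :
    F3 κ W a T Y C (g * h) (g * l) = G3 κ W a T Y C ![h, l, g] := by
  have h0 : (0 : ℝ) < h := by exact_mod_cast hh
  have l0 : (0 : ℝ) < l := by exact_mod_cast hl
  have g0 : (0 : ℝ) < g := by exact_mod_cast hg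
  have hcond : (∀ i, (![h, l, g] : Fin 3 → ℕ) i ≠ 0) ∧
      Nat.Coprime ((![h, l, g] : Fin 3 → ℕ) 0) ((![h, l, g] : Fin 3 → ℕ) 1) := by
    refine ⟨?_, hc⟩
    intro i
    fin_cases i
    · exact (show h ≠ 0 by omega)
    · exact (show l ≠ 0 by omega)
    · exact (show g ≠ 0 by omega)
  unfold F3 G3
  rw [mw_lam3, if_pos hcond]
  unfold pw qa posI
  simp only [Matrix.cons_val_zero, Matrix.cons_val_one, Matrix.cons_val]
  have e1 : Nat.lcm (g * h) (g * l) = g * (h * l) := by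
    rw [Nat.lcm_mul_left, hc.lcm_eq_mul]
  have e2 : Nat.gcd (g * h) (g * l) = g := by
    rw [Nat.gcd_mul_left, Nat.Coprime.gcd_eq_one hc, mul_one]
  rw [e1, e2]
  have e3 : Y * (g : ℝ) ^ 2 / (((g * h : ℕ) : ℝ) * ((g * l : ℕ) : ℝ)) = Y / (h * l) := by
    push_cast
    field_simp
  have e4 : Real.log (Y / ((h : ℝ) * l)) = Real.log Y - Real.log h - Real.log l := by
    rw [Real.log_div hY.ne' (by positivity), Real.log_mul h0.ne' l0.ne']; ring
  rw [e3, e4]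
  have hl1 : Real.log ((g * h : ℕ) : ℝ) / Real.log T =
      Real.log h / Real.log T + Real.log g / Real.log T := by
    rw [Nat.cast_mul, Real.log_mul g0.ne' h0.ne', add_div]; ring
  have hl2 : Real.log ((g * l : ℕ) : ℝ) / Real.log T =
      Real.log l / Real.log T + Real.log g / Real.log T := by
    rw [Nat.cast_mul, Real.log_mul g0.ne' l0.ne', add_div]; ring
  rw [hl1, hl2, mul_comm g h, mul_comm g l]
  have e5 : Real.exp (-(a * (Real.log h / Real.log T + Real.log l / Real.log T +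
      2 * (Real.log g / Real.log T)))) =
      Real.exp (-(a * (Real.log h / Real.log T + Real.log g / Real.log T))) *
      Real.exp (-(a * (Real.log l / Real.log T + Real.log g / Real.log T))) := by
    rw [← Real.exp_add]; congr 1; ring
  rw [e5]
  have e6 : Real.log Y - Real.log h - Real.log l + C = Real.log Y + C - Real.log h - Real.log l := by
    ring
  rw [e6]
  push_cast
  ring

lemma F3_nn {κ : ℝ} (hκ : 0 ≤ κ) {W : ℝ → ℝ} {θ θ' : ℝ} (hW : WU W θ θ') (a T Y C : ℝ) (m n : ℕ) :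
    0 ≤ F3 κ W a T Y C m n := by
  unfold F3 pw
  have h1 := dv_nonneg hκ m
  have h2 := dv_nonneg hκ n
  have h3 := hW.nn (Real.log m / Real.log T)
  have h4 := hW.nn (Real.log n / Real.log T)
  positivity

lemma F3_sum {κ : ℝ} {W : ℝ → ℝ} {θ θ' : ℝ} (hW : WU W θ θ') (a : ℝ) {T : ℝ} (hT : 1 < T)
    {Y : ℝ} (hY : 0 < Y) (C : ℝ) :
    HasSum (G3 κ W a T Y C)
      (∑ x ∈ Icc 1 ⌊T ^ θ'⌋₊ ×ˢ Icc 1 ⌊T ^ θ'⌋₊, F3 κ W a T Y C x.1 x.2) := by
  classical
  have hT0 : 0 < T := by linarith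
  have hL : 0 < Real.log T := Real.log_pos hT
  set L := Real.log T with hLd
  set N := ⌊T ^ θ'⌋₊ with hN
  have hbig : ∀ n : ℕ, N < n → θ' ≤ Real.log n / L := by
    intro n h
    have hn : (0 : ℝ) < n := by exact_mod_cast (by omega : 0 < n)
    rw [le_div_iff₀ hL, ← Real.log_rpow hT0]
    apply Real.log_le_log (by positivity)
    have : T ^ θ' < (n : ℝ) := by
      rwa [hN, Nat.floor_lt (by positivity)] at h
    exact this.le
  have hz : ∀ m n, ¬ (m ≤ N ∧ n ≤ N) → F3 κ W a T Y C m n = 0 := by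
    intro m n h
    unfold F3 pw
    by_cases hm : m ≤ N
    · have hn : N < n := by
        by_contra hn
        exact h ⟨hm, not_lt.1 hn⟩
      rw [hW.z (Real.log n / Real.log T) (hbig n hn)]; ring
    · rw [hW.z (Real.log m / Real.log T) (hbig m (not_le.1 hm))]; ring
  rw [sum_gcd N (F3 κ W a T Y C) hz]
  have hinj : ∀ y ∈ S3 N ×ˢ Icc 1 N, ∀ z ∈ S3 N ×ˢ Icc 1 N,
      (![y.1.1, y.1.2, y.2] : Fin 3 → ℕ) = ![z.1.1, z.1.2, z.2] → y = z := by
    intro y _ z _ h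
    have a0 := congrFun h 0
    have a1 := congrFun h 1
    have a2 := congrFun h 2
    simp only [Matrix.cons_val_zero, Matrix.cons_val_one, Matrix.cons_val] at a0 a1 a2
    exact Prod.ext (Prod.ext a0 a1) a2
  have h2 : ∑ y ∈ S3 N ×ˢ Icc 1 N, F3 κ W a T Y C (y.2 * y.1.1) (y.2 * y.1.2) =
      ∑ b ∈ (S3 N ×ˢ Icc 1 N).image (fun y => (![y.1.1, y.1.2, y.2] : Fin 3 → ℕ)),
        G3 κ W a T Y C b := by
    rw [sum_image hinj]
    refine sum_congr rfl fun y hy => ?_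
    obtain ⟨⟨h, l⟩, g⟩ := y
    rw [mem_product, mem_Icc] at hy
    obtain ⟨hb, hg, -⟩ := hy
    obtain ⟨hh, -, hl, -, hc⟩ := S3_prop hb
    exact F3_eq κ W a T hY C hh hl hg hc
  rw [h2]
  refine hasSum_sum_of_ne_finset_zero ?_
  intro b hb
  by_cases hw : (∀ i, b i ≠ 0) ∧ Nat.Coprime (b 0) (b 1)
  · obtain ⟨hne, hc⟩ := hw
    have n0 := Nat.pos_of_ne_zero (hne 0)
    have n1 := Nat.pos_of_ne_zero (hne 1)
    have n2 := Nat.pos_of_ne_zero (hne 2)
    have eb : b = ![b 0, b 1, b 2] := by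
      funext i
      fin_cases i <;> rfl
    rw [eb, ← F3_eq κ W a T hY C n0 n1 n2 hc]
    apply hz
    rintro ⟨c1, c2⟩
    apply hb
    rw [mem_image]
    refine ⟨((b 0, b 1), b 2), ?_, ?_⟩
    · unfold S3
      rw [mem_product, mem_filter, mem_product, mem_Icc, mem_Icc, mem_Icc]
      have d0 : b 0 ≤ b 2 * b 0 := Nat.le_mul_of_pos_left _ n2
      have d1 : b 1 ≤ b 2 * b 1 := Nat.le_mul_of_pos_left _ n2
      have d2 : b 2 ≤ b 2 * b 0 := Nat.le_mul_of_pos_right _ n0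
      exact ⟨⟨⟨⟨n0, d0.trans c1⟩, ⟨n1, d1.trans c2⟩⟩, hc⟩, ⟨n2, d2.trans c1⟩⟩
    · funext i
      fin_cases i <;> rfl
  · unfold G3
    rw [mw_lam3, if_neg hw, zero_mul]

/-- the arithmetic sum is at most its expected value -/
theorem arith_upper {κ : ℝ} (hκ : 0 < κ) {W : ℝ → ℝ} {θ θ' : ℝ} (hW : WU W θ θ') (hθ' : 0 < θ')
    (a : ℝ) {J : ℝ} (hJ : aF (κ + 1) * I3a κ W a < J) :
    ∀ᶠ T : ℝ in atTop, ∀ k : ℕ, Rng T k →
      ∑ x ∈ Icc 1 ⌊T ^ θ'⌋₊ ×ˢ Icc 1 ⌊T ^ θ'⌋₊, F3 κ W a T (Yf k T) (Ck k) x.1 x.2 ≤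
        J * Real.log T ^ ((κ + 1) ^ 2) := by
  have hm : ∀ i, 0 < m3 κ i := by
    intro i; fin_cases i
    · exact hκ
    · exact hκ
    · show 0 < κ ^ 2; positivity
  have hms : ∑ i, m3 κ i = κ + κ + κ ^ 2 := by
    rw [Fin.sum_univ_three]
    rfl
  have v2 := qa_zero hW a
  have v1 : ∀ u : Fin 3 → ℝ, (∀ i, 0 ≤ u i) → (∃ i, θ' ≤ u i) → qb W a u = 0 := by
    intro u hu hi
    unfold qb
    rw [v2 u hu hi, zero_mul]
  have hconst := lam3_const (a := κ) hκ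
  have hLW := (lam3_LW (a := κ) hκ).1
  have hA := (aF_pos (κ := κ + 1) (by positivity)).le
  have hconst' : aF (κ + 1) = ∏' p : Nat.Primes, ((1 - 1 / (p : ℝ)) ^ (∑ x, m3 κ x) *
      ∑' v : Fin 3 → ℕ, lam3 κ p v) := by
    rw [hconst]
  obtain ⟨s1, k1⟩ := kar hm hLW (aF (κ + 1)) hconst' hA (qb W a) (qb_cont hW.cont a) θ' v1 hθ'.le
  obtain ⟨s2, k2⟩ := kar hm hLW (aF (κ + 1)) hconst' hA (qa W a) (qa_cont hW.cont a) θ' v2 hθ'.le
  change Tendsto _ atTop (𝓝 (aF (κ + 1) * I3a κ W a)) at k1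
  rw [hms] at k1 k2
  set XX := aF (κ + 1) * I3a κ W a with hXX
  set Z := aF (κ + 1) * ∫ u : Fin 3 → ℝ, GdI (m3 κ) u * qa W a u with hZ
  set d := (J - XX) / 2 with hd
  have hd0 : 0 < d := by rw [hd]; linarith
  have e1 := (Real.tendsto_log_atTop).eventually (k1.eventually_lt_const
    (show XX < J - d by rw [hd]; linarith))
  have e2 := (Real.tendsto_log_atTop).eventually (k2.eventually_lt_const
    (show Z < Z + 1 by linarith))
  have e3 := (Real.tendsto_log_atTop).eventually_ge_atTop (6 * (|Z| + 1) / d)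
  filter_upwards [e1, e2, e3, eventually_gt_atTop (Real.exp 1)] with T h1 h2 h3 hTe k hk
  have hT : 1 < T := lt_trans (by
    have := Real.add_one_lt_exp (show (1 : ℝ) ≠ 0 by norm_num)
    linarith) hTe
  have hT0 : 0 < T := by linarith
  have hL1 : 1 < Real.log T := by
    rw [Real.lt_log_iff_exp_lt hT0]; exact hTe
  have hL0 : 0 < Real.log T := by linarith
  have hk1 : 1 ≤ k := by
    have : (1 : ℝ) ≤ k := by
      refine le_trans ?_ hk.1
      nlinarith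
    exact_mod_cast this
  have hk0 : (0 : ℝ) < k := by exact_mod_cast hk1
  have hY : 0 < Yf k T := by
    unfold Yf
    have := Real.pi_pos
    positivity
  have hD : |Real.log (Yf k T) + Ck k - Real.log T| ≤ 6 := Pool.Agent.H989R2.EM3.bk_bound hk1 hT0
  have hS := F3_sum (κ := κ) hW a hT hY (Ck k)
  rw [← hS.tsum_eq]
  set L := Real.log T with hLd
  have s1' := s1 L hL0
  have s2' := s2 L hL0
  have hP : 0 < L ^ (κ + κ + κ ^ 2) := by positivity
  rw [div_lt_iff₀ hP] at h1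
  rw [div_lt_iff₀ hP] at h2
  set P := L ^ (κ + κ + κ ^ 2) with hPd
  have hLP : L ^ ((κ + 1) ^ 2) = P * L := by
    rw [hPd, ← Real.rpow_add_one hL0.ne']; congr 1; ring
  rw [hLP]
  set S1 := ∑' b, mw (lam3 κ) b * qb W a (posI L b) with hS1
  set S2 := ∑' b, mw (lam3 κ) b * qa W a (posI L b) with hS2
  have hcmp : ∑' b : Fin 3 → ℕ, G3 κ W a T (Yf k T) (Ck k) b ≤ L * S1 + 6 * S2 := by
    rw [hS1, hS2, ← tsum_mul_left, ← tsum_mul_left, ← (s1'.mul_left L).tsum_add (s2'.mul_left 6)]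
    refine Summable.tsum_le_tsum (fun b => ?_) hS.summable ((s1'.mul_left L).add (s2'.mul_left 6))
    have hw := mw_nonneg' hLW b
    have hq := qa_nn hW a (posI L b)
    unfold G3 qb
    rw [← hLd]
    have e5 : Real.log (Yf k T) + Ck k - Real.log (b 0) - Real.log (b 1) =
        L * (1 - posI L b 0 - posI L b 1) + (Real.log (Yf k T) + Ck k - L) := by
      unfold posI
      field_simp
      ring
    rw [e5]
    have h6 : |L * (1 - posI L b 0 - posI L b 1) + (Real.log (Yf k T) + Ck k - L)| ≤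
        L * |1 - posI L b 0 - posI L b 1| + 6 := by
      refine (abs_add_le _ _).trans ?_
      rw [abs_mul, abs_of_pos hL0]
      linarith
    have h7 : mw (lam3 κ) b * (qa W a (posI L b) *
        |L * (1 - posI L b 0 - posI L b 1) + (Real.log (Yf k T) + Ck k - L)|) ≤
        mw (lam3 κ) b * (qa W a (posI L b) * (L * |1 - posI L b 0 - posI L b 1| + 6)) := by
      gcongr
    refine h7.trans (le_of_eq ?_)
    ring
  refine hcmp.trans ?_
  have h5 : 6 * (Z + 1) ≤ d * L := by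
    rw [div_le_iff₀ hd0] at h3
    have := le_abs_self Z
    linarith
  have a1 : L * S1 ≤ L * ((J - d) * P) := mul_le_mul_of_nonneg_left h1.le hL0.le
  have a2 : 6 * (Z + 1) * P ≤ d * L * P := mul_le_mul_of_nonneg_right h5 hP.le
  linarith

/-- the weight `om * |zeta|^2` -/
def wt (k : ℕ) (T t : ℝ) : ℝ := om k (k / T) t * ‖riemannZeta (cl t)‖ ^ 2

/-- the second moment of the Dirichlet polynomial with respect to the weight -/
theorem S_bd (hTSM : P_TSM2) {κ : ℝ} (hκ : 0 < κ) (hκ1 : κ ≤ 1) {W : ℝ → ℝ} {θ θ' : ℝ}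
    (hW : WU W θ θ') (hθ : 0 < θ) (hθθ : θ < θ') (hθ' : θ' < 14 / 27)
    (a : ℝ) {J : ℝ} (hJ : aF (κ + 1) * I3a κ W a < J) :
    ∀ᶠ T : ℝ in atTop, ∀ k : ℕ, Rng T k → ∀ v : ℝ,
      ∫ t in Set.Ioi (0 : ℝ), wt k T t *
        ‖DS (dv κ) ⌊T ^ θ⌋₊ (((1 / 2 + a / Real.log T : ℝ) : ℂ) + ((t + v : ℝ) : ℂ) * I)‖ ^ 2 ≤
      J * Real.log T ^ ((κ + 1) ^ 2) := by
  obtain ⟨J', hJ1, hJ2⟩ := exists_between hJ
  obtain ⟨η, hη, hT⟩ := hTSM θ (hθθ.trans hθ')
  have hAr := arith_upper hκ hW (hθ.trans hθθ) a hJ1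
  set ρ : ℝ := Real.exp (-|a|) with hρ
  have hρ0 : 0 < ρ := Real.exp_pos _
  have hsm : ∀ᶠ T : ℝ in atTop, (ρ ^ 2)⁻¹ * T ^ (-η) ≤ J - J' := by
    have : Tendsto (fun T : ℝ => (ρ ^ 2)⁻¹ * T ^ (-η)) atTop (𝓝 ((ρ ^ 2)⁻¹ * 0)) :=
      (tendsto_rpow_neg_atTop hη).const_mul _
    rw [mul_zero] at this
    exact this.eventually_le_const (by linarith)
  filter_upwards [hT, hAr, hsm, eventually_gt_atTop (Real.exp 1)] with T hT hAr hsm hTe k hk v
  have hT1 : 1 < T := lt_trans (by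
    have := Real.add_one_lt_exp (show (1 : ℝ) ≠ 0 by norm_num)
    linarith) hTe
  have hT0 : 0 < T := by linarith
  have hL1 : 1 < Real.log T := by
    rw [Real.lt_log_iff_exp_lt hT0]; exact hTe
  set L := Real.log T with hLd
  have hL0 : 0 < L := by linarith
  set N := ⌊T ^ θ⌋₊ with hN
  have hNT : (N : ℝ) ≤ T ^ θ := Nat.floor_le (by positivity)
  have hlogn : ∀ n : ℕ, 1 ≤ n → n ≤ N → 0 ≤ Real.log n / L ∧ Real.log n / L ≤ θ := by
    intro n h1 h2
    have h1' : (1 : ℝ) ≤ n := by exact_mod_cast h1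
    have h2' : (n : ℝ) ≤ T ^ θ := le_trans (by exact_mod_cast h2) hNT
    refine ⟨div_nonneg (Real.log_nonneg h1') hL0.le, ?_⟩
    rw [div_le_iff₀ hL0, ← Real.log_rpow hT0]
    exact Real.log_le_log (by linarith) h2'
  have hnorm : ∀ n : ℕ, 1 ≤ n → ‖(n : ℂ) ^ (-(((a / L : ℝ) : ℂ) + (v : ℂ) * I))‖ =
      Real.exp (-(a * (Real.log n / L))) := by
    intro n h1
    have h0 : (0 : ℝ) < n := by exact_mod_cast h1
    have e : (n : ℂ) = ((n : ℝ) : ℂ) := by norm_cast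
    rw [e, Complex.norm_cpow_eq_rpow_re_of_pos h0, Real.rpow_def_of_pos h0]
    congr 1
    simp
    ring
  set α : ℕ → ℂ := fun n => if n ≤ N then (ρ : ℂ) * ((dv κ n : ℝ) : ℂ) *
    (n : ℂ) ^ (-(((a / L : ℝ) : ℂ) + (v : ℂ) * I)) else 0 with hα
  have hθ1 : θ ≤ 1 := by linarith
  have hexp : ∀ n : ℕ, 1 ≤ n → n ≤ N → ρ * Real.exp (-(a * (Real.log n / L))) ≤ 1 := by
    intro n h1 h2
    obtain ⟨h3, h4⟩ := hlogn n h1 h2
    rw [hρ, ← Real.exp_add]
    apply Real.exp_le_one_iff.2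
    have h5 : -(a * (Real.log n / L)) ≤ |a| * 1 := by
      calc -(a * (Real.log n / L)) = (-a) * (Real.log n / L) := by ring
        _ ≤ |a| * (Real.log n / L) := mul_le_mul_of_nonneg_right (neg_le_abs a) h3
        _ ≤ |a| * 1 := mul_le_mul_of_nonneg_left (h4.trans hθ1) (abs_nonneg a)
    linarith
  have hα1 : ∀ n, ‖α n‖ ≤ 1 := by
    intro n
    rw [hα]
    simp only
    split_ifs with h
    · rcases Nat.eq_zero_or_pos n with h0 | h0
      · subst h0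
        have : dv κ 0 = 0 := by simp [dv]
        rw [this]; simp
      · rw [norm_mul, norm_mul, hnorm n h0, Complex.norm_real, Complex.norm_real,
          Real.norm_of_nonneg hρ0.le, Real.norm_of_nonneg (dv_nonneg hκ.le n)]
        have h1 := hexp n h0 h
        have h2 := dv_le_one hκ.le hκ1 n
        have h3 := dv_nonneg hκ.le n
        calc ρ * dv κ n * Real.exp (-(a * (Real.log n / L))) =
              dv κ n * (ρ * Real.exp (-(a * (Real.log n / L)))) := by ring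
          _ ≤ 1 * 1 := mul_le_mul h2 h1 (by positivity) (by norm_num)
          _ = 1 := by norm_num
    · simp
  have hmain := hT k hk N hNT α hα1
  -- identification of the polynomial
  have hpoly : ∀ t : ℝ, ∑ n ∈ Icc 1 N, α n * (n : ℂ) ^ (-(cl t)) =
      (ρ : ℂ) * DS (dv κ) N (((1 / 2 + a / L : ℝ) : ℂ) + ((t + v : ℝ) : ℂ) * I) := by
    intro t
    unfold DS
    rw [mul_sum]
    refine sum_congr rfl fun n hn => ?_
    rw [mem_Icc] at hn
    have h0 : (n : ℂ) ≠ 0 := by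
      have : n ≠ 0 := by omega
      exact_mod_cast this
    rw [hα]
    simp only
    rw [if_pos hn.2, mul_assoc, ← Complex.cpow_add _ _ h0, mul_assoc]
    congr 3
    unfold cl
    push_cast
    ring
  have hSeq : (∫ t in Set.Ioi (0 : ℝ), om k (k / T) t * ‖riemannZeta (cl t)‖ ^ 2 *
      ‖∑ n ∈ Icc 1 N, α n * (n : ℂ) ^ (-(cl t))‖ ^ 2) = ρ ^ 2 *
      ∫ t in Set.Ioi (0 : ℝ), wt k T t *
        ‖DS (dv κ) N (((1 / 2 + a / L : ℝ) : ℂ) + ((t + v : ℝ) : ℂ) * I)‖ ^ 2 := by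
    rw [← integral_const_mul]
    refine integral_congr_ae (Eventually.of_forall fun t => ?_)
    simp only
    rw [hpoly t, norm_mul, Complex.norm_real, Real.norm_of_nonneg hρ0.le]
    unfold wt
    ring
  rw [hSeq] at hmain
  set S := ∫ t in Set.Ioi (0 : ℝ), wt k T t *
        ‖DS (dv κ) N (((1 / 2 + a / L : ℝ) : ℂ) + ((t + v : ℝ) : ℂ) * I)‖ ^ 2 with hS
  set Mn : ℂ := ∑ h ∈ Icc 1 N, ∑ l ∈ Icc 1 N, α h * (starRingEnd ℂ) (α l) *
    ((1 / (Nat.lcm h l : ℝ) *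
      (Real.log (Yf k T * (Nat.gcd h l : ℝ) ^ 2 / ((h : ℝ) * l)) + Ck k) : ℝ) : ℂ) with hMn
  have hMn1 : ‖Mn‖ ≤ ρ ^ 2 * ∑ x ∈ Icc 1 ⌊T ^ θ'⌋₊ ×ˢ Icc 1 ⌊T ^ θ'⌋₊,
      F3 κ W a T (Yf k T) (Ck k) x.1 x.2 := by
    have hαn : ∀ n, 1 ≤ n → n ≤ N → ‖α n‖ ≤ ρ * pw κ W a T n := by
      intro n h1 h2
      rw [hα]
      simp only
      rw [if_pos h2, norm_mul, norm_mul, hnorm n h1, Complex.norm_real, Complex.norm_real,
        Real.norm_of_nonneg hρ0.le, Real.norm_of_nonneg (dv_nonneg hκ.le n)]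
      unfold pw
      rw [← hLd, hW.one _ (hlogn n h1 h2).2, one_mul, mul_assoc]
    have hsub : Icc 1 N ×ˢ Icc 1 N ⊆ Icc 1 ⌊T ^ θ'⌋₊ ×ˢ Icc 1 ⌊T ^ θ'⌋₊ := by
      have hle : N ≤ ⌊T ^ θ'⌋₊ := Nat.floor_le_floor
        (Real.rpow_le_rpow_of_exponent_le hT1.le hθθ.le)
      exact product_subset_product (Icc_subset_Icc_right hle) (Icc_subset_Icc_right hle)
    have h1 : ‖Mn‖ ≤ ∑ x ∈ Icc 1 N ×ˢ Icc 1 N, ρ ^ 2 * F3 κ W a T (Yf k T) (Ck k) x.1 x.2 := by
      rw [hMn, sum_product]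
      refine (norm_sum_le _ _).trans (sum_le_sum fun h hh => ?_)
      refine (norm_sum_le _ _).trans (sum_le_sum fun l hl => ?_)
      rw [mem_Icc] at hh hl
      rw [norm_mul, norm_mul, RCLike.norm_conj, Complex.norm_real, Real.norm_eq_abs, abs_mul,
        abs_of_nonneg (show (0:ℝ) ≤ 1 / (Nat.lcm h l : ℝ) by positivity)]
      have c1 := hαn h hh.1 hh.2
      have c2 := hαn l hl.1 hl.2
      have c3 : 0 ≤ pw κ W a T h := by
        unfold pw
        have := dv_nonneg hκ.le h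
        have := hW.nn (Real.log h / Real.log T)
        positivity
      unfold F3
      calc _ ≤ (ρ * pw κ W a T h) * (ρ * pw κ W a T l) * (1 / (Nat.lcm h l : ℝ) *
            |Real.log (Yf k T * (Nat.gcd h l : ℝ) ^ 2 / ((h : ℝ) * l)) + Ck k|) := by
            refine mul_le_mul_of_nonneg_right ?_ (by positivity)
            exact mul_le_mul c1 c2 (norm_nonneg _) (by positivity)
        _ = _ := by ring
    refine h1.trans ?_
    rw [← mul_sum]
    refine mul_le_mul_of_nonneg_left ?_ (by positivity)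
    exact sum_le_sum_of_subset_of_nonneg hsub fun x _ _ => F3_nn hκ.le hW a T _ _ _ _
  have h3 : ρ ^ 2 * S ≤ ‖Mn‖ + T ^ (-η) := by
    have h4 : ‖((ρ ^ 2 * S : ℝ) : ℂ)‖ ≤ ‖((ρ ^ 2 * S : ℝ) : ℂ) - Mn‖ + ‖Mn‖ := by
      have := norm_add_le (((ρ ^ 2 * S : ℝ) : ℂ) - Mn) Mn
      rwa [sub_add_cancel] at this
    rw [Complex.norm_real] at h4
    have h5 := Real.le_norm_self (ρ ^ 2 * S)
    linarith
  have h6 := hAr k hk
  have h7 : ρ ^ 2 * S ≤ ρ ^ 2 * (J' * L ^ ((κ + 1) ^ 2) + (ρ ^ 2)⁻¹ * T ^ (-η)) := by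
    calc ρ ^ 2 * S ≤ ρ ^ 2 * (∑ x ∈ Icc 1 ⌊T ^ θ'⌋₊ ×ˢ Icc 1 ⌊T ^ θ'⌋₊,
          F3 κ W a T (Yf k T) (Ck k) x.1 x.2) + T ^ (-η) := by linarith
      _ ≤ ρ ^ 2 * (J' * L ^ ((κ + 1) ^ 2)) + T ^ (-η) := by gcongr
      _ = _ := by
        have : ρ ^ 2 ≠ 0 := by positivity
        field_simp
  have h8 := le_of_mul_le_mul_left h7 (by positivity)
  have h9 : 1 ≤ L ^ ((κ + 1) ^ 2) := Real.one_le_rpow hL1.le (by positivity)
  have h10 : (J - J') * 1 ≤ (J - J') * L ^ ((κ + 1) ^ 2) :=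
    mul_le_mul_of_nonneg_left h9 (by linarith)
  linarith

end

end Pool.Agent.L7h20.TM3
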